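import Pool.Agent.T2H61.OT.Stm

namespace Pool.Agent.T2H61.OT

open Finset

theorem AD1_runL_append {W A Q : Type} (M : FM W A Q) (c : Conf A Q) (u v : List W) :
    M.runL c (u ++ v) = M.runL (M.runL c u) v := by
  induction u generalizing c with
  | nil => rfl
  | cons w u ih => simp only [List.cons_append, FM.runL]; exact ih _

theorem pAD1 : S_AD1 := by
  intro W A Q P z
  have hlen : ∀ t, (P.tx z t).length = t := by
    intro t
    induction t with
    | zero => rfl
    | succ t ih => simp [Par.tx, ih]
  have hpre : ∀ t, P.tx z t = pre (P.st z) t := by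
    intro t
    induction t with
    | zero => rfl
    | succ t ih =>
      simp only [pre, List.range_succ, List.map_append, List.map_cons, List.map_nil]
      show P.tx z t ++ [P.next z (P.tx z t)] = _
      rw [show (List.range t).map (P.st z) = P.tx z t from ih.symm]
      rfl
  have htake : ∀ s t, s ≤ t → (P.tx z t).take s = P.tx z s := by
    intro s t hst
    rw [hpre, hpre]
    simp only [pre, ← List.map_take, List.take_range, Nat.min_eq_left hst]
  have hcnt : ∀ t x, P.cnt (P.tx z t) x = P.vis z t x := by
    intro t x
    unfold Par.cnt Par.vis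
    rw [hlen]
    congr 1
    apply filter_congr
    intro s hs
    rw [mem_Ico] at hs
    rw [htake s t (by omega)]
    rfl
  have hstep : ∀ t, |P.pos z (t + 1) - P.pos z t| ≤ 1 := by
    intro t
    have h : P.pos z (t + 1) = (P.M.step (P.next z (P.tx z t)) (P.M.runL P.M.init (P.tx z t))).g := by
      unfold Par.pos Par.hd
      show (P.M.runL P.M.init (P.tx z t ++ [P.next z (P.tx z t)])).g = _
      rw [AD1_runL_append]
      rfl
    rw [h]
    show |(P.M.step _ _).g - (P.M.runL P.M.init (P.tx z t)).g| ≤ 1
    simp only [FM.step]
    rw [abs_le]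
    constructor <;> omega
  have hmono : ∀ t x, P.vis z t x ≤ P.vis z (t + 1) x := by
    intro t x
    unfold Par.vis
    apply card_le_card
    apply filter_subset_filter
    apply Ico_subset_Ico le_rfl (by omega)
  refine ⟨fun t => ⟨hlen t, hpre t⟩, htake, hcnt, hstep, ?_, hmono, ?_⟩
  · intro t
    induction t with
    | zero => simp [Par.pos, Par.hd, Par.tx, FM.runL, FM.init]
    | succ t ih =>
      have h1 := hstep t
      rw [abs_le] at h1 ih ⊢
      push_cast
      constructor <;> omega
  · intro s t hs hst
    have h1 : P.vis z s (P.pos z s) < P.vis z (s + 1) (P.pos z s) := by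
      unfold Par.vis
      apply card_lt_card
      rw [ssubset_iff_of_subset (filter_subset_filter _ (Ico_subset_Ico le_rfl (by omega)))]
      refine ⟨s, ?_, ?_⟩
      · simp only [mem_filter, mem_Ico]; exact ⟨⟨hs, by omega⟩, trivial⟩
      · simp
    have h2 : Monotone (fun t => P.vis z t (P.pos z s)) := monotone_nat_of_le_succ
      (fun t => hmono t _)
    exact lt_of_lt_of_le h1 (h2 (by omega : s + 1 ≤ t))

end Pool.Agent.T2H61.OT
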