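import Pool.Agent.T2H61.OT.Stm

namespace Pool.Agent.T2H61.OT

open Finset

open Classical in
theorem pAD2 : S_AD2 := by
  intro W A Q P z
  have hlen : ∀ t, (P.tx z t).length = t := by
    intro t
    induction t with
    | zero => rfl
    | succ t ih => simp [Par.tx, ih]
  have hpre : ∀ t, P.tx z t = pre (P.st z) t := by
    intro t
    induction t with
    | zero => rfl
    | succ t ih =>
      simp only [pre, List.range_succ, List.map_append, List.map_cons, List.map_nil]
      show P.tx z t ++ [P.next z (P.tx z t)] = _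
      rw [show (List.range t).map (P.st z) = P.tx z t from ih.symm]
      rfl
  have htake : ∀ s t, s ≤ t → (P.tx z t).take s = P.tx z s := by
    intro s t hst
    rw [hpre, hpre]
    simp only [pre, ← List.map_take, List.take_range, Nat.min_eq_left hst]
  have hcnt : ∀ t x, P.cnt (P.tx z t) x = P.vis z t x := by
    intro t x
    unfold Par.cnt Par.vis
    rw [hlen]
    congr 1
    apply filter_congr
    intro s hs
    rw [mem_Ico] at hs
    rw [htake s t (by omega)]
    rfl
  have hF : ∀ w, w ∈ Set.range P.F → w ∈ P.S z ∧ w ∉ P.D z := by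
    intro w hw
    exact ⟨fun h => absurd hw h, fun ⟨h, _⟩ => h hw⟩
  have hw0 : P.w0 ∈ Set.range P.F := ⟨_, rfl⟩
  have hst1 : ∀ t, t < P.N → P.st z t = if P.e t ∈ P.S z then P.e t else P.w0 := by
    intro t ht
    unfold Par.st Par.next
    rw [hlen, if_pos ht]
  have hst2 : ∀ t, P.N ≤ t → P.st z t =
      if P.B2 < |P.pos z t| ∧ (P.K : ℤ) ∣ P.pos z t ∧ P.vis z t (P.pos z t) = 0 then
        (if P.e (((P.pos z t).natAbs / P.K) % P.N) ∈ P.D z then P.w0
          else P.e (((P.pos z t).natAbs / P.K) % P.N))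
      else P.F (P.tab (P.pos z t) (P.vis z t (P.pos z t))) := by
    intro t ht
    unfold Par.st Par.next
    rw [hlen, if_neg (by omega)]
    rw [hcnt]
    rfl
  refine ⟨?_, ?_, ?_, ?_, ?_, hF, ?_⟩
  · intro t ht
    by_cases h : t < P.N
    · rw [hst1 t h]
      split_ifs with h2
      · exact h2
      · exact (hF _ hw0).1
    · rw [hst2 t (by omega), if_neg (by intro h2; omega)]
      exact (hF _ ⟨_, rfl⟩).1
  · intro t ht
    rw [hst2 t ht]
    split_ifs with h1 h2
    · exact (hF _ hw0).2
    · exact h2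
    · exact (hF _ ⟨_, rfl⟩).2
  · intro w hw
    obtain ⟨i, hi, hei⟩ := P.he w
    refine ⟨i, hi, ?_⟩
    rw [hst1 i hi, hei, if_pos hw]
  · intro t ht
    by_cases h : P.B2 < |P.pos z t| ∧ (P.K : ℤ) ∣ P.pos z t ∧ P.vis z t (P.pos z t) = 0
    · left; exact h
    · right
      rw [hst2 t ht, if_neg h]
  · intro x
    constructor
    · exact ⟨fun h => h x.2, fun h _ => h⟩
    · exact ⟨fun ⟨_, h⟩ => h, fun h => ⟨x.2, h⟩⟩
  · rintro w ⟨h, h0⟩ h'
    rw [h0]; decide

end Pool.Agent.T2H61.OT
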