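import Pool.Agent.T2H61.OT.Stm

set_option autoImplicit false

namespace Pool.Agent.T2H61.OT

private theorem app_run {W A Q : Type} (M : FM W A Q) (u v : List W) (c : Conf A Q) :
    M.runL c (u ++ v) = M.runL (M.runL c u) v := by
  induction u generalizing c with
  | nil => rfl
  | cons w u ih => exact ih (M.step w c)

private theorem app_msgs {W A Q : Type} (M : FM W A Q) (l r : ℤ) (u v : List W) (c : Conf A Q) :
    M.msgs l r c (u ++ v) = M.msgs l r c u ++ M.msgs l r (M.runL c u) v := by
  induction u generalizing c with
  | nil => rfl
  | cons w u ih =>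
    have h := ih (M.step w c)
    simp only [List.cons_append, FM.msgs, FM.runL]
    split_ifs
    · exact h
    · rw [h]; rfl

private theorem app_inw {W A Q : Type} (M : FM W A Q) (l r : ℤ) (u v : List W) (c : Conf A Q) :
    M.inw l r c (u ++ v) = M.inw l r c u ++ M.inw l r (M.runL c u) v := by
  induction u generalizing c with
  | nil => rfl
  | cons w u ih =>
    have h := ih (M.step w c)
    simp only [List.cons_append, FM.inw, FM.runL]
    split_ifs
    · rw [h]; rfl
    · exact h

private theorem app_outw {W A Q : Type} (M : FM W A Q) (l r : ℤ) (u v : List W) (c : Conf A Q) :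
    M.outw l r c (u ++ v) = M.outw l r c u ++ M.outw l r (M.runL c u) v := by
  induction u generalizing c with
  | nil => rfl
  | cons w u ih =>
    have h := ih (M.step w c)
    simp only [List.cons_append, FM.outw, FM.runL]
    split_ifs
    · exact h
    · rw [h]; rfl

private theorem app_ent {W A Q : Type} (M : FM W A Q) (l r : ℤ) (u v : List W) (c : Conf A Q) :
    M.ent l r c (u ++ v) = M.ent l r c u + M.ent l r (M.runL c u) v := by
  induction u generalizing c with
  | nil => simp [FM.ent, FM.runL]
  | cons w u ih =>
    have h := ih (M.step w c)
    simp only [List.cons_append, FM.ent, FM.runL]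
    rw [h, add_assoc]

private theorem app_mem {W A Q : Type} (M : FM W A Q) (l r : ℤ) (x : W) (u : List W)
    (c : Conf A Q) : x ∈ u ↔ x ∈ M.inw l r c u ∨ x ∈ M.outw l r c u := by
  induction u generalizing c with
  | nil => simp [FM.inw, FM.outw]
  | cons w u ih =>
    have h := ih (M.step w c)
    simp only [FM.inw, FM.outw]
    split_ifs
    · rw [List.mem_cons, List.mem_cons, h, or_assoc]
    · rw [List.mem_cons, List.mem_cons, h]
      tauto

private theorem app_len {W A Q : Type} (M : FM W A Q) (l r : ℤ) (u : List W) (c : Conf A Q) :
    (M.inw l r c u).length + (M.outw l r c u).length = u.length := by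
  induction u generalizing c with
  | nil => simp [FM.inw, FM.outw]
  | cons w u ih =>
    have h := ih (M.step w c)
    simp only [FM.inw, FM.outw]
    split_ifs
    · simp only [List.length_cons]; omega
    · simp only [List.length_cons]; omega

theorem pAPP : S_APP := by
  intro W A Q M c u v l r
  exact ⟨app_run M u v c, app_msgs M l r u v c, app_inw M l r u v c, app_outw M l r u v c,
    app_ent M l r u v c, fun x => app_mem M l r x u c, app_len M l r u c⟩

end Pool.Agent.T2H61.OT
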