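import Pool.Agent.T2H61.OT.Stm

/-!
# Project OT, package COV
-/

namespace Pool.Agent.T2H61.OT

open Finset

theorem pCOV (hAD1 : S_AD1) (hAD2 : S_AD2) : S_COV := by
  intro W A Q P z hesc w hw
  obtain ⟨c1, c2, c3, c4, c5, c6, c7⟩ := hAD1 W A Q P z
  obtain ⟨i, hiN, hi⟩ := P.he w
  have hK := P.hK
  have hNpos : 1 ≤ P.N := by omega
  -- the target distance
  obtain ⟨x, hx⟩ : ∃ x : ℕ, x = P.K * (i + (P.N + P.K + 7) * P.N) := ⟨_, rfl⟩
  have hxB : P.B2 < (x : ℤ) := by
    have h1 : P.N + P.K + 6 < x := by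
      have h2 : P.N + P.K + 7 ≤ (P.N + P.K + 7) * P.N := Nat.le_mul_of_pos_right _ hNpos
      have h3 : i + (P.N + P.K + 7) * P.N ≤ P.K * (i + (P.N + P.K + 7) * P.N) :=
        Nat.le_mul_of_pos_left _ (by omega)
      omega
    unfold Par.B2
    exact_mod_cast h1
  have hex : ∃ t, (x : ℤ) ≤ |P.pos z t| := by
    obtain ⟨T0, hT0⟩ := hesc (x : ℤ)
    exact ⟨T0, (hT0 T0 le_rfl).le⟩
  classical
  let t := Nat.find hex
  have ht : (x : ℤ) ≤ |P.pos z t| := Nat.find_spec hex
  have hmin : ∀ s, s < t → |P.pos z s| < (x : ℤ) := by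
    intro s hs
    have := Nat.find_min hex hs
    exact not_le.1 this
  have hN0 : (0 : ℤ) ≤ (P.N : ℤ) := Int.natCast_nonneg _
  have hB1B2 : P.B1 ≤ P.B2 := by
    unfold Par.B1 Par.B2
    have : (0 : ℤ) ≤ (P.K : ℤ) := Int.natCast_nonneg _
    linarith
  have hxpos : (0 : ℤ) < (x : ℤ) := by
    have : (0 : ℤ) ≤ P.B2 := by
      unfold Par.B2
      have : (0 : ℤ) ≤ (P.K : ℤ) := Int.natCast_nonneg _
      linarith
    linarith
  have hteq : |P.pos z t| = (x : ℤ) := by
    have ht0 : t ≠ 0 := by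
      intro h0
      have h1 := c5 t
      rw [h0] at ht h1
      simp only [Nat.cast_zero] at h1
      linarith
    obtain ⟨t', ht'⟩ := Nat.exists_eq_succ_of_ne_zero ht0
    have h1 := hmin t' (by omega)
    have h2 := c4 t'
    have h3 : |P.pos z (t' + 1)| ≤ |P.pos z t'| + |P.pos z (t' + 1) - P.pos z t'| := by
      have := abs_add_le (P.pos z t') (P.pos z (t' + 1) - P.pos z t')
      rwa [add_sub_cancel] at this
    have h4 : |P.pos z t| = |P.pos z (t' + 1)| := by rw [ht']
    have h5 : |P.pos z t| < (x : ℤ) + 1 := by rw [h4]; linarith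
    omega
  have hNt : P.N ≤ t := by
    have h1 := c5 t
    rw [hteq] at h1
    have h2 : (P.N : ℤ) ≤ (t : ℤ) := by
      have : (P.N : ℤ) ≤ P.B2 := by
        unfold Par.B2
        have : (0 : ℤ) ≤ (P.K : ℤ) := Int.natCast_nonneg _
        linarith
      linarith
    exact_mod_cast h2
  have hvis : P.vis z t (P.pos z t) = 0 := by
    unfold Par.vis
    rw [Finset.card_eq_zero, Finset.filter_eq_empty_iff]
    intro s hs
    have hs' := (Finset.mem_Ico.1 hs).2
    intro hss
    have h1 := hmin s hs'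
    rw [hss, hteq] at h1
    exact lt_irrefl _ h1
  refine ⟨t, ?_, ?_⟩
  · rw [hteq]
    linarith
  · have hlen : (P.tx z t).length = t := (c1 t).1
    have hhd : P.hd (P.tx z t) = P.pos z t := rfl
    unfold Par.st Par.next
    rw [if_neg (by rw [hlen]; omega)]
    have hnat : (P.hd (P.tx z t)).natAbs = x := by
      rw [hhd]
      have : ((P.pos z t).natAbs : ℤ) = (x : ℤ) := by
        rw [Int.natCast_natAbs]
        exact hteq
      exact_mod_cast this
    have hdvd : (P.K : ℤ) ∣ P.hd (P.tx z t) := by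
      rw [← Int.dvd_natAbs, hnat, hx]
      exact_mod_cast Dvd.intro _ rfl
    have hcnt : P.cnt (P.tx z t) (P.hd (P.tx z t)) = 0 := by
      rw [c3, hhd, hvis]
    rw [if_pos ⟨by rw [hhd, hteq]; exact hxB, hdvd, hcnt⟩, hnat]
    have hdiv : x / P.K % P.N = i := by
      rw [hx, Nat.mul_div_cancel_left _ (by omega), Nat.add_mul_mod_self_right,
        Nat.mod_eq_of_lt hiN]
    rw [hdiv, hi, if_neg hw]

end Pool.Agent.T2H61.OT
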