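import Pool.Agent.T2H61.OT.Stm

/-! # Package FG (helper74): a good table exists -/

set_option autoImplicit false

namespace Pool.Agent.T2H61.OT

open Finset

private theorem fg_card {W Tb : Type} [Fintype W] [Fintype Tb] [DecidableEq W] [DecidableEq Tb]
    {m : ℕ} (a : Fin m → W) (t : Fin m → Tb) (j0 : Fin m) (ht : Function.Injective t) :
    ((univ : Finset (Tb → W)).filter (fun F => ∀ j, j ≠ j0 → F (t j) = a j)).card *
      Fintype.card W ^ (m - 1) ≤ Fintype.card W ^ Fintype.card Tb := by
  classical
  have h1 : Fintype.card ({j : Fin m // j ≠ j0} → W) = Fintype.card W ^ (m - 1) := by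
    rw [Fintype.card_fun]
    congr 1
    rw [Fintype.card_subtype_compl, Fintype.card_fin]
    simp
  have h2 : Fintype.card (Tb → W) = Fintype.card W ^ Fintype.card Tb := Fintype.card_fun
  rw [← h1, ← h2, ← card_univ, ← card_univ, ← card_product]
  set φ : (Tb → W) × ({j : Fin m // j ≠ j0} → W) → (Tb → W) := fun p x =>
    if h : ∃ j : {j : Fin m // j ≠ j0}, t j = x then p.2 h.choose else p.1 x with hφ
  refine card_le_card_of_injOn φ (fun _ _ => mem_coe.2 (mem_univ _)) ?_
  rintro ⟨F, u⟩ hF ⟨F', u'⟩ hF' hEq
  rw [mem_coe, mem_product, mem_filter] at hF hF'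
  have key : ∀ x, φ (F, u) x = φ (F', u') x := fun x => congrFun hEq x
  have hu : u = u' := by
    funext j
    have hx := key (t j)
    have hex : ∃ j' : {j : Fin m // j ≠ j0}, t j' = t j := ⟨j, rfl⟩
    simp only [hφ, dif_pos hex] at hx
    have hj : hex.choose = j := Subtype.ext (ht hex.choose_spec)
    rwa [hj] at hx
  have hFF : F = F' := by
    funext x
    by_cases hex : ∃ j : {j : Fin m // j ≠ j0}, t j = x
    · obtain ⟨j, rfl⟩ := hex
      exact (hF.1.2 j j.2).trans (hF'.1.2 j j.2).symm
    · have hx := key x
      simp only [hφ, dif_neg hex] at hx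
      exact hx
  rw [hu, hFF]

theorem pFG : S_FG := by
  classical
  intro W Tb I _ _ _ m s R hm hs hlt
  by_contra hcon
  push Not at hcon
  set X : I → Finset W := fun i => univ.filter (fun x => ∃ a, R i a ∧ ∃ j, a j = x) with hXdef
  have hX : ∀ i, (X i).card ≤ s := by
    intro i
    refine le_trans (le_of_eq ?_) (hs i)
    rw [Set.ncard_eq_toFinset_card']
    congr 1
    ext x
    simp [hXdef]
  set B : (Fin m → W) → (Fin m → Tb) → Fin m → Finset (Tb → W) := fun a t j0 =>
    univ.filter (fun F => ∀ j, j ≠ j0 → F (t j) = a j) with hBdef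
  have hN : 0 < Fintype.card W := by
    rcases Nat.eq_zero_or_pos (Fintype.card W) with h | h
    · rw [h, zero_pow (by omega)] at hlt
      omega
    · exact h
  have hB : ∀ a t j0, Function.Injective t → (B a t j0).card ≤
      Fintype.card W ^ Fintype.card Tb / Fintype.card W ^ (m - 1) := by
    intro a t j0 ht
    rw [Nat.le_div_iff_mul_le (by positivity)]
    exact fg_card a t j0 ht
  have hcov : (univ : Finset (Tb → W)) ⊆ (univ : Finset I).biUnion fun i =>
      (Fintype.piFinset fun _ : Fin m => X i).biUnion fun a =>
        ((univ : Finset (Fin m → Tb)).filter Function.Injective).biUnion fun t =>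
          (univ : Finset (Fin m)).biUnion fun j0 => B a t j0 := by
    intro F _
    obtain ⟨i, a, hR, t, ht, h⟩ := hcon F
    simp only [mem_biUnion, mem_univ, true_and, Fintype.mem_piFinset, mem_filter]
    refine ⟨i, a, fun j => ?_, t, ht, ?_⟩
    · rw [hXdef, mem_filter]
      exact ⟨mem_univ _, a, hR, j, rfl⟩
    · by_cases hall : ∃ j0, a j0 ≠ F (t j0)
      · obtain ⟨j0, hj0⟩ := hall
        refine ⟨j0, ?_⟩
        rw [hBdef, mem_filter]
        exact ⟨mem_univ _, fun j hj => (h j0 j (Ne.symm hj) hj0).symm⟩
      · push Not at hall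
        refine ⟨⟨0, hm⟩, ?_⟩
        rw [hBdef, mem_filter]
        exact ⟨mem_univ _, fun j _ => (hall j).symm⟩
  have hbound : Fintype.card W ^ Fintype.card Tb ≤ Fintype.card I * (s ^ m *
      (Fintype.card Tb ^ m * (m *
        (Fintype.card W ^ Fintype.card Tb / Fintype.card W ^ (m - 1))))) := by
    calc Fintype.card W ^ Fintype.card Tb = (univ : Finset (Tb → W)).card := by
          rw [card_univ, Fintype.card_fun]
      _ ≤ _ := card_le_card hcov
      _ ≤ (univ : Finset I).card * (s ^ m * (Fintype.card Tb ^ m * (m *
        (Fintype.card W ^ Fintype.card Tb / Fintype.card W ^ (m - 1))))) := by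
          refine card_biUnion_le_card_mul _ _ _ fun i _ => ?_
          refine (card_biUnion_le_card_mul _ _ (Fintype.card Tb ^ m * (m *
            (Fintype.card W ^ Fintype.card Tb / Fintype.card W ^ (m - 1)))) fun a _ => ?_).trans ?_
          · refine (card_biUnion_le_card_mul _ _ (m *
              (Fintype.card W ^ Fintype.card Tb / Fintype.card W ^ (m - 1))) fun t ht => ?_).trans ?_
            · refine (card_biUnion_le_card_mul _ _
                (Fintype.card W ^ Fintype.card Tb / Fintype.card W ^ (m - 1))
                fun j0 _ => hB a t j0 (mem_filter.1 ht).2).trans ?_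
              rw [card_univ, Fintype.card_fin]
            · refine Nat.mul_le_mul_right _ ?_
              refine (card_le_card (filter_subset _ _)).trans ?_
              rw [card_univ, Fintype.card_fun, Fintype.card_fin]
          · refine Nat.mul_le_mul_right _ ?_
            rw [Fintype.card_piFinset]
            simp only [prod_const, card_univ, Fintype.card_fin]
            exact Nat.pow_le_pow_left (hX i) m
      _ = _ := by rw [card_univ]
  have hpos : 0 < Fintype.card W ^ Fintype.card Tb := by positivity
  have h3 : Fintype.card W ^ Fintype.card Tb * Fintype.card W ^ (m - 1) ≤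
      Fintype.card W ^ Fintype.card Tb * (Fintype.card I * Fintype.card Tb ^ m * m * s ^ m) := by
    calc Fintype.card W ^ Fintype.card Tb * Fintype.card W ^ (m - 1)
        ≤ (Fintype.card I * (s ^ m * (Fintype.card Tb ^ m * (m *
          (Fintype.card W ^ Fintype.card Tb / Fintype.card W ^ (m - 1)))))) *
          Fintype.card W ^ (m - 1) := Nat.mul_le_mul_right _ hbound
      _ = (Fintype.card I * Fintype.card Tb ^ m * m * s ^ m) *
          (Fintype.card W ^ Fintype.card Tb / Fintype.card W ^ (m - 1) *
            Fintype.card W ^ (m - 1)) := by ring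
      _ ≤ (Fintype.card I * Fintype.card Tb ^ m * m * s ^ m) *
          Fintype.card W ^ Fintype.card Tb :=
        Nat.mul_le_mul_left _ (Nat.div_mul_le_self _ _)
      _ = _ := by ring
  have h4 : Fintype.card W ^ (m - 1) ≤ Fintype.card I * Fintype.card Tb ^ m * m * s ^ m :=
    Nat.le_of_mul_le_mul_left h3 hpos
  have h5 : Fintype.card W ^ m = Fintype.card W ^ (m - 1) * Fintype.card W := by
    rw [← pow_succ]
    congr 1
    omega
  rw [h5] at hlt
  exact absurd hlt (not_lt.2 (Nat.mul_le_mul_right _ h4))

end Pool.Agent.T2H61.OT
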