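import Pool.Agent.T2H61.OT.Stm

/-!
# Project OT, package FIN: most secrets good gives a contradiction
-/

namespace Pool.Agent.T2H61.OT

open Finset

theorem pFIN (hESC : S_ESC) (hAD1 : S_AD1) (hMSN : S_MSN) (hML : S_ML) (hTXT : S_TXT)
    (hUD : S_UD) : S_FIN := by
  classical
  intro W A Q _ _ _ P _ out L k lam G hL hvis hk hG hlam hU
  obtain ⟨hMf, hMc⟩ := hML (Msg A Q) k
  have hT : ∀ z : P.U → Fin 4, ∃ T, z ∈ G → (P.N ≤ T ∧ ∀ T', T ≤ T' → P.B1 < |P.pos z T'|) := by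
    intro z
    by_cases hz : z ∈ G
    · obtain ⟨T0, hT0⟩ := hESC W A Q P z L (hvis z hz) P.B1
      exact ⟨max T0 P.N, fun _ => ⟨le_max_right _ _, fun T' h => hT0 T' (le_trans (le_max_left _ _) h)⟩⟩
    · exact ⟨0, fun h => absurd h hz⟩
  choose Tz hTz using hT
  let f : (P.U → Fin 4) → List (Msg A Q) := fun z => P.m1 z (Tz z)
  let Gf : Finset (P.U → Fin 4) := univ.filter (fun z => z ∈ G)
  have hGf : G.ncard = Gf.card := by
    rw [← Set.ncard_coe_finset]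
    congr 1
    ext z
    simp [Gf]
  let Mt : Finset (List (Msg A Q)) := hMf.toFinset
  have hMt : Mt.card ≤ (Fintype.card (Msg A Q) + 1) ^ k := by
    rw [← Set.ncard_eq_toFinset_card _ hMf]; exact hMc
  have hmaps : ∀ z ∈ Gf, f z ∈ Mt := by
    intro z hz
    have hz' : z ∈ G := by simpa [Gf] using hz
    rw [Set.Finite.mem_toFinset]
    exact ((hMSN W A Q P z (Tz z) L (fun x => hvis z hz' _ x)).1).trans hk
  have hex : ∃ μ ∈ Mt, 4 ^ Fintype.card P.U ≤ 2 ^ lam * (Gf.filter (fun z => f z = μ)).card := by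
    by_contra hno
    push Not at hno
    have hne : Mt.Nonempty := ⟨[], by
      rw [Set.Finite.mem_toFinset]; simp⟩
    have h1 := Finset.card_eq_sum_card_fiberwise (f := f) (s := Gf) (t := Mt) hmaps
    have h2 : 2 ^ lam * Gf.card < Mt.card * 4 ^ Fintype.card P.U := by
      rw [h1, Finset.mul_sum]
      calc ∑ μ ∈ Mt, 2 ^ lam * (Gf.filter (fun z => f z = μ)).card
          < ∑ _μ ∈ Mt, 4 ^ Fintype.card P.U := Finset.sum_lt_sum_of_nonempty hne hno
        _ = Mt.card * 4 ^ Fintype.card P.U := by rw [Finset.sum_const, smul_eq_mul]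
    rw [hGf] at hG
    have h3 : 2 ^ lam * 4 ^ Fintype.card P.U ≤ 2 * (2 ^ lam * Gf.card) := by
      calc 2 ^ lam * 4 ^ Fintype.card P.U ≤ 2 ^ lam * (2 * Gf.card) := Nat.mul_le_mul_left _ hG
        _ = 2 * (2 ^ lam * Gf.card) := by ring
    have h4 : 2 * (Mt.card * 4 ^ Fintype.card P.U) ≤ 2 ^ lam * 4 ^ Fintype.card P.U := by
      calc 2 * (Mt.card * 4 ^ Fintype.card P.U) = (2 * Mt.card) * 4 ^ Fintype.card P.U := by ring
        _ ≤ 2 ^ lam * 4 ^ Fintype.card P.U := by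
            refine Nat.mul_le_mul_right _ (le_trans ?_ hlam)
            exact Nat.mul_le_mul_left _ hMt
    omega
  obtain ⟨μ, _, hμ⟩ := hex
  obtain ⟨z1, hz1, z2, hz2, e, he⟩ := hUD P.U lam (Gf.filter (fun z => f z = μ)) hU hμ
  rw [Finset.mem_filter] at hz1 hz2
  have g1 : z1 ∈ G := by simpa [Gf] using hz1.1
  have g2 : z2 ∈ G := by simpa [Gf] using hz2.1
  refine hTXT W A Q P out z1 z2 (Tz z1) (Tz z2) e hL (hTz z1 g1).2 (hTz z2 g2).2
    (hESC W A Q P z2 L (hvis z2 g2)) ?_ (hTz z1 g1).1 (hTz z2 g2).1 he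
  exact hz1.2.trans hz2.2.symm

end Pool.Agent.T2H61.OT
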