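import Pool.Agent.T2H61.OT.Stm2

/-!
# Project OT, package FLRN: the family is learnable and satisfies the tell-tale condition
-/

namespace Pool.Agent.T2H61.OT

private theorem flrn_fin (e : List (Option Bool)) : (famL e : Set (List Bool)).Finite := by
  refine Set.Finite.subset (List.finite_length_eq Bool e.length) ?_
  intro x hx
  exact hx.1

/-- the word `x` is the only word of its length missing in `σ` -/
private def flrn_Miss (σ : List (List Bool)) (x : List Bool) : Prop :=
  x.length = (σ.getLastD []).length ∧ x ∉ σ ∧
    ∀ y : List Bool, y.length = (σ.getLastD []).length → y ∉ σ → y = x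

open scoped Classical in
/-- the learner -/
private noncomputable def flrn_f (σ : List (List Bool)) : List (Option Bool) :=
  if (σ.getLastD []).length = 0 then [none]
  else if h : ∃ x, flrn_Miss σ x then h.choose.map some
  else List.replicate (σ.getLastD []).length none

private theorem flrn_mem (σ : List (List Bool)) : flrn_f σ ∈ famI := by
  unfold flrn_f
  split_ifs with h1 h2
  · refine ⟨by simp, Or.inl ?_⟩
    intro b hb
    simpa using hb
  · have h3 := h2.choose_spec
    refine ⟨?_, Or.inr ?_⟩
    · intro h4
      have h5 : h2.choose.length = 0 := by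
        have := congrArg List.length h4
        simpa using this
      exact h1 (h3.1 ▸ h5)
    · intro b hb
      obtain ⟨a, -, rfl⟩ := List.mem_map.1 hb
      simp
  · refine ⟨?_, Or.inl ?_⟩
    · intro h4
      have := congrArg List.length h4
      rw [List.length_replicate] at this
      exact h1 this
    · intro b hb
      exact (List.mem_replicate.1 hb).2

private theorem flrn_last (T : ℕ → List Bool) (k : ℕ) :
    (((List.range (k + 1)).map T).getLastD []) = T k := by
  rw [List.range_succ, List.map_append]
  simp

private theorem flrn_out {e : List (Option Bool)} (he : e ∈ famI) {T : ℕ → List Bool}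
    (hT : IsText T (famL e)) {k : ℕ} (hk : ∀ x ∈ famL e, ∃ j ≤ k, T j = x) :
    flrn_f ((List.range (k + 1)).map T) = e := by
  set σ := (List.range (k + 1)).map T with hσ
  have hmem : ∀ x, x ∈ σ ↔ x ∈ famL e := by
    intro x
    rw [hσ, List.mem_map]
    constructor
    · rintro ⟨j, -, rfl⟩
      have : T j ∈ Set.range T := ⟨j, rfl⟩
      rw [hT] at this
      exact this
    · intro hx
      obtain ⟨j, hj, hjx⟩ := hk x hx
      exact ⟨j, List.mem_range.2 (by omega), hjx⟩
  have hlast : (σ.getLastD []) = T k := flrn_last T k
  have hlen : (σ.getLastD []).length = e.length := by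
    rw [hlast]
    have : T k ∈ Set.range T := ⟨k, rfl⟩
    rw [hT] at this
    exact this.1
  have hne : e.length ≠ 0 := by
    intro h
    exact he.1 (List.length_eq_zero_iff.1 h)
  have hmiss : ∀ x : List Bool, x.length = e.length → (x ∉ σ ↔ x.map some = e) := by
    intro x hx
    rw [hmem]
    constructor
    · intro h
      by_contra h2
      exact h ⟨hx, h2⟩
    · intro h h2
      exact h2.2 h
  unfold flrn_f
  rw [if_neg (by rw [hlen]; exact hne)]
  rcases he.2 with hn | hb
  · -- the index `none ^ n`
    have h1 : ¬ ∃ x, flrn_Miss σ x := by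
      rintro ⟨x, hx1, hx2, -⟩
      rw [hlen] at hx1
      have h2 := (hmiss x hx1).1 hx2
      have h3 : x ≠ [] := by
        intro h
        rw [h] at hx1
        exact hne hx1.symm
      obtain ⟨a, ha⟩ := List.exists_mem_of_ne_nil x h3
      have h4 : some a ∈ e := by
        rw [← h2]
        exact List.mem_map.2 ⟨a, ha, rfl⟩
      have h5 := hn _ h4
      simp at h5
    rw [dif_neg h1, hlen]
    exact (List.eq_replicate_iff.2 ⟨rfl, hn⟩).symm
  · -- a binary index
    have h0 : ∃ w : List Bool, w.map some = e := by
      clear hmiss hmem hlen hT hk hne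
      obtain ⟨hne, -⟩ := he
      clear hne
      induction e with
      | nil => exact ⟨[], rfl⟩
      | cons a e ih =>
        have ha : a ≠ none := hb a (by simp)
        obtain ⟨a', ha'⟩ := Option.ne_none_iff_exists'.1 ha
        obtain ⟨w, hw⟩ := ih (fun b hb' => hb b (by simp [hb']))
        exact ⟨a' :: w, by rw [List.map_cons, hw, ha']⟩
    obtain ⟨w, hw⟩ := h0
    have hwl : w.length = e.length := by
      rw [← hw, List.length_map]
    have h1 : ∃ x, flrn_Miss σ x := by
      refine ⟨w, by rw [hlen]; exact hwl, (hmiss w hwl).2 hw, ?_⟩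
      intro y hy1 hy2
      rw [hlen] at hy1
      have h2 := (hmiss y hy1).1 hy2
      exact List.map_injective_iff.2 (Option.some_injective _) (h2.trans hw.symm)
    rw [dif_pos h1]
    have h3 := h1.choose_spec
    exact (hmiss _ (by rw [← hlen]; exact h3.1)).1 h3.2.1

theorem pFLRN : S_FLRN := by
  classical
  intro Fam hI hL
  constructor
  · refine ⟨flrn_f, ?_⟩
    intro e he T hT
    rw [hI] at he
    rw [hL] at hT
    refine ⟨fun k => ?_, ?_⟩
    · rw [hI]
      exact flrn_mem _
    · have hfin := flrn_fin e
      have h1 : ∀ x ∈ famL e, ∃ j, T j = x := by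
        intro x hx
        have : x ∈ Set.range T := by
          rw [hT]
          exact hx
        exact this
      choose! g hg using h1
      refine ⟨hfin.toFinset.sup g, fun k hk => ?_⟩
      rw [hL]
      show famL (flrn_f ((List.range (k + 1)).map T)) = famL e
      rw [flrn_out he hT]
      intro x hx
      refine ⟨g x, le_trans ?_ hk, hg x hx⟩
      exact Finset.le_sup (f := g) (hfin.mem_toFinset.2 hx)
  · intro e he
    refine ⟨(flrn_fin e).toFinset, ?_, ?_⟩
    · intro x hx
      rw [hL]
      exact (flrn_fin e).mem_toFinset.1 hx
    · rintro ⟨d, -, h1, h2, h3⟩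
      apply h3
      ext x
      constructor
      · exact h2 x
      · intro hx
        rw [hL] at hx
        exact h1 x ((flrn_fin e).mem_toFinset.2 hx)

end Pool.Agent.T2H61.OT
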