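import Pool.Agent.T2H61.OT.Stm2

/-!
# Project OT, package FREG
-/

namespace Pool.Agent.T2H61.OT

private theorem FREG_dfa {α σ : Type} [Fintype σ] (f : List α → σ) (step : σ → α → σ)
    (acc : σ → Prop) (h : ∀ x a, f (x ++ [a]) = step (f x) a) (L : Language α)
    (hL : ∀ x, x ∈ L ↔ acc (f x)) : L.IsRegular := by
  refine ⟨σ, inferInstance, ⟨step, f [], {s | acc s}⟩, ?_⟩
  have hev : ∀ x, (⟨step, f [], {s | acc s}⟩ : DFA α σ).eval x = f x := by
    intro x
    induction x using List.reverseRecOn with
    | nil => rfl
    | append_singleton x a ih =>
      rw [DFA.eval_append_singleton, ih, h]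
  ext x
  rw [DFA.mem_accepts, hev, hL]
  rfl

private theorem FREG_conv (l : List (Option Bool × Bool)) :
    conv (l.map Prod.fst) (l.map Prod.snd) =
      l.map (fun p => ((some p.1, some p.2) : Option (Option Bool) × Option Bool)) := by
  induction l with
  | nil => simp [conv]
  | cons a l ih => simp only [List.map_cons, conv, ih]

private theorem FREG_set (y : List (Option (Option Bool) × Option Bool)) :
    (∃ e ∈ famI, ∃ x ∈ famL e, y = conv e x) ↔
    ∃ l : List (Option Bool × Bool), l ≠ [] ∧
      y = l.map (fun p => ((some p.1, some p.2) : Option (Option Bool) × Option Bool)) ∧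
      ((∀ p ∈ l, p.1 = none) ∨ ((∀ p ∈ l, p.1 ≠ none) ∧ ¬ ∀ p ∈ l, some p.2 = p.1)) := by
  constructor
  · rintro ⟨e, he, x, hx, rfl⟩
    obtain ⟨he1, he2⟩ := he
    obtain ⟨hx1, hx2⟩ := hx
    have hl1 : (e.zip x).map Prod.fst = e := List.map_fst_zip (by omega)
    have hl2 : (e.zip x).map Prod.snd = x := List.map_snd_zip (by omega)
    refine ⟨e.zip x, ?_, ?_, ?_⟩
    · intro h
      rw [h] at hl1
      exact he1 hl1.symm
    · rw [← FREG_conv, hl1, hl2]
    · rcases he2 with h | h
      · left
        intro p hp
        apply h
        rw [← hl1]
        exact List.mem_map_of_mem hp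
      · right
        constructor
        · intro p hp
          apply h
          rw [← hl1]
          exact List.mem_map_of_mem hp
        · intro hall
          apply hx2
          rw [← hl1]
          conv_lhs => rw [← hl2]
          rw [List.map_map]
          apply List.map_congr_left
          intro p hp
          exact hall p hp
  · rintro ⟨l, hl, rfl, h⟩
    refine ⟨l.map Prod.fst, ⟨by simpa using hl, ?_⟩, l.map Prod.snd, ⟨by simp, ?_⟩,
      (FREG_conv l).symm⟩
    · rcases h with h | h
      · left
        intro b hb
        obtain ⟨p, hp, rfl⟩ := List.mem_map.1 hb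
        exact h p hp
      · right
        intro b hb
        obtain ⟨p, hp, rfl⟩ := List.mem_map.1 hb
        exact h.1 p hp
    · intro heq
      rw [List.map_map] at heq
      have hall : ∀ p ∈ l, some p.2 = p.1 := by
        intro p hp
        exact (List.map_inj_left.1 heq) p hp
      rcases h with h | h
      · obtain ⟨p, hp⟩ := List.exists_mem_of_ne_nil l hl
        have h1 := h p hp
        have h2 := hall p hp
        rw [h1] at h2
        exact absurd h2 (by simp)
      · exact h.2 hall

theorem pFREG : S_FREG := by
  constructor
  · refine FREG_dfa (σ := Bool × Bool × Bool)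
      (fun e => (e.isEmpty, e.all (fun b => b.isNone), e.all (fun b => b.isSome)))
      (fun s a => (false, s.2.1 && a.isNone, s.2.2 && a.isSome))
      (fun s => s.1 = false ∧ (s.2.1 = true ∨ s.2.2 = true)) ?_ famI ?_
    · intro x a
      simp
    · intro x
      show (x ≠ [] ∧ ((∀ b ∈ x, b = none) ∨ (∀ b ∈ x, b ≠ none))) ↔ _
      simp only [List.all_eq_true, Option.isNone_iff_eq_none, Option.isSome_iff_ne_none]
      constructor
      · rintro ⟨h1, h2⟩
        exact ⟨by simpa using h1, h2⟩
      · rintro ⟨h1, h2⟩
        exact ⟨by simpa using h1, h2⟩
  · refine FREG_dfa (σ := Bool × Bool × Bool × Bool × Bool)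
      (fun y => (y.isEmpty, y.all (fun p => p.1.isSome && p.2.isSome),
        y.all (fun p => decide (p.1 = some none)), y.all (fun p => decide (p.1 ≠ some none)),
        y.all (fun p => decide (p.1 = p.2.map some))))
      (fun s p => (false, s.2.1 && (p.1.isSome && p.2.isSome),
        s.2.2.1 && decide (p.1 = some none), s.2.2.2.1 && decide (p.1 ≠ some none),
        s.2.2.2.2 && decide (p.1 = p.2.map some)))
      (fun s => s.1 = false ∧ s.2.1 = true ∧ (s.2.2.1 = true ∨
        (s.2.2.2.1 = true ∧ ¬ s.2.2.2.2 = true))) ?_ _ ?_
    · intro x a
      simp
    · intro y
      show (∃ e ∈ famI, ∃ x ∈ famL e, y = conv e x) ↔ _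
      rw [FREG_set]
      simp only [List.all_eq_true, decide_eq_true_eq, Bool.and_eq_true]
      constructor
      · rintro ⟨l, hl, rfl, h⟩
        refine ⟨by simpa using hl, ?_, ?_⟩
        · intro p hp
          obtain ⟨q, hq, rfl⟩ := List.mem_map.1 hp
          exact ⟨rfl, rfl⟩
        · rcases h with h | h
          · left
            intro p hp
            obtain ⟨q, hq, rfl⟩ := List.mem_map.1 hp
            show some q.1 = some none
            rw [h q hq]
          · right
            constructor
            · intro p hp
              obtain ⟨q, hq, rfl⟩ := List.mem_map.1 hp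
              show some q.1 ≠ some none
              intro hh
              exact h.1 q hq (Option.some.inj hh)
            · intro hall
              apply h.2
              intro q hq
              have := hall _ (List.mem_map_of_mem hq)
              have h2 : some q.1 = some (some q.2) := this
              exact (Option.some.inj h2).symm
      · rintro ⟨h1, h2, h3⟩
        have hy : y = (y.map (fun p => (p.1.getD none, p.2.getD false))).map
            (fun p => ((some p.1, some p.2) : Option (Option Bool) × Option Bool)) := by
          rw [List.map_map]
          conv_lhs => rw [← List.map_id y]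
          apply List.map_congr_left
          intro p hp
          obtain ⟨e1, e2⟩ := h2 p hp
          obtain ⟨a, ha⟩ := Option.isSome_iff_exists.1 e1
          obtain ⟨b, hb⟩ := Option.isSome_iff_exists.1 e2
          obtain ⟨p1, p2⟩ := p
          simp only at ha hb
          subst ha hb
          rfl
        refine ⟨y.map (fun p => (p.1.getD none, p.2.getD false)), ?_, hy, ?_⟩
        · intro h
          rw [List.map_eq_nil_iff] at h
          rw [h] at h1
          simp at h1
        · rcases h3 with h3 | h3
          · left
            intro q hq
            obtain ⟨p, hp, rfl⟩ := List.mem_map.1 hq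
            show p.1.getD none = none
            rw [h3 p hp]
            rfl
          · right
            constructor
            · intro q hq
              obtain ⟨p, hp, rfl⟩ := List.mem_map.1 hq
              show p.1.getD none ≠ none
              obtain ⟨e1, e2⟩ := h2 p hp
              obtain ⟨a, ha⟩ := Option.isSome_iff_exists.1 e1
              have h4 := h3.1 p hp
              rw [ha] at h4 ⊢
              intro h5
              apply h4
              show some a = some none
              have h6 : a = none := h5
              rw [h6]
            · intro hall
              apply h3.2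
              intro p hp
              have h4 := hall _ (List.mem_map_of_mem hp)
              have h5 : some (p.2.getD false) = p.1.getD none := h4
              obtain ⟨e1, e2⟩ := h2 p hp
              obtain ⟨a, ha⟩ := Option.isSome_iff_exists.1 e1
              obtain ⟨b, hb⟩ := Option.isSome_iff_exists.1 e2
              rw [ha, hb] at h5 ⊢
              have h6 : some b = a := h5
              rw [← h6]
              rfl

end Pool.Agent.T2H61.OT
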