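import Pool.Agent.T2H61.OT.Stm

/-!
# Project OT, package GF: existence of a good table
-/

namespace Pool.Agent.T2H61.OT

open Finset

theorem pGF (hFG : S_FG) (hHC : S_HC) : S_GF := by
  classical
  intro W A Q _ _ _ _ _ M N K V m s hK hV e he hm hnum
  obtain ⟨hOf, hOc⟩ := hHC A Q m K
  let Wd : Loc K A Q → Hist A Q → Loc K A Q → Set W := fun ℓ o fin =>
    {x | ∃ a : List W, a.length = m ∧ M.Acc ℓ o fin a ∧ x ∈ a}
  let I : Type := {x : Loc K A Q × {o // o ∈ hOf.toFinset} × Loc K A Q //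
    (Wd x.1 x.2.1.1 x.2.2).ncard ≤ s}
  let R : I → (Fin m → W) → Prop := fun i a => M.Acc i.1.1 i.1.2.1.1 i.1.2.2 (List.ofFn a)
  have hIc : Fintype.card I ≤ Fintype.card (Loc K A Q) *
      (2 ^ m * (Fintype.card (Msg A Q) * Fintype.card (Msg A Q)) ^ K)
      * Fintype.card (Loc K A Q) := by
    have e2 : hOf.toFinset.card ≤
        2 ^ m * (Fintype.card (Msg A Q) * Fintype.card (Msg A Q)) ^ K := by
      rw [← Set.ncard_eq_toFinset_card _ hOf]; exact hOc
    have e1 : Fintype.card I ≤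
        Fintype.card (Loc K A Q × {o // o ∈ hOf.toFinset} × Loc K A Q) :=
      Fintype.card_subtype_le _
    have e3 : Fintype.card (Loc K A Q × {o // o ∈ hOf.toFinset} × Loc K A Q) =
        Fintype.card (Loc K A Q) * hOf.toFinset.card * Fintype.card (Loc K A Q) := by
      rw [Fintype.card_prod (Loc K A Q), Fintype.card_prod {o // o ∈ hOf.toFinset},
        Fintype.card_coe, mul_assoc]
    rw [e3] at e1
    exact e1.trans (Nat.mul_le_mul_right _ (Nat.mul_le_mul_left _ e2))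
  have hTb : Fintype.card (Fin K × Fin V) = K * V := by
    rw [Fintype.card_prod, Fintype.card_fin, Fintype.card_fin]
  have h1 : ∀ i : I, {x : W | ∃ a, R i a ∧ ∃ j, a j = x}.ncard ≤ s := by
    intro i
    refine (Set.ncard_le_ncard ?_ (Set.toFinite _)).trans i.2
    rintro x ⟨a, ha, j, rfl⟩
    exact ⟨List.ofFn a, List.length_ofFn, ha, (List.mem_ofFn' a _).2 ⟨j, rfl⟩⟩
  have h2 : Fintype.card I * Fintype.card (Fin K × Fin V) ^ m * m * s ^ m * Fintype.card W
      < Fintype.card W ^ m := by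
    refine lt_of_le_of_lt ?_ hnum
    rw [hTb]
    exact Nat.mul_le_mul_right _ (Nat.mul_le_mul_right _ (Nat.mul_le_mul_right _
      (Nat.mul_le_mul_right _ hIc)))
  obtain ⟨F, hF⟩ := hFG W (Fin K × Fin V) I m s R hm h1 h2
  refine ⟨F, ?_⟩
  intro ℓ o fin ho1 ho2 hcard a ha hacc t ht
  let i : I := ⟨(ℓ, ⟨o, hOf.mem_toFinset.2 ⟨ho1, ho2⟩⟩, fin), hcard⟩
  subst ha
  have hR : R i (fun j => a.get j) := by
    change M.Acc ℓ o fin (List.ofFn (fun j => a.get j))
    rw [List.ofFn_get]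
    exact hacc
  obtain ⟨j, j', hjj, hj, hj'⟩ := hF i (fun j => a.get j) hR (fun j => t j)
    (fun x y hxy => Fin.ext (ht x y x.2 y.2 hxy))
  refine ⟨j, j', j.2, j'.2, fun h => hjj (Fin.ext h), ?_, ?_⟩
  · intro h
    apply hj
    rw [List.getElem?_eq_getElem j.2] at h
    exact Option.some.inj h
  · intro h
    apply hj'
    rw [List.getElem?_eq_getElem j'.2] at h
    exact Option.some.inj h

end Pool.Agent.T2H61.OT
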