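import Pool.Agent.T2H61.OT.Stm

/-! # Package HC (helper74): number of histories -/

set_option autoImplicit false

namespace Pool.Agent.T2H61.OT

open Finset

private theorem hc_zero (A Q : Type) (k : ℕ) :
    {o : Hist A Q | o.length = 0 ∧ exc o < k} ⊆ {[]} := by
  rintro o ⟨h, -⟩
  exact List.length_eq_zero_iff.1 h

private theorem hc_k0 (A Q : Type) (m : ℕ) : {o : Hist A Q | o.length = m ∧ exc o < 0} = ∅ := by
  ext o; simp

private theorem hc_succ (A Q : Type) (m k : ℕ) :
    {o : Hist A Q | o.length = m + 1 ∧ exc o < k + 1} ⊆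
      (fun o => none :: o) '' {o : Hist A Q | o.length = m ∧ exc o < k + 1} ∪
      (fun p : (Msg A Q × Msg A Q) × Hist A Q => some p.1 :: p.2) ''
        (Set.univ ×ˢ {o : Hist A Q | o.length = m ∧ exc o < k}) := by
  rintro o ⟨h1, h2⟩
  match o, h1, h2 with
  | [], h1, _ => simp at h1
  | none :: o, h1, h2 =>
    left
    refine ⟨o, ⟨by simpa using h1, ?_⟩, rfl⟩
    simpa [exc] using h2
  | some x :: o, h1, h2 =>
    right
    refine ⟨(x, o), ⟨Set.mem_univ _, by simpa using h1, ?_⟩, rfl⟩
    have : exc o + 1 < k + 1 := by simpa [exc] using h2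
    change exc o < k
    omega

theorem pHC : S_HC := by
  classical
  intro A Q _ _ _ _ m
  have hc : 1 ≤ Fintype.card (Msg A Q) * Fintype.card (Msg A Q) :=
    Nat.mul_pos Fintype.card_pos Fintype.card_pos
  induction m with
  | zero =>
    intro k
    have hf : ({[]} : Set (Hist A Q)).Finite := Set.finite_singleton _
    refine ⟨hf.subset (hc_zero A Q k), ?_⟩
    refine (Set.ncard_le_ncard (hc_zero A Q k) hf).trans ?_
    rw [Set.ncard_singleton, pow_zero, one_mul]
    exact Nat.one_le_pow _ _ hc
  | succ m ih =>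
    intro k
    cases k with
    | zero =>
      rw [hc_k0]
      exact ⟨Set.finite_empty, by simp⟩
    | succ k =>
      obtain ⟨f1, n1⟩ := ih (k + 1)
      obtain ⟨f2, n2⟩ := ih k
      have f3 : ((Set.univ : Set (Msg A Q × Msg A Q)) ×ˢ
          {o : Hist A Q | o.length = m ∧ exc o < k}).Finite := Set.finite_univ.prod f2
      have hfin := (f1.image (fun o => none :: o)).union
        (f3.image (fun p : (Msg A Q × Msg A Q) × Hist A Q => some p.1 :: p.2))
      refine ⟨hfin.subset (hc_succ A Q m k), ?_⟩
      refine (Set.ncard_le_ncard (hc_succ A Q m k) hfin).trans ?_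
      refine (Set.ncard_union_le _ _).trans ?_
      have e1 := Set.ncard_image_le (f := fun o : Hist A Q => none :: o) f1
      have e2 := Set.ncard_image_le
        (f := fun p : (Msg A Q × Msg A Q) × Hist A Q => some p.1 :: p.2) f3
      rw [Set.ncard_prod, Set.ncard_univ, Nat.card_eq_fintype_card, Fintype.card_prod] at e2
      calc _ ≤ 2 ^ m * (Fintype.card (Msg A Q) * Fintype.card (Msg A Q)) ^ (k + 1) +
            Fintype.card (Msg A Q) * Fintype.card (Msg A Q) *
              (2 ^ m * (Fintype.card (Msg A Q) * Fintype.card (Msg A Q)) ^ k) :=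
            Nat.add_le_add (e1.trans n1) (e2.trans (Nat.mul_le_mul_left _ n2))
        _ = 2 ^ (m + 1) * (Fintype.card (Msg A Q) * Fintype.card (Msg A Q)) ^ (k + 1) := by
            rw [pow_succ, pow_succ]; ring

end Pool.Agent.T2H61.OT
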