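import Pool.Agent.T2H61.OT.Stm

namespace Pool.Agent.T2H61.OT

variable {W A Q : Type}

theorem LOC_idx (K : ℕ) (p g : ℤ) (h1 : p - 1 ≤ g) (h2 : g ≤ p + K) :
    ((Fin.ofNat (K + 2) (g - (p - 1)).toNat : Fin (K + 2)) : ℕ) = (g - (p - 1)).toNat := by
  rw [Fin.val_ofNat]
  apply Nat.mod_eq_of_lt
  omega

theorem LOC_unres_f (M : FM W A Q) (K : ℕ) (p : ℤ) (c : Conf A Q) (i : ℤ) (h1 : 0 ≤ i)
    (h2 : i ≤ K + 1) : (M.unres (res K p c)).f i = c.f (p - 1 + i) := by
  simp only [FM.unres, res]
  rw [dif_pos (by omega), if_pos h1]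
  congr 1
  omega

theorem pLOC : S_LOC := by
  intro W A Q M K p c w hK
  refine ⟨?_, ?_, ?_, ?_⟩
  · intro hc
    have h1 := hc.1
    have h2 := hc.2
    have hg : (M.unres (res K p c)).g = c.g - (p - 1) := by
      simp only [FM.unres, res]
      rw [LOC_idx K p c.g (by omega) (by omega)]
      omega
    have hq : (M.unres (res K p c)).q = c.q := rfl
    have f1 : (M.unres (res K p c)).f (c.g - (p - 1) - 1) = c.f (c.g - 1) := by
      rw [LOC_unres_f M K p c _ (by omega) (by omega)]
      congr 1; omega
    have f2 : (M.unres (res K p c)).f (c.g - (p - 1)) = c.f c.g := by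
      rw [LOC_unres_f M K p c _ (by omega) (by omega)]
      congr 1; omega
    have f3 : (M.unres (res K p c)).f (c.g - (p - 1) + 1) = c.f (c.g + 1) := by
      rw [LOC_unres_f M K p c _ (by omega) (by omega)]
      congr 1; omega
    constructor
    · unfold FM.lstep
      simp only [res, FM.step, Prod.mk.injEq]
      rw [show (M.unres (c.q, fun i : Fin (K + 2) => c.f (p - 1 + ((i : ℕ) : ℤ)),
        Fin.ofNat (K + 2) (c.g - (p - 1)).toNat)) = M.unres (res K p c) from rfl]
      rw [hq, hg, f1, f2, f3]
      refine ⟨rfl, ?_, ?_⟩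
      · funext i
        simp only [upd3]
        have hi := i.2
        by_cases i1 : 1 - 1 + ((i : ℕ) : ℤ) = c.g - (p - 1) - 1
        · rw [if_pos i1, if_pos (by omega)]
        by_cases i2 : 1 - 1 + ((i : ℕ) : ℤ) = c.g - (p - 1)
        · rw [if_neg i1, if_pos i2, if_neg (by omega), if_pos (by omega)]
        by_cases i3 : 1 - 1 + ((i : ℕ) : ℤ) = c.g - (p - 1) + 1
        · rw [if_neg i1, if_neg i2, if_pos i3, if_neg (by omega), if_neg (by omega),
            if_pos (by omega)]
        rw [if_neg i1, if_neg i2, if_neg i3, if_neg (by omega), if_neg (by omega),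
            if_neg (by omega)]
        rw [LOC_unres_f M K p c _ (by omega) (by omega)]
        congr 1; omega
      · congr 1
        omega
    · intro i hi
      simp only [FM.step, upd3]
      rw [if_neg (by omega), if_neg (by omega), if_neg (by omega)]
  · intro h1 h2
    have hidx := LOC_idx K p c.g h1 h2
    constructor
    · unfold Inside inI
      simp only [res]
      rw [hidx]
      constructor
      · intro h; omega
      · intro h; omega
    · unfold lmsg msg
      simp only [res]
      have e0 : ((Fin.ofNat (K + 2) 0 : Fin (K + 2)) : ℕ) = 0 := by simp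
      have e1 : ((Fin.ofNat (K + 2) 1 : Fin (K + 2)) : ℕ) = 1 := by
        rw [Fin.val_ofNat]; apply Nat.mod_eq_of_lt; omega
      have eK : ((Fin.ofNat (K + 2) K : Fin (K + 2)) : ℕ) = K := by
        rw [Fin.val_ofNat]; apply Nat.mod_eq_of_lt; omega
      have eK1 : ((Fin.ofNat (K + 2) (K + 1) : Fin (K + 2)) : ℕ) = K + 1 := by
        rw [Fin.val_ofNat]; apply Nat.mod_eq_of_lt; omega
      rw [e0, e1, eK, eK1]
      simp only [Prod.mk.injEq, true_and]
      refine ⟨?_, ?_, ?_, ?_, ?_⟩
      · apply decide_eq_decide.2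
        rw [hidx]
        constructor <;> intro h <;> omega
      · congr 1; push_cast; ring
      · congr 1; push_cast; ring
      · congr 1; push_cast; ring
      · congr 1; push_cast; ring
  · intro c' hg hcore
    unfold merge msg
    simp only [res, Prod.mk.injEq, true_and]
    constructor
    · funext j
      have hj := j.2
      by_cases j0 : (j : ℕ) = 0
      · rw [if_pos j0, j0]; congr 1; push_cast; ring
      by_cases j1 : (j : ℕ) = 1
      · rw [if_neg j0, if_pos j1, j1]; congr 1; push_cast; ring
      by_cases j2 : (j : ℕ) = K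
      · rw [if_neg j0, if_neg j1, if_pos j2, j2]; congr 1; ring
      by_cases j3 : (j : ℕ) = K + 1
      · rw [if_neg j0, if_neg j1, if_neg j2, if_pos j3, j3]; congr 1; push_cast; ring
      rw [if_neg j0, if_neg j1, if_neg j2, if_neg j3]
      exact (hcore _ (by omega) (by omega)).symm
    · rcases hg with hg | hg
      · rw [hg]
        simp
      · rw [hg, if_neg (by simp; omega)]
        congr 1
        omega
  · intro c' h1 h2 h3 h4 h
    simp only [res, Prod.mk.injEq] at h
    obtain ⟨hq, hf, hg⟩ := h
    have hg' := congrArg Fin.val hg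
    rw [LOC_idx K p c.g h1 h2, LOC_idx K p c'.g h3 h4] at hg'
    refine ⟨hq, by omega, ?_⟩
    intro i hi1 hi2
    have := congrFun hf ⟨(i - (p - 1)).toNat, by omega⟩
    simp only at this
    have e : p - 1 + (((i - (p - 1)).toNat : ℕ) : ℤ) = i := by omega
    rw [e] at this
    exact this

end Pool.Agent.T2H61.OT
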