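import Pool.Agent.T2H61.OT.Stm

/-!
# Package LT: bound for the local time
-/

namespace Pool.Agent.T2H61.OT

open Finset

/-- at time `s` the point is in the window of length `K` at `p` -/
private abbrev ltIn (g : ℕ → ℤ) (K : ℕ) (p : ℤ) (s : ℕ) : Prop := p ≤ g s ∧ g s ≤ p + (K : ℕ) - 1

private lemma lt_card_split (P : ℕ → Prop) [DecidablePred P] {a b c : ℕ} (h1 : a ≤ b)
    (h2 : b ≤ c) : ((Ico a c).filter P).card = ((Ico a b).filter P).card
      + ((Ico b c).filter P).card := by
  rw [Finset.card_filter, Finset.card_filter, Finset.card_filter,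
    Finset.sum_Ico_consecutive _ h1 h2]

private lemma lt_part1 (g : ℕ → ℤ) (C N T : ℕ) (hC : 1 ≤ C) (p : ℤ)
    (H : ∀ (a a' : ℕ), N ≤ a → a < a' → a' ≤ T → ltIn g (4 * C) p a →
    ltIn g (4 * C) p (a' - 1) →
    ((Ico a a').filter (fun s => ltIn g (4 * C) p s)).card = C * (4 * C) →
    4 * C ≤ ((Ico a a').filter (fun s => s + 1 < a' ∧ ¬ ltIn g (4 * C) p s ∧
      ltIn g (4 * C) p (s + 1))).card) :
    ∀ d a, T - a ≤ d → N ≤ a → a ≤ T →
      ((Ico a T).filter (fun s => ltIn g (4 * C) p s)).card ≤ C * (4 * C) +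
      C * ((Ico a T).filter (fun s => s + 1 < T ∧ ¬ ltIn g (4 * C) p s ∧
        ltIn g (4 * C) p (s + 1))).card := by
  intro d
  induction d with
  | zero =>
    intro a h1 h2 h3
    have : a = T := by omega
    subst this
    simp
  | succ d ih =>
    intro a h1 h2 h3
    rcases Nat.lt_or_ge (C * (4 * C)) ((Ico a T).filter (fun s => ltIn g (4 * C) p s)).card
      with hlt | hge
    swap
    · omega
    have haT : a < T := by
      rcases Nat.lt_or_ge a T with h | h
      · exact h
      · exfalso
        rw [Finset.Ico_eq_empty (by omega)] at hlt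
        simp at hlt
    by_cases hain : ltIn g (4 * C) p a
    · -- find the end of the window
      have hex : ∃ b, C * (4 * C) ≤ ((Ico a b).filter (fun s => ltIn g (4 * C) p s)).card :=
        ⟨T, hlt.le⟩
      classical
      set b := Nat.find hex with hb
      have hb1 : C * (4 * C) ≤ ((Ico a b).filter (fun s => ltIn g (4 * C) p s)).card :=
        Nat.find_spec hex
      have hbT : b ≤ T := Nat.find_min' hex hlt.le
      have hpos : 0 < C * (4 * C) := by positivity
      have hab : a < b := by
        rcases Nat.lt_or_ge a b with h | h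
        · exact h
        · exfalso
          rw [Finset.Ico_eq_empty (by omega)] at hb1
          simp at hb1
          omega
      have hmin : ¬ C * (4 * C) ≤ ((Ico a (b - 1)).filter (fun s => ltIn g (4 * C) p s)).card :=
        Nat.find_min hex (by omega)
      have hsp := lt_card_split (fun s => ltIn g (4 * C) p s) (a := a) (b := b - 1) (c := b)
        (by omega) (by omega)
      have hIco : Ico (b - 1) b = {b - 1} := by
        have e : b = (b - 1) + 1 := by omega
        rw [e]
        simp
      rw [hIco, Finset.filter_singleton] at hsp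
      have hbin : ltIn g (4 * C) p (b - 1) := by
        by_contra hno
        rw [if_neg hno] at hsp
        simp only [card_empty, add_zero] at hsp
        omega
      rw [if_pos hbin, Finset.card_singleton] at hsp
      have hbc : ((Ico a b).filter (fun s => ltIn g (4 * C) p s)).card = C * (4 * C) := by omega
      have hK := H a b h2 hab hbT hain hbin hbc
      have ih' := ih b (by omega) (by omega) hbT
      have s1 := lt_card_split (fun s => ltIn g (4 * C) p s) hab.le hbT
      have s2 := lt_card_split (fun s => s + 1 < T ∧ ¬ ltIn g (4 * C) p s ∧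
        ltIn g (4 * C) p (s + 1)) hab.le hbT
      have s3 : ((Ico a b).filter (fun s => s + 1 < b ∧ ¬ ltIn g (4 * C) p s ∧
          ltIn g (4 * C) p (s + 1))).card ≤ ((Ico a b).filter (fun s => s + 1 < T ∧
          ¬ ltIn g (4 * C) p s ∧ ltIn g (4 * C) p (s + 1))).card := by
        apply Finset.card_le_card
        intro s hs
        rw [Finset.mem_filter] at hs ⊢
        exact ⟨hs.1, by omega, hs.2.2⟩
      rw [s1, s2, hbc]
      have s4 : C * (4 * C) ≤ C * ((Ico a b).filter (fun s => s + 1 < T ∧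
          ¬ ltIn g (4 * C) p s ∧ ltIn g (4 * C) p (s + 1))).card :=
        Nat.mul_le_mul_left _ (hK.trans s3)
      rw [mul_add]
      omega
    · have ih' := ih (a + 1) (by omega) (by omega) (by omega)
      have s1 := lt_card_split (fun s => ltIn g (4 * C) p s) (a := a) (b := a + 1) (c := T)
        (by omega) (by omega)
      have s2 := lt_card_split (fun s => s + 1 < T ∧ ¬ ltIn g (4 * C) p s ∧
        ltIn g (4 * C) p (s + 1)) (a := a) (b := a + 1) (c := T) (by omega) (by omega)
      have hIco : Ico a (a + 1) = {a} := by simp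
      rw [hIco, Finset.filter_singleton, if_neg hain, Finset.card_empty, zero_add] at s1
      rw [s1, s2, mul_add]
      omega

private lemma lt_part2 (g : ℕ → ℤ) (C N T : ℕ) (hC : 1 ≤ C) (hg : ∀ s, |g (s + 1) - g s| ≤ 1)
    (H : ∀ (p : ℤ), ((Ico N T).filter (fun s => ltIn g (4 * C) p s)).card ≤ C * (4 * C) +
      C * ((Ico N T).filter (fun s => s + 1 < T ∧ ¬ ltIn g (4 * C) p s ∧
        ltIn g (4 * C) p (s + 1))).card) (A B : ℤ) (hAB : A ≤ B) :
    4 * ((Ico N T).filter (fun s => A + 4 * C - 1 ≤ g s ∧ g s < B)).card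
      ≤ 4 * C * (B - A).toNat
        + ((Ico N T).filter (fun s => A ≤ g s ∧ g s < B + 4 * C - 1)).card := by
  -- sum over `p`
  have hsum : ∑ p ∈ Ico A B, ((Ico N T).filter (fun s => ltIn g (4 * C) p s)).card
      ≤ ∑ p ∈ Ico A B, (C * (4 * C) +
      C * ((Ico N T).filter (fun s => s + 1 < T ∧ ¬ ltIn g (4 * C) p s ∧
        ltIn g (4 * C) p (s + 1))).card) := Finset.sum_le_sum (fun p _ => H p)
  rw [Finset.sum_add_distrib, Finset.sum_const, smul_eq_mul, Int.card_Ico, ← Finset.mul_sum]
    at hsum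
  -- left side
  have hL : 4 * C * ((Ico N T).filter (fun s => A + 4 * C - 1 ≤ g s ∧ g s < B)).card
      ≤ ∑ p ∈ Ico A B, ((Ico N T).filter (fun s => ltIn g (4 * C) p s)).card := by
    have e : ∑ p ∈ Ico A B, ((Ico N T).filter (fun s => ltIn g (4 * C) p s)).card
        = ∑ s ∈ Ico N T, ((Ico A B).filter (fun p => ltIn g (4 * C) p s)).card := by
      simp only [Finset.card_filter]
      exact Finset.sum_comm
    rw [e]
    have e2 : ∑ s ∈ (Ico N T).filter (fun s => A + 4 * C - 1 ≤ g s ∧ g s < B), 4 * C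
        ≤ ∑ s ∈ (Ico N T).filter (fun s => A + 4 * C - 1 ≤ g s ∧ g s < B),
          ((Ico A B).filter (fun p => ltIn g (4 * C) p s)).card := by
      apply Finset.sum_le_sum
      intro s hs
      rw [Finset.mem_filter] at hs
      have hsub : Ico (g s - (4 * C : ℕ) + 1) (g s + 1)
          ⊆ (Ico A B).filter (fun p => ltIn g (4 * C) p s) := by
        intro p hp
        rw [Finset.mem_Ico] at hp
        rw [Finset.mem_filter, Finset.mem_Ico]
        have h1 := hs.2.1
        have h2 := hs.2.2
        refine ⟨⟨?_, ?_⟩, ?_, ?_⟩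
        · push_cast at hp ⊢
          omega
        · omega
        · omega
        · push_cast at hp ⊢
          omega
      have h3 := Finset.card_le_card hsub
      rw [Int.card_Ico] at h3
      have h4 : (g s + 1 - (g s - (4 * C : ℕ) + 1)).toNat = 4 * C := by
        have : g s + 1 - (g s - (4 * C : ℕ) + 1) = ((4 * C : ℕ) : ℤ) := by ring
        rw [this, Int.toNat_natCast]
      rw [h4] at h3
      exact h3
    rw [Finset.sum_const, smul_eq_mul] at e2
    calc 4 * C * ((Ico N T).filter (fun s => A + 4 * C - 1 ≤ g s ∧ g s < B)).card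
        = ((Ico N T).filter (fun s => A + 4 * C - 1 ≤ g s ∧ g s < B)).card * (4 * C) := by ring
      _ ≤ _ := e2
      _ ≤ _ := Finset.sum_le_sum_of_subset (Finset.filter_subset _ _)
  -- right side
  have hR : ∑ p ∈ Ico A B, ((Ico N T).filter (fun s => s + 1 < T ∧ ¬ ltIn g (4 * C) p s ∧
      ltIn g (4 * C) p (s + 1))).card
      ≤ ((Ico N T).filter (fun s => A ≤ g s ∧ g s < B + 4 * C - 1)).card := by
    have e : ∑ p ∈ Ico A B, ((Ico N T).filter (fun s => s + 1 < T ∧ ¬ ltIn g (4 * C) p s ∧
        ltIn g (4 * C) p (s + 1))).card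
        = ∑ s ∈ Ico N T, ((Ico A B).filter (fun p => s + 1 < T ∧ ¬ ltIn g (4 * C) p s ∧
        ltIn g (4 * C) p (s + 1))).card := by
      simp only [Finset.card_filter]
      exact Finset.sum_comm
    rw [e]
    have e2 : ∀ s ∈ Ico N T, ((Ico A B).filter (fun p => s + 1 < T ∧ ¬ ltIn g (4 * C) p s ∧
        ltIn g (4 * C) p (s + 1))).card
        ≤ if (s + 1 < T ∧ A ≤ g (s + 1) ∧ g (s + 1) < B + 4 * C - 1) then 1 else 0 := by
      intro s _
      have hgs := abs_le.mp (hg s)
      split_ifs with hc
      · rw [Finset.card_le_one]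
        intro p hp p' hp'
        rw [Finset.mem_filter] at hp hp'
        obtain ⟨-, -, h1, h2, h3⟩ := hp
        obtain ⟨-, -, h1', h2', h3'⟩ := hp'
        push_cast at h1 h3 h1' h3'
        rw [not_and_or] at h1 h1'
        omega
      · rw [Nat.le_zero, Finset.card_eq_zero, Finset.filter_eq_empty_iff]
        intro p hp hh
        rw [Finset.mem_Ico] at hp
        apply hc
        obtain ⟨h0, h1, h2, h3⟩ := hh
        push_cast at h1 h3
        refine ⟨h0, ?_, ?_⟩
        · omega
        · omega
    calc ∑ s ∈ Ico N T, ((Ico A B).filter (fun p => s + 1 < T ∧ ¬ ltIn g (4 * C) p s ∧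
        ltIn g (4 * C) p (s + 1))).card
        ≤ ∑ s ∈ Ico N T, (if (s + 1 < T ∧ A ≤ g (s + 1) ∧ g (s + 1) < B + 4 * C - 1)
            then 1 else 0) := Finset.sum_le_sum e2
      _ = ((Ico N T).filter (fun s => s + 1 < T ∧ A ≤ g (s + 1) ∧
            g (s + 1) < B + 4 * C - 1)).card := by rw [Finset.card_filter]
      _ ≤ _ := by
          apply Finset.card_le_card_of_injOn (fun s => s + 1)
          · intro s hs
            rw [Finset.mem_coe, Finset.mem_filter, Finset.mem_Ico] at hs
            rw [Finset.mem_coe, Finset.mem_filter, Finset.mem_Ico]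
            have h0 : N ≤ s + 1 := by omega
            exact ⟨⟨h0, hs.2.1⟩, hs.2.2⟩
          · intro s _ s' _ h
            simpa using h
  have hfin : C * (4 * ((Ico N T).filter (fun s => A + 4 * C - 1 ≤ g s ∧ g s < B)).card)
      ≤ C * (4 * C * (B - A).toNat
        + ((Ico N T).filter (fun s => A ≤ g s ∧ g s < B + 4 * C - 1)).card) := by
    have hR' := Nat.mul_le_mul_left C hR
    calc C * (4 * ((Ico N T).filter (fun s => A + 4 * C - 1 ≤ g s ∧ g s < B)).card)
        = 4 * C * ((Ico N T).filter (fun s => A + 4 * C - 1 ≤ g s ∧ g s < B)).card := by ring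
      _ ≤ _ := hL
      _ ≤ _ := hsum
      _ ≤ (B - A).toNat * (C * (4 * C)) + C * ((Ico N T).filter (fun s => A ≤ g s ∧
            g s < B + 4 * C - 1)).card := Nat.add_le_add_left hR' _
      _ = _ := by ring
  exact Nat.le_of_mul_le_mul_left hfin (by omega)

theorem pLT : S_LT := by
  intro g C N T hC hg H x
  have h1 : ∀ p : ℤ, ((Ico N T).filter (fun s => ltIn g (4 * C) p s)).card ≤ C * (4 * C) +
      C * ((Ico N T).filter (fun s => s + 1 < T ∧ ¬ ltIn g (4 * C) p s ∧
        ltIn g (4 * C) p (s + 1))).card := by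
    intro p
    rcases Nat.lt_or_ge N T with hNT | hNT
    · apply lt_part1 g C N T hC p _ (T - N) N le_rfl le_rfl hNT.le
      intro a a' k1 k2 k3 k4 k5 k6
      exact H p a a' k1 k2 k3 k4.1 k4.2 k5.1 k5.2 k6
    · rw [Finset.Ico_eq_empty (by omega)]
      simp
  have h2 := fun A B hAB => lt_part2 g C N T hC hg h1 A B hAB
  set h : ℕ → ℕ := fun j =>
    ((Ico N T).filter (fun s => x - j * (4 * C) ≤ g s ∧ g s < x + j * (4 * C) + 1)).card with hh
  have h3 : ∀ j, 4 * h j ≤ 4 * C * ((2 * j + 1) * (4 * C)) + h (j + 1) := by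
    intro j
    have hj : (0 : ℤ) ≤ j * (4 * C) := by positivity
    have h4 := h2 (x - (j + 1) * (4 * C) + 1) (x + j * (4 * C) + 1) (by
      have : (0 : ℤ) ≤ (j + 1) * (4 * C) := by positivity
      linarith)
    have e1 : x - ((j : ℤ) + 1) * (4 * C) + 1 + 4 * C - 1 = x - j * (4 * C) := by ring
    have e2 : (x + (j : ℤ) * (4 * C) + 1 - (x - ((j : ℤ) + 1) * (4 * C) + 1)).toNat
        = (2 * j + 1) * (4 * C) := by
      have : x + (j : ℤ) * (4 * C) + 1 - (x - ((j : ℤ) + 1) * (4 * C) + 1)
          = (((2 * j + 1) * (4 * C) : ℕ) : ℤ) := by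
        push_cast
        ring
      rw [this, Int.toNat_natCast]
    rw [e1, e2] at h4
    have h5 : ((Ico N T).filter (fun s => x - ((j : ℤ) + 1) * (4 * C) + 1 ≤ g s ∧
        g s < x + (j : ℤ) * (4 * C) + 1 + 4 * C - 1)).card ≤ h (j + 1) := by
      apply Finset.card_le_card
      intro s hs
      rw [Finset.mem_filter] at hs ⊢
      refine ⟨hs.1, ?_, ?_⟩
      · push_cast
        linarith [hs.2.1]
      · push_cast
        linarith [hs.2.2]
    calc 4 * h j ≤ _ := h4
      _ ≤ _ := Nat.add_le_add_left h5 _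
  have h4 : ∀ j, h j ≤ T := by
    intro j
    calc h j ≤ (Ico N T).card := Finset.card_filter_le _ _
      _ = T - N := Nat.card_Ico _ _
      _ ≤ T := Nat.sub_le _ _
  have h5 : ∀ i j, 4 ^ i * h j ≤ 4 ^ i * (3 * (4 * C) * C * (j + 1)) + T := by
    intro i
    induction i with
    | zero =>
      intro j
      rw [pow_zero, one_mul, one_mul]
      exact (h4 j).trans (Nat.le_add_left _ _)
    | succ i ih =>
      intro j
      have k1 := h3 j
      have k2 := ih (j + 1)
      calc 4 ^ (i + 1) * h j = 4 ^ i * (4 * h j) := by ring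
        _ ≤ 4 ^ i * (4 * C * ((2 * j + 1) * (4 * C)) + h (j + 1)) := Nat.mul_le_mul_left _ k1
        _ = 4 ^ i * (4 * C * ((2 * j + 1) * (4 * C))) + 4 ^ i * h (j + 1) := by ring
        _ ≤ 4 ^ i * (4 * C * ((2 * j + 1) * (4 * C)))
            + (4 ^ i * (3 * (4 * C) * C * (j + 1 + 1)) + T) := Nat.add_le_add_left k2 _
        _ = 4 ^ i * (C * C * (4 * (4 * (2 * j + 1)) + 3 * 4 * (j + 1 + 1))) + T := by ring
        _ ≤ 4 ^ i * (C * C * (4 * (3 * 4 * (j + 1)))) + T := by
            apply Nat.add_le_add_right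
            apply Nat.mul_le_mul_left
            apply Nat.mul_le_mul_left
            omega
        _ = 4 ^ (i + 1) * (3 * (4 * C) * C * (j + 1)) + T := by ring
  have h6 := h5 T 0
  have h7 : T < 4 ^ T := Nat.lt_pow_self (by norm_num)
  have h8 : h 0 ≤ 3 * (4 * C) * C * (0 + 1) := by
    by_contra hno
    push Not at hno
    have h9 : 4 ^ T * (3 * (4 * C) * C * (0 + 1) + 1) ≤ 4 ^ T * h 0 :=
      Nat.mul_le_mul_left _ hno
    rw [mul_add, mul_one] at h9
    omega
  have h9 : ((Ico N T).filter (fun s => g s = x)).card ≤ h 0 := by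
    apply Finset.card_le_card
    intro s hs
    rw [Finset.mem_filter] at hs ⊢
    refine ⟨hs.1, ?_, ?_⟩
    · rw [hs.2]
      simp
    · rw [hs.2]
      simp
  have h10 : 3 * (4 * C) * C * (0 + 1) ≤ (4 * C) ^ 2 := by
    have : 3 * (4 * C) * C * (0 + 1) = 12 * (C * C) := by ring
    rw [this]
    have : (4 * C) ^ 2 = 16 * (C * C) := by ring
    rw [this]
    exact Nat.mul_le_mul_right _ (by norm_num)
  omega

end Pool.Agent.T2H61.OT
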