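import Pool.Agent.T2H61.OT.Stm

namespace Pool.Agent.T2H61.OT

open Finset

theorem pMC (hLT : S_LT) (hMSN : S_MSN) (hAD1 : S_AD1) (hWL1 : S_WL1) (hWL2 : S_WL2) : S_MC := by
  intro W A Q _ P out z C m s k hL hne hC hK hm hV hk hGF hGZ T
  obtain ⟨_, _, _, hstep, _, hmono, _⟩ := hAD1 W A Q P z
  have hmon : ∀ x, Monotone (fun t => P.vis z t x) := fun x => monotone_nat_of_le_succ
    (fun t => hmono t x)
  induction T with
  | zero =>
    intro x
    simp [Par.vis]
  | succ T ih =>
    have h1 : ∀ x, P.vis z (T + 1) x ≤ P.K ^ 2 + 1 := by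
      intro x
      have h2 : P.vis z (T + 1) x ≤ P.vis z T x + 1 := by
        unfold Par.vis
        have hsub : (Ico P.N (T + 1)).filter (fun s => P.pos z s = x) ⊆
            insert T ((Ico P.N T).filter (fun s => P.pos z s = x)) := by
          intro t ht
          simp only [mem_filter, mem_Ico, mem_insert] at ht ⊢
          by_cases h : t = T
          · left; exact h
          · right; exact ⟨⟨ht.1.1, by omega⟩, ht.2⟩
        exact (card_le_card hsub).trans (card_insert_le _ _)
      have := ih x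
      omega
    have hle : ∀ T' ≤ T + 1, ∀ x, P.vis z T' x ≤ P.K ^ 2 + 1 := fun T' hT' x =>
      (hmon x hT').trans (h1 x)
    have key := hLT (P.pos z) C P.N (T + 1) hC hstep ?_
    · intro x
      have := key x
      rw [hK]
      exact this
    · intro p a a' hNa haa' ha'T hp1 hp2 hp3 hp4 hcard
      have hKc : ((4 * C : ℕ) : ℤ) = (P.K : ℤ) := by rw [hK]
      rw [hKc] at hp2 hp4 hcard ⊢
      rw [← hK] at hcard ⊢
      rw [← hm] at hcard
      by_contra hlt
      rw [not_le] at hlt
      have hent : ((Ico a a').filter (fun t => ¬ (p ≤ P.pos z t ∧ P.pos z t ≤ p + P.K - 1) ∧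
          (p ≤ P.pos z (t + 1) ∧ P.pos z (t + 1) ≤ p + P.K - 1))).card < P.K := by
        refine lt_of_le_of_lt (card_le_card ?_) hlt
        intro t ht
        simp only [mem_filter, mem_Ico] at ht ⊢
        refine ⟨ht.1, ?_, ht.2.1, ht.2.2⟩
        by_contra hcon
        have : t = a' - 1 := by omega
        rw [this] at ht
        exact ht.2.1 ⟨hp3, hp4⟩
      obtain ⟨g1, g2⟩ := hMSN W A Q P z a' (P.K ^ 2 + 1) (hle a' ha'T)
      obtain ⟨o, fin, ho1, ho2, ho3, ho4⟩ := hWL2 W A Q P out z m s k a' hL hne hGZ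
        (by rw [hk]; exact g1) (by rw [hk]; exact g2) p a hNa haa' ⟨hp1, hp2⟩ ⟨hp3, hp4⟩
        hcard hent
      exact ho4 (hWL1 W A Q P z m s a' hGF (fun x => by
        have := hle a' ha'T x
        rw [hV]; omega) p a a' hNa haa' le_rfl hcard o fin ho1 ho2 ho3)

end Pool.Agent.T2H61.OT
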