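import Pool.Agent.T2H61.OT.Stm

namespace Pool.Agent.T2H61.OT

variable {W A Q : Type}

private lemma mix_step_g (M : FM W A Q) (w : W) (c : Conf A Q) :
    c.g - 1 ≤ (M.step w c).g ∧ (M.step w c).g ≤ c.g + 1 := by
  unfold FM.step
  simp only
  have h := (M.δ w c.q (c.f (c.g - 1)) (c.f c.g) (c.f (c.g + 1))).2.2.2.2.isLt
  omega

private lemma mix_step_f (M : FM W A Q) (w : W) (c : Conf A Q) (i : ℤ)
    (h : i < c.g - 1 ∨ c.g + 1 < i) : (M.step w c).f i = c.f i := by
  unfold FM.step upd3
  simp only
  rw [if_neg (by omega), if_neg (by omega), if_neg (by omega)]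

private lemma mix_step_congr (M : FM W A Q) (w : W) (c c' : Conf A Q) (hq : c.q = c'.q)
    (hg : c.g = c'.g) (h1 : c.f (c.g - 1) = c'.f (c.g - 1)) (h2 : c.f c.g = c'.f c.g)
    (h3 : c.f (c.g + 1) = c'.f (c.g + 1)) :
    (M.step w c).q = (M.step w c').q ∧ (M.step w c).g = (M.step w c').g ∧
    ∀ i, (c.f i = c'.f i) → (M.step w c).f i = (M.step w c').f i := by
  obtain ⟨q, f, g⟩ := c
  obtain ⟨q', f', g'⟩ := c'
  simp only at hq hg h1 h2 h3
  subst hq
  subst hg
  unfold FM.step upd3
  simp only [h1, h2, h3]
  refine ⟨trivial, trivial, ?_⟩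
  intro i hi
  split_ifs <;> first | rfl | exact hi

/-- snoc rule -/
private lemma mix_snoc (hAPP : S_APP) (M : FM W A Q) (l r : ℤ) (c : Conf A Q) (v : List W)
    (y : W) :
    M.runL c (v ++ [y]) = M.step y (M.runL c v) ∧
    M.msgs l r c (v ++ [y]) = M.msgs l r c v ++
      (if (inI l r (M.runL c v) ↔ inI l r (M.step y (M.runL c v))) then []
        else [msg l r (M.step y (M.runL c v))]) ∧
    M.inw l r c (v ++ [y]) = M.inw l r c v ++ (if inI l r (M.runL c v) then [y] else []) ∧
    M.outw l r c (v ++ [y]) = M.outw l r c v ++ (if inI l r (M.runL c v) then [] else [y]) := by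
  obtain ⟨h1, h2, h3, h4, -, -, -⟩ := hAPP W A Q M c v [y] l r
  refine ⟨?_, ?_, ?_, ?_⟩
  · rw [h1]; rfl
  · rw [h2]; rfl
  · rw [h3]; rfl
  · rw [h4]; rfl

private lemma mix_parity (M : FM W A Q) (l r : ℤ) (u : List W) : ∀ (c : Conf A Q),
    (inI l r (M.runL c u) ↔ inI l r c) ↔ Even (M.msgs l r c u).length := by
  induction u with
  | nil => intro c; simp [FM.runL, FM.msgs]
  | cons x u ih =>
    intro c
    have h := ih (M.step x c)
    unfold FM.runL FM.msgs
    by_cases hc : (inI l r c ↔ inI l r (M.step x c))
    · rw [if_pos hc, ← h]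
      tauto
    · rw [if_neg hc, List.length_cons, Nat.even_add_one, ← h]
      tauto

private lemma mix_main (hAPP : S_APP) (M : FM W A Q) (l r : ℤ) (c : Conf A Q) (hlr : l < r)
    (hc : inI l r c) : ∀ (n : ℕ) (u v : List W), u.length + v.length = n →
    M.msgs l r c u = M.msgs l r c v → ∃ w : List W,
      M.msgs l r c w = M.msgs l r c u ∧
      simIn l r (M.runL c w) (M.runL c u) ∧ simOut l r (M.runL c w) (M.runL c v) ∧
      ∀ x, x ∈ w ↔ x ∈ M.inw l r c u ∨ x ∈ M.outw l r c v := by
  intro n
  induction n using Nat.strong_induction_on with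
  | _ n ih =>
  intro u v hn hm
  have hpar : inI l r (M.runL c u) ↔ inI l r (M.runL c v) := by
    have h1 := mix_parity M l r u c
    have h2 := mix_parity M l r v c
    rw [hm] at h1
    tauto
  by_cases hin : inI l r (M.runL c u)
  · -- end inside
    have hinv := hpar.1 hin
    by_cases ha : ∃ v0 y, v = v0 ++ [y] ∧ inI l r (M.runL c v0)
    · obtain ⟨v0, y, rfl, hv0⟩ := ha
      obtain ⟨s1, s2, s3, s4⟩ := mix_snoc hAPP M l r c v0 y
      rw [s1] at hinv
      rw [if_pos (by tauto), List.append_nil] at s2
      rw [if_pos hv0, List.append_nil] at s4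
      obtain ⟨w, w1, w2, w3, w4⟩ := ih (u.length + v0.length)
        (by rw [← hn]; simp) u v0 rfl (by rw [hm, s2])
      refine ⟨w, w1, w2, ?_, ?_⟩
      · rw [s1]
        obtain ⟨a1, a2, a3⟩ := w3
        refine ⟨by tauto, fun h => absurd (w2.1.2 hin) h, fun h i hi => ?_⟩
        rw [a3 h i hi, mix_step_f]
        unfold inI at hv0
        omega
      · rw [s4]; exact w4
    · by_cases hb : ∃ u0 y, u = u0 ++ [y] ∧ inI l r (M.runL c u0)
      · obtain ⟨u0, y, rfl, hu0⟩ := hb
        obtain ⟨s1, s2, s3, s4⟩ := mix_snoc hAPP M l r c u0 y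
        rw [s1] at hin
        rw [if_pos (by tauto), List.append_nil] at s2
        rw [if_pos hu0] at s3
        obtain ⟨w0, w1, w2, w3, w4⟩ := ih (u0.length + v.length)
          (by rw [← hn]; simp) u0 v rfl (by rw [← hm, s2])
        have hw0 : inI l r (M.runL c w0) := w2.1.2 hu0
        obtain ⟨t1, t2, t3, t4⟩ := mix_snoc hAPP M l r c w0 y
        obtain ⟨b1, b2, b3⟩ := w2.2.1 hw0
        have hg := hw0
        unfold inI at hg
        obtain ⟨c1, c2, c3⟩ := mix_step_congr M y (M.runL c w0) (M.runL c u0) b1 b2
          (b3 _ (by omega) (by omega)) (b3 _ (by omega) (by omega)) (b3 _ (by omega) (by omega))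
        have hw : inI l r (M.step y (M.runL c w0)) := by
          unfold inI at hin ⊢
          rw [c2]; exact hin
        rw [if_pos (by tauto), List.append_nil] at t2
        refine ⟨w0 ++ [y], by rw [t2, s2, w1], ?_, ?_, ?_⟩
        · rw [t1, s1]
          refine ⟨by tauto, fun _ => ⟨c1, c2, fun i h1 h2 => c3 i (b3 i h1 h2)⟩,
            fun h => absurd hw h⟩
        · rw [t1]
          refine ⟨by tauto, fun h => absurd hw h, fun _ i hi => ?_⟩
          rw [← w3.2.2 hw0 i hi, mix_step_f]
          omega
        · intro x
          rw [s3]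
          simp only [List.mem_append, w4 x, List.mem_singleton]
          tauto
      · -- both last steps enter
        rcases List.eq_nil_or_concat v with rfl | ⟨v0, y, rfl⟩
        · -- v = []
          rcases List.eq_nil_or_concat u with rfl | ⟨u0, y', rfl⟩
          · refine ⟨[], rfl, ?_, ?_, ?_⟩
            · exact ⟨Iff.rfl, fun _ => ⟨rfl, rfl, fun _ _ _ => rfl⟩, fun _ _ _ _ => rfl⟩
            · exact ⟨Iff.rfl, fun _ => ⟨rfl, rfl, fun _ _ => rfl⟩, fun _ _ _ => rfl⟩
            · intro x
              simp [FM.inw, FM.outw]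
          · exfalso
            obtain ⟨s1, s2, s3, s4⟩ := mix_snoc hAPP M l r c u0 y'
            simp only [List.concat_eq_append] at *
            have hu0 : ¬ inI l r (M.runL c u0) := fun h => hb ⟨u0, y', rfl, h⟩
            rw [s1] at hin
            rw [if_neg (by tauto)] at s2
            rw [s2] at hm
            simp [FM.msgs] at hm
        · simp only [List.concat_eq_append] at *
          have hv0 : ¬ inI l r (M.runL c v0) := fun h => ha ⟨v0, y, rfl, h⟩
          obtain ⟨s1, s2, s3, s4⟩ := mix_snoc hAPP M l r c v0 y
          rw [s1] at hinv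
          rw [if_neg (by tauto)] at s2
          rw [if_neg hv0] at s4
          rcases List.eq_nil_or_concat u with rfl | ⟨u0, y', rfl⟩
          · exfalso
            rw [s2] at hm
            simp [FM.msgs] at hm
          simp only [List.concat_eq_append] at *
          have hu0 : ¬ inI l r (M.runL c u0) := fun h => hb ⟨u0, y', rfl, h⟩
          obtain ⟨p1, p2, p3, p4⟩ := mix_snoc hAPP M l r c u0 y'
          rw [p1] at hin
          rw [if_neg (by tauto)] at p2
          rw [if_neg hu0, List.append_nil] at p3
          rw [s2, p2] at hm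
          have hm1 : M.msgs l r c u0 = M.msgs l r c v0 ∧
              msg l r (M.step y' (M.runL c u0)) = msg l r (M.step y (M.runL c v0)) := by
            have := List.append_inj' hm rfl
            simpa using this
          obtain ⟨hm0, hml⟩ := hm1
          obtain ⟨w0, w1, w2, w3, w4⟩ := ih (u0.length + v0.length)
            (by rw [← hn]; simp; omega) u0 v0 rfl hm0
          have hw0 : ¬ inI l r (M.runL c w0) := fun h => hu0 (w2.1.1 h)
          obtain ⟨t1, t2, t3, t4⟩ := mix_snoc hAPP M l r c w0 y
          obtain ⟨b1, b2, b3⟩ := w3.2.1 hw0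
          have hg := hw0
          unfold inI at hg
          obtain ⟨c1, c2, c3⟩ := mix_step_congr M y (M.runL c w0) (M.runL c v0) b1 b2
            (b3 _ (by omega)) (b3 _ (by omega)) (b3 _ (by omega))
          have hw : inI l r (M.step y (M.runL c w0)) := by
            unfold inI at hinv ⊢
            rw [c2]; exact hinv
          rw [if_neg (by tauto)] at t2
          have e4 : ∀ i, (i ≤ l ∨ r ≤ i) →
              (M.step y (M.runL c w0)).f i = (M.step y (M.runL c v0)).f i :=
            fun i hi => c3 i (b3 i hi)
          have hmsg : msg l r (M.step y (M.runL c w0)) = msg l r (M.step y (M.runL c v0)) := by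
            unfold msg
            rw [c1, c2, e4 _ (by omega), e4 _ (by omega), e4 _ (by omega), e4 _ (by omega)]
          refine ⟨w0 ++ [y], by rw [t2, p2, w1, hmsg, hml], ?_, ?_, ?_⟩
          · rw [t1, p1]
            have hml' := hml
            unfold msg at hml'
            simp only [Prod.mk.injEq, decide_eq_decide] at hml'
            obtain ⟨m1, m2, m3, m4, m5, m6⟩ := hml'
            have g1 := mix_step_g M y (M.runL c w0)
            have g2 := mix_step_g M y' (M.runL c u0)
            have hu0' := hu0
            have hin' := hin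
            have hw' := hw
            have hinv' := hinv
            unfold inI at hu0' hin' hw' hinv'
            have hgg : (M.step y (M.runL c w0)).g = (M.step y' (M.runL c u0)).g := by
              rw [← c2] at m2
              omega
            refine ⟨by tauto, fun _ => ⟨by rw [c1, m1], hgg, fun i h1 h2 => ?_⟩,
              fun h => absurd hw h⟩
            by_cases k1 : i = l - 1
            · subst k1; rw [e4 _ (by omega), m3]
            by_cases k2 : i = l
            · subst k2; rw [e4 _ (by omega), m4]
            by_cases k3 : i = r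
            · subst k3; rw [e4 _ (by omega), m5]
            by_cases k4 : i = r + 1
            · subst k4; rw [e4 _ (by omega), m6]
            rw [mix_step_f _ _ _ _ (by omega), mix_step_f _ _ _ _ (by omega)]
            exact w2.2.2 hw0 i (by omega) (by omega)
          · rw [t1, s1]
            refine ⟨by tauto, fun h => absurd hw h, fun _ i hi => ?_⟩
            exact e4 i (by omega)
          · intro x
            rw [p3, s4]
            simp only [List.mem_append, w4 x, List.mem_singleton]
            tauto
  · -- end outside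
    have hinv : ¬ inI l r (M.runL c v) := fun h => hin (hpar.2 h)
    by_cases ha : ∃ u0 y, u = u0 ++ [y] ∧ ¬ inI l r (M.runL c u0)
    · obtain ⟨u0, y, rfl, hu0⟩ := ha
      obtain ⟨s1, s2, s3, s4⟩ := mix_snoc hAPP M l r c u0 y
      rw [s1] at hin
      rw [if_pos (by tauto), List.append_nil] at s2
      rw [if_neg hu0, List.append_nil] at s3
      obtain ⟨w, w1, w2, w3, w4⟩ := ih (u0.length + v.length)
        (by rw [← hn]; simp) u0 v rfl (by rw [← hm, s2])
      refine ⟨w, by rw [w1, s2], ?_, w3, ?_⟩
      · rw [s1]
        obtain ⟨a1, a2, a3⟩ := w2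
        refine ⟨by tauto, fun h => absurd h (by tauto), fun h i h1 h2 => ?_⟩
        rw [a3 h i h1 h2, mix_step_f]
        unfold inI at hu0
        omega
      · rw [s3]; exact w4
    · by_cases hb : ∃ v0 y, v = v0 ++ [y] ∧ ¬ inI l r (M.runL c v0)
      · obtain ⟨v0, y, rfl, hv0⟩ := hb
        obtain ⟨s1, s2, s3, s4⟩ := mix_snoc hAPP M l r c v0 y
        rw [s1] at hinv
        rw [if_pos (by tauto), List.append_nil] at s2
        rw [if_neg hv0] at s4
        obtain ⟨w0, w1, w2, w3, w4⟩ := ih (u.length + v0.length)
          (by rw [← hn]; simp) u v0 rfl (by rw [hm, s2])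
        have hw0 : ¬ inI l r (M.runL c w0) := fun h => hv0 (w3.1.1 h)
        obtain ⟨t1, t2, t3, t4⟩ := mix_snoc hAPP M l r c w0 y
        obtain ⟨b1, b2, b3⟩ := w3.2.1 hw0
        have hg := hw0
        unfold inI at hg
        obtain ⟨c1, c2, c3⟩ := mix_step_congr M y (M.runL c w0) (M.runL c v0) b1 b2
          (b3 _ (by omega)) (b3 _ (by omega)) (b3 _ (by omega))
        have hw : ¬ inI l r (M.step y (M.runL c w0)) := by
          unfold inI at hinv ⊢
          rw [c2]; exact hinv
        rw [if_pos (by tauto), List.append_nil] at t2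
        refine ⟨w0 ++ [y], by rw [t2, w1], ?_, ?_, ?_⟩
        · rw [t1]
          refine ⟨by tauto, fun h => absurd h hw, fun _ i h1 h2 => ?_⟩
          rw [← w2.2.2 hw0 i h1 h2, mix_step_f]
          omega
        · rw [t1, s1]
          refine ⟨by tauto, fun _ => ⟨c1, c2, fun i h1 => c3 i (b3 i h1)⟩,
            fun h => absurd h hw⟩
        · intro x
          rw [s4]
          simp only [List.mem_append, w4 x, List.mem_singleton]
          tauto
      · -- both last steps leave
        rcases List.eq_nil_or_concat u with rfl | ⟨u0, y', rfl⟩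
        · exact absurd hc hin
        rcases List.eq_nil_or_concat v with rfl | ⟨v0, y, rfl⟩
        · exact absurd hc hinv
        simp only [List.concat_eq_append] at *
        have hu0 : inI l r (M.runL c u0) := by
          by_contra h; exact ha ⟨u0, y', rfl, h⟩
        have hv0 : inI l r (M.runL c v0) := by
          by_contra h; exact hb ⟨v0, y, rfl, h⟩
        obtain ⟨s1, s2, s3, s4⟩ := mix_snoc hAPP M l r c v0 y
        rw [s1] at hinv
        rw [if_neg (by tauto)] at s2
        rw [if_pos hv0, List.append_nil] at s4
        obtain ⟨p1, p2, p3, p4⟩ := mix_snoc hAPP M l r c u0 y'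
        rw [p1] at hin
        rw [if_neg (by tauto)] at p2
        rw [if_pos hu0] at p3
        rw [s2, p2] at hm
        have hm1 : M.msgs l r c u0 = M.msgs l r c v0 ∧
            msg l r (M.step y' (M.runL c u0)) = msg l r (M.step y (M.runL c v0)) := by
          have := List.append_inj' hm rfl
          simpa using this
        obtain ⟨hm0, hml⟩ := hm1
        obtain ⟨w0, w1, w2, w3, w4⟩ := ih (u0.length + v0.length)
          (by rw [← hn]; simp; omega) u0 v0 rfl hm0
        have hw0 : inI l r (M.runL c w0) := w2.1.2 hu0
        obtain ⟨t1, t2, t3, t4⟩ := mix_snoc hAPP M l r c w0 y'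
        obtain ⟨b1, b2, b3⟩ := w2.2.1 hw0
        have hg := hw0
        unfold inI at hg
        obtain ⟨c1, c2, c3⟩ := mix_step_congr M y' (M.runL c w0) (M.runL c u0) b1 b2
          (b3 _ (by omega) (by omega)) (b3 _ (by omega) (by omega)) (b3 _ (by omega) (by omega))
        have hw : ¬ inI l r (M.step y' (M.runL c w0)) := by
          unfold inI at hin ⊢
          rw [c2]; exact hin
        rw [if_neg (by tauto)] at t2
        have e4 : ∀ i, l - 1 ≤ i → i ≤ r + 1 →
            (M.step y' (M.runL c w0)).f i = (M.step y' (M.runL c u0)).f i :=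
          fun i h1 h2 => c3 i (b3 i h1 h2)
        have hmsg : msg l r (M.step y' (M.runL c w0)) = msg l r (M.step y' (M.runL c u0)) := by
          unfold msg
          rw [c1, c2, e4 _ (by omega) (by omega), e4 _ (by omega) (by omega),
            e4 _ (by omega) (by omega), e4 _ (by omega) (by omega)]
        refine ⟨w0 ++ [y'], by rw [t2, p2, w1, hmsg], ?_, ?_, ?_⟩
        · rw [t1, p1]
          refine ⟨by tauto, fun h => absurd h hw, fun _ i h1 h2 => ?_⟩
          exact e4 i (by omega) (by omega)
        · rw [t1, s1]
          have hml' := hml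
          unfold msg at hml'
          simp only [Prod.mk.injEq, decide_eq_decide] at hml'
          obtain ⟨m1, m2, m3, m4, m5, m6⟩ := hml'
          have g1 := mix_step_g M y' (M.runL c w0)
          have g2 := mix_step_g M y (M.runL c v0)
          have hv0' := hv0
          have hin' := hin
          have hw' := hw
          have hinv' := hinv
          unfold inI at hv0' hin' hw' hinv'
          have hgg : (M.step y' (M.runL c w0)).g = (M.step y (M.runL c v0)).g := by
            rw [← c2] at m2
            omega
          refine ⟨by tauto, fun _ => ⟨by rw [c1, m1], hgg, fun i h1 => ?_⟩,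
            fun h => absurd h hw⟩
          by_cases k1 : i = l - 1
          · subst k1; rw [e4 _ (by omega) (by omega), m3]
          by_cases k2 : i = l
          · subst k2; rw [e4 _ (by omega) (by omega), m4]
          by_cases k3 : i = r
          · subst k3; rw [e4 _ (by omega) (by omega), m5]
          by_cases k4 : i = r + 1
          · subst k4; rw [e4 _ (by omega) (by omega), m6]
          rw [mix_step_f _ _ _ _ (by omega), mix_step_f _ _ _ _ (by omega)]
          exact w3.2.2 hw0 i (by omega)
        · intro x
          rw [p3, s4]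
          simp only [List.mem_append, w4 x, List.mem_singleton]
          tauto

theorem pMIX (hAPP : S_APP) : S_MIX := by
  intro W A Q M l r c hlr hc u v hm
  obtain ⟨w, -, w2, w3, w4⟩ := mix_main hAPP M l r c hlr hc _ u v rfl hm
  exact ⟨w, w2, w3, w4⟩

end Pool.Agent.T2H61.OT
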