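import Pool.Agent.T2H61.OT.Stm

/-!
# Project OT, package ML: number of lists of bounded length
-/

namespace Pool.Agent.T2H61.OT

private theorem ml_inj (X : Type) (k : ℕ) : Set.InjOn (fun (l : List X) (i : Fin k) => l[(i : ℕ)]?)
    {l : List X | l.length ≤ k} := by
  intro l hl l' hl' h
  apply List.ext_getElem?
  intro n
  by_cases hn : n < k
  · exact congrFun h ⟨n, hn⟩
  · have h1 : l.length ≤ n := le_trans hl (by omega)
    have h2 : l'.length ≤ n := le_trans hl' (by omega)
    rw [List.getElem?_eq_none h1, List.getElem?_eq_none h2]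

theorem pML : S_ML := by
  classical
  intro X _ k
  have hinj := ml_inj X k
  have hfin : ({l : List X | l.length ≤ k} : Set (List X)).Finite :=
    Set.Finite.of_finite_image (Set.toFinite _) hinj
  refine ⟨hfin, ?_⟩
  have h1 := Set.ncard_le_ncard_of_injOn (s := {l : List X | l.length ≤ k})
    (t := (Set.univ : Set (Fin k → Option X))) (fun (l : List X) (i : Fin k) => l[(i : ℕ)]?)
    (fun _ _ => Set.mem_univ _) hinj (Set.toFinite _)
  refine h1.trans (le_of_eq ?_)
  rw [Set.ncard_univ, Nat.card_eq_fintype_card, Fintype.card_fun, Fintype.card_option,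
    Fintype.card_fin]

end Pool.Agent.T2H61.OT
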