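import Pool.Agent.T2H61.OT.Stm

/-!
# Project OT, package MSN
-/

namespace Pool.Agent.T2H61.OT

open Finset

private theorem MSN_pre_succ {W : Type} (u : ℕ → W) (t : ℕ) : pre u (t + 1) = pre u t ++ [u t] := by
  simp [pre, List.range_succ]

private theorem MSN_len (hAPP : S_APP) {W A Q : Type} (M : FM W A Q) (u : ℕ → W) (l r : ℤ) :
    ∀ T, (M.msgs l r M.init (pre u T)).length =
      ((Finset.range T).filter (fun t => ¬ (inI l r (M.runL M.init (pre u t)) ↔
        inI l r (M.runL M.init (pre u (t + 1)))))).card := by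
  intro T
  induction T with
  | zero => rfl
  | succ T ih =>
    obtain ⟨-, h2, -⟩ := hAPP W A Q M M.init (pre u T) [u T] l r
    have hrun2 : M.runL M.init (pre u (T + 1)) =
        M.step (u T) (M.runL M.init (pre u T)) := by
      rw [MSN_pre_succ, (hAPP W A Q M M.init (pre u T) _ l r).1]
      rfl
    rw [Finset.range_add_one, Finset.filter_insert, MSN_pre_succ, h2, List.length_append, ih]
    rw [← MSN_pre_succ, hrun2]
    by_cases hI : inI l r (M.runL M.init (pre u T)) ↔
        inI l r (M.step (u T) (M.runL M.init (pre u T)))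
    · rw [if_neg (not_not.2 hI)]
      simp only [FM.msgs, if_pos hI, List.length_nil, Nat.add_zero]
    · rw [if_pos hI, Finset.card_insert_of_notMem (by simp)]
      simp only [FM.msgs, if_neg hI, List.length_cons, List.length_nil]

private theorem MSN_main (hAPP : S_APP) (hAD1 : S_AD1) {W A Q : Type} (P : Par W A Q)
    (z : P.U → Fin 4) (T L : ℕ) (hL : ∀ x, P.vis z T x ≤ L) (B : ℤ) (hB : (P.N : ℤ) < B) :
    (P.M.msgs (-B) B P.M.init (P.tx z T)).length ≤ 4 * L := by
  obtain ⟨c1, c2, c3, c4, c5, c6, c7⟩ := hAD1 W A Q P z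
  have hposd : ∀ t, (P.M.runL P.M.init (pre (P.st z) t)).g = P.pos z t := by
    intro t
    rw [← (c1 t).2]
    rfl
  rw [(c1 T).2, MSN_len hAPP]
  have hsub : (Finset.range T).filter (fun t =>
      ¬ (inI (-B) B (P.M.runL P.M.init (pre (P.st z) t)) ↔
        inI (-B) B (P.M.runL P.M.init (pre (P.st z) (t + 1))))) ⊆
      ({B, B + 1, -B, -B - 1} : Finset ℤ).biUnion
        (fun x => (Finset.Ico P.N T).filter (fun s => P.pos z s = x)) := by
    intro t ht
    rw [Finset.mem_filter, Finset.mem_range] at ht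
    obtain ⟨htT, hcr⟩ := ht
    unfold inI at hcr
    rw [hposd, hposd] at hcr
    have h4 := abs_le.1 (c4 t)
    have h5 := abs_le.1 (c5 t)
    have hx : P.pos z t = B ∨ P.pos z t = B + 1 ∨ P.pos z t = -B ∨ P.pos z t = -B - 1 := by
      by_contra hcon
      apply hcr
      constructor
      · intro hh
        constructor <;> omega
      · intro hh
        constructor <;> omega
    rw [Finset.mem_biUnion]
    refine ⟨P.pos z t, ?_, ?_⟩
    · simp only [Finset.mem_insert, Finset.mem_singleton]
      exact hx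
    · rw [Finset.mem_filter, Finset.mem_Ico]
      refine ⟨⟨?_, htT⟩, rfl⟩
      omega
  calc _ ≤ _ := Finset.card_le_card hsub
    _ ≤ ∑ x ∈ ({B, B + 1, -B, -B - 1} : Finset ℤ),
        ((Finset.Ico P.N T).filter (fun s => P.pos z s = x)).card := Finset.card_biUnion_le
    _ ≤ ∑ x ∈ ({B, B + 1, -B, -B - 1} : Finset ℤ), L :=
        Finset.sum_le_sum (fun x _ => hL x)
    _ = ({B, B + 1, -B, -B - 1} : Finset ℤ).card * L := by
        rw [Finset.sum_const, smul_eq_mul]
    _ ≤ 4 * L := by
        apply Nat.mul_le_mul_right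
        exact Finset.card_le_four

theorem pMSN (hAPP : S_APP) (hAD1 : S_AD1) : S_MSN := by
  intro W A Q P z T L hL
  have hK : (0 : ℤ) ≤ (P.K : ℤ) := Int.natCast_nonneg _
  constructor
  · exact MSN_main hAPP hAD1 P z T L hL P.B1 (by unfold Par.B1; linarith)
  · exact MSN_main hAPP hAD1 P z T L hL P.B2 (by unfold Par.B2; linarith)

end Pool.Agent.T2H61.OT
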