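import Pool.Agent.T2H61.OT.Stm

namespace Pool.Agent.T2H61.OT

open Filter Topology

private lemma num_growth (A B a c : ℕ) (hac : a < c) :
    ∃ n0 : ℕ, ∀ n, n0 ≤ n → A * n ^ B * a ^ n ≤ c ^ n := by
  have hc : (0 : ℝ) < c := by
    have : 0 < c := by omega
    exact_mod_cast this
  have hr : |(a : ℝ) / c| < 1 := by
    rw [abs_of_nonneg (by positivity), div_lt_one hc]
    exact_mod_cast hac
  have h := tendsto_pow_const_mul_const_pow_of_abs_lt_one B hr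
  have hA : (0 : ℝ) < 1 / ((A : ℝ) + 1) := by positivity
  have h2 := h.eventually (gt_mem_nhds hA)
  obtain ⟨n0, hn0⟩ := eventually_atTop.1 h2
  refine ⟨n0, fun n hn => ?_⟩
  have h3 := hn0 n hn
  have h4 : (A : ℝ) * (n ^ B * ((a : ℝ) / c) ^ n) ≤ 1 := by
    have : (A : ℝ) * (n ^ B * ((a : ℝ) / c) ^ n) ≤ (A : ℝ) * (1 / ((A : ℝ) + 1)) :=
      mul_le_mul_of_nonneg_left h3.le (by positivity)
    refine this.trans ?_
    rw [mul_one_div, div_le_one (by positivity)]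
    linarith
  have h5 : (A : ℝ) * n ^ B * a ^ n ≤ c ^ n := by
    rw [div_pow] at h4
    have hcn : (0 : ℝ) < (c : ℝ) ^ n := by positivity
    have : (A : ℝ) * n ^ B * a ^ n = ((A : ℝ) * (n ^ B * ((a : ℝ) ^ n / c ^ n))) * c ^ n := by
      field_simp
    rw [this]
    calc _ ≤ 1 * (c : ℝ) ^ n := mul_le_mul_of_nonneg_right h4 hcn.le
      _ = _ := one_mul _
  exact_mod_cast h5

private lemma num_M (b N Ac Qc Ms : ℕ) (hAc : Ac ≤ N ^ b) (hQc : Qc ≤ N ^ b)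
    (hM : Ms = Qc * (2 * (Ac * (Ac * (Ac * Ac))))) : Ms ≤ 2 * N ^ (5 * b) := by
  subst hM
  calc Qc * (2 * (Ac * (Ac * (Ac * Ac))))
      ≤ N ^ b * (2 * (N ^ b * (N ^ b * (N ^ b * N ^ b)))) := by gcongr
    _ = 2 * N ^ (5 * b) := by ring

private lemma num_L (b N Ac Qc K Lc : ℕ) (hAc : Ac ≤ N ^ b) (hQc : Qc ≤ N ^ b)
    (hL : Lc = Qc * (Ac ^ (K + 2) * (K + 2))) : Lc ≤ (K + 2) * N ^ (b * (K + 3)) := by
  subst hL
  calc Qc * (Ac ^ (K + 2) * (K + 2))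
      ≤ N ^ b * ((N ^ b) ^ (K + 2) * (K + 2)) := by gcongr
    _ = (K + 2) * N ^ (b * (K + 3)) := by
        rw [← pow_mul, show b * (K + 3) = b + b * (K + 2) by ring, pow_add]; ring

theorem pNUM : S_NUM := by
  intro b hb
  -- constants
  obtain ⟨C, hC⟩ : ∃ C, C = 28 * b := ⟨_, rfl⟩
  obtain ⟨K, hK⟩ : ∃ K, K = 4 * C := ⟨_, rfl⟩
  obtain ⟨m, hm⟩ : ∃ m, m = C * K := ⟨_, rfl⟩
  obtain ⟨V, hV⟩ : ∃ V, V = K ^ 2 + 2 := ⟨_, rfl⟩
  obtain ⟨k, hk⟩ : ∃ k, k = 4 * (K ^ 2 + 1) := ⟨_, rfl⟩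
  -- the common factor: `Lc * (2 ^ m * (Ms * Ms) ^ K) * Lc ≤ D * N ^ E`
  obtain ⟨D, hD⟩ : ∃ D, D = (K + 2) * (K + 2) * 2 ^ m * 4 ^ K := ⟨_, rfl⟩
  obtain ⟨E, hE⟩ : ∃ E, E = 2 * (b * (K + 3)) + 10 * b * K := ⟨_, rfl⟩
  obtain ⟨n1, hn1⟩ := num_growth (4 * 3 ^ k * D * 4 ^ (K * V)) (2 * (5 * b * k + E)) 3 4
    (by norm_num)
  obtain ⟨n2, hn2⟩ := num_growth (2 * (100 * (1 + k * (2 + 5 * b) + 2) + K * V)) 1 1 2
    (by norm_num)
  refine ⟨D * (K * V) ^ m * m + 1 + (n1 + K * V + 1) ^ 2 + 2 ^ (n2 + 1), ?_⟩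
  intro N Ac Qc hN hA1 hQ1 hAc hQc C' K' m' V' k' Ms Lc s e1 e2 e3 e4 e5 hMs hLc hs
  have E1 : C' = C := by rw [e1, hC]
  subst E1
  have E2 : K' = K := by rw [e2, hK]
  subst E2
  have E3 : m' = m := by rw [e3, hm]
  subst E3
  have E4 : V' = V := by rw [e4, hV]
  subst E4
  have E5 : k' = k := by rw [e5, hk]
  subst E5
  have hN1 : 1 ≤ N := by
    have : 1 ≤ 2 ^ (n2 + 1) := Nat.one_le_two_pow
    omega
  have bM := num_M b N Ac Qc Ms hAc hQc hMs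
  have bL := num_L b N Ac Qc K' Lc hAc hQc hLc
  have bX : Lc * (2 ^ m' * (Ms * Ms) ^ K') * Lc ≤ D * N ^ E := by
    calc Lc * (2 ^ m' * (Ms * Ms) ^ K') * Lc
        ≤ ((K' + 2) * N ^ (b * (K' + 3))) * (2 ^ m' * ((2 * N ^ (5 * b)) * (2 * N ^ (5 * b))) ^ K') *
          ((K' + 2) * N ^ (b * (K' + 3))) := by gcongr
      _ = D * N ^ E := by
        have : ((2 * N ^ (5 * b)) * (2 * N ^ (5 * b))) ^ K' = 4 ^ K' * N ^ (10 * b * K') := by
          rw [show (2 * N ^ (5 * b)) * (2 * N ^ (5 * b)) = 4 * N ^ (10 * b) by ring, mul_pow,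
            ← pow_mul]
        rw [this, hD, hE, pow_add, show 2 * (b * (K' + 3)) = b * (K' + 3) + b * (K' + 3) by ring,
          pow_add]
        ring
  have hs2 : s * s ≤ N := by rw [hs]; exact Nat.sqrt_le N
  have hs3 : N < (s + 1) * (s + 1) := by rw [hs]; exact Nat.lt_succ_sqrt N
  have hNa : D * (K' * V') ^ m' * m' < N := by
    have h1 : 1 ≤ 2 ^ (n2 + 1) := Nat.one_le_two_pow
    have h2 : 0 ≤ (n1 + K' * V' + 1) ^ 2 := Nat.zero_le _
    linarith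
  have hNb : (n1 + K' * V' + 1) ^ 2 ≤ N := by
    have h1 : 1 ≤ 2 ^ (n2 + 1) := Nat.one_le_two_pow
    have h2 : 0 ≤ D * (K' * V') ^ m' * m' := Nat.zero_le _
    linarith
  refine ⟨?_, ?_, ?_⟩
  · have hsm : s ^ m' ≤ N ^ (14 * b * K') := by
      have : m' = 2 * (14 * b * K') := by rw [e3, e1]; ring
      rw [this, pow_mul, pow_two]
      exact Nat.pow_le_pow_left hs2 _
    have hexp : E + 14 * b * K' + 1 + 1 ≤ m' := by
      rw [hE, e3]
      have : K' = 112 * b := by rw [e2, e1]; ring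
      have hb2 : b ≤ b * b := by nlinarith
      rw [e1, this]
      nlinarith
    calc (Lc * (2 ^ m' * (Ms * Ms) ^ K') * Lc) * (K' * V') ^ m' * m' * s ^ m' * N
        ≤ (D * N ^ E) * (K' * V') ^ m' * m' * N ^ (14 * b * K') * N := by gcongr
      _ = (D * (K' * V') ^ m' * m') * N ^ (E + 14 * b * K' + 1) := by
          rw [pow_succ, pow_add]; ring
      _ < N * N ^ (E + 14 * b * K' + 1) := by
          exact Nat.mul_lt_mul_of_pos_right hNa (by positivity)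
      _ = N ^ (E + 14 * b * K' + 1 + 1) := by rw [pow_succ]; ring
      _ ≤ N ^ m' := Nat.pow_le_pow_right hN1 hexp
  · intro q hq
    have hqN : N ≤ (q + K' * V') ^ 2 := by nlinarith
    have hqn : n1 ≤ q + K' * V' := by
      have h2 : (n1 + K' * V' + 1) ^ 2 ≤ (q + K' * V') ^ 2 := hNb.trans hqN
      have h3 := (Nat.pow_le_pow_iff_left (n := 2) (by norm_num)).1 h2
      omega
    have h4 := hn1 _ hqn
    have hM1 : Ms + 1 ≤ 3 * N ^ (5 * b) := by
      have : 1 ≤ N ^ (5 * b) := Nat.one_le_pow _ _ hN1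
      omega
    have h5 : 4 * (Ms + 1) ^ k' * (Lc * (2 ^ m' * (Ms * Ms) ^ K') * Lc) ≤
        4 * 3 ^ k' * D * (q + K' * V') ^ (2 * (5 * b * k' + E)) := by
      calc 4 * (Ms + 1) ^ k' * (Lc * (2 ^ m' * (Ms * Ms) ^ K') * Lc)
          ≤ 4 * (3 * N ^ (5 * b)) ^ k' * (D * N ^ E) := by gcongr
        _ = 4 * 3 ^ k' * D * N ^ (5 * b * k' + E) := by
          rw [mul_pow, ← pow_mul, pow_add]; ring
        _ ≤ 4 * 3 ^ k' * D * ((q + K' * V') ^ 2) ^ (5 * b * k' + E) := by gcongr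
        _ = _ := by rw [← pow_mul]
    have h6 : (4 * 3 ^ k' * D * (q + K' * V') ^ (2 * (5 * b * k' + E)) * 3 ^ q) *
        (4 ^ (K' * V') * 3 ^ (K' * V')) ≤ 4 ^ q * (4 ^ (K' * V') * 3 ^ (K' * V')) := by
      calc (4 * 3 ^ k' * D * (q + K' * V') ^ (2 * (5 * b * k' + E)) * 3 ^ q) *
        (4 ^ (K' * V') * 3 ^ (K' * V'))
          = 4 * 3 ^ k' * D * 4 ^ (K' * V') * (q + K' * V') ^ (2 * (5 * b * k' + E)) *
            3 ^ (q + K' * V') := by rw [pow_add]; ring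
        _ ≤ 4 ^ (q + K' * V') := h4
        _ = 4 ^ q * 4 ^ (K' * V') * 1 := by rw [pow_add]; ring
        _ ≤ 4 ^ q * 4 ^ (K' * V') * 3 ^ (K' * V') := by
          gcongr
          exact Nat.one_le_pow _ _ (by norm_num)
        _ = _ := by ring
    have h7 := Nat.le_of_mul_le_mul_right h6 (by positivity)
    calc 4 * (Ms + 1) ^ k' * (Lc * (2 ^ m' * (Ms * Ms) ^ K') * Lc) * 3 ^ q
        ≤ 4 * 3 ^ k' * D * (q + K' * V') ^ (2 * (5 * b * k' + E)) * 3 ^ q := by gcongr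
      _ ≤ 4 ^ q := h7
  · -- lam
    obtain ⟨L, hL⟩ : ∃ L, L = Nat.log 2 N + 1 := ⟨_, rfl⟩
    have hNL : N ≤ 2 ^ L := by
      rw [hL]; exact (Nat.lt_pow_succ_log_self (by norm_num) N).le
    have hLN : 2 ^ (L - 1) ≤ N := by
      rw [hL, Nat.add_sub_cancel]; exact Nat.pow_log_le_self 2 (by omega)
    have hL1 : 1 ≤ L := by omega
    have hn2L : n2 ≤ L := by
      by_contra hcon
      push Not at hcon
      have h1 : 2 ^ L ≤ 2 ^ n2 := Nat.pow_le_pow_right (by norm_num) hcon.le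
      have h2 : 2 ^ (n2 + 1) ≤ N := by omega
      have h3 : 2 ^ (n2 + 1) = 2 * 2 ^ n2 := by rw [pow_succ]; ring
      have h4 : 0 < 2 ^ n2 := by positivity
      omega
    have h4 := hn2 L hn2L
    rw [one_pow, mul_one, pow_one] at h4
    refine ⟨1 + k' * (2 + 5 * b * L), ?_, ?_⟩
    · have hM1 : Ms + 1 ≤ 3 * N ^ (5 * b) := by
        have : 1 ≤ N ^ (5 * b) := Nat.one_le_pow _ _ hN1
        omega
      calc 2 * (Ms + 1) ^ k' ≤ 2 * (4 * (2 ^ L) ^ (5 * b)) ^ k' := by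
            gcongr
            calc Ms + 1 ≤ 3 * N ^ (5 * b) := hM1
              _ ≤ 4 * (2 ^ L) ^ (5 * b) := by gcongr; norm_num
        _ = 2 ^ (1 + k' * (2 + 5 * b * L)) := by
          rw [pow_add, pow_one, ← pow_mul, show (4 : ℕ) = 2 ^ 2 by norm_num, ← pow_add,
            ← pow_mul]
          congr 2
          ring
    · have h5 : 2 ^ L = 2 * 2 ^ (L - 1) := by
        conv_lhs => rw [show L = (L - 1) + 1 by omega, pow_succ]
        ring
      have h6 : 2 * ((100 * (1 + k' * (2 + 5 * b) + 2) + K' * V') * L) ≤ 2 * N := by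
        calc 2 * ((100 * (1 + k' * (2 + 5 * b) + 2) + K' * V') * L)
            = 2 * (100 * (1 + k' * (2 + 5 * b) + 2) + K' * V') * L := by ring
          _ ≤ 2 ^ L := h4
          _ = 2 * 2 ^ (L - 1) := h5
          _ ≤ 2 * N := by omega
      have h7 : 100 * (1 + k' * (2 + 5 * b * L) + 2) + K' * V' ≤
          (100 * (1 + k' * (2 + 5 * b) + 2) + K' * V') * L := by
        have t1 : 1 + k' * (2 + 5 * b * L) + 2 ≤ (1 + k' * (2 + 5 * b) + 2) * L := by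
          have : (1 + k' * (2 + 5 * b) + 2) * L = 3 * L + k' * (2 * L + 5 * b * L) := by ring
          rw [this]
          have : k' * (2 + 5 * b * L) ≤ k' * (2 * L + 5 * b * L) := by
            gcongr
            omega
          omega
        have t2 : K' * V' ≤ K' * V' * L := Nat.le_mul_of_pos_right _ (by omega)
        calc 100 * (1 + k' * (2 + 5 * b * L) + 2) + K' * V'
            ≤ 100 * ((1 + k' * (2 + 5 * b) + 2) * L) + K' * V' * L := by gcongr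
          _ = _ := by ring
      omega

end Pool.Agent.T2H61.OT
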