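import Pool.Agent.T2H61.OT.Stm

/-!
# Project OT, package PM
-/

namespace Pool.Agent.T2H61.OT

open Finset

private theorem PM_app {W A Q : Type} (M : FM W A Q) (u v : List W) : ∀ c : Conf A Q,
    M.runL c (u ++ v) = M.runL (M.runL c u) v := by
  induction u with
  | nil => intro c; rfl
  | cons a u ih => intro c; exact ih _

private theorem PM_stream {W : Type} (u : List W) (h : ℕ → W) : ∃ s : ℕ → W,
    (∀ k, pre s (u.length + k) = u ++ pre h k) ∧ Set.range s = {x | x ∈ u} ∪ Set.range h := by
  refine ⟨fun t => if ht : t < u.length then u[t] else h (t - u.length), ?_, ?_⟩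
  · intro k
    apply List.ext_getElem
    · simp [pre]
    · intro i h1 h2
      simp only [pre, List.getElem_map, List.getElem_range]
      by_cases hi : i < u.length
      · rw [dif_pos hi, List.getElem_append_left hi]
      · rw [dif_neg hi, List.getElem_append_right (not_lt.1 hi)]
        simp
  · ext y
    simp only [Set.mem_range, Set.mem_union, Set.mem_setOf_eq]
    constructor
    · rintro ⟨t, rfl⟩
      by_cases ht : t < u.length
      · rw [dif_pos ht]
        exact Or.inl (List.getElem_mem ht)
      · rw [dif_neg ht]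
        exact Or.inr ⟨_, rfl⟩
    · rintro (hy | ⟨k, rfl⟩)
      · obtain ⟨i, hi, rfl⟩ := List.getElem_of_mem hy
        exact ⟨i, by rw [dif_pos hi]⟩
      · refine ⟨u.length + k, ?_⟩
        rw [dif_neg (by omega), Nat.add_sub_cancel_left]

theorem pPM : S_PM := by
  intro W A Q _ M out hL hxy u v huv x hxu
  by_contra hxv
  have hne : ({x}ᶜ : Set W).Nonempty := by
    obtain ⟨a, b, hab⟩ := hxy
    by_cases ha : a = x
    · refine ⟨b, ?_⟩
      rw [Set.mem_compl_iff, Set.mem_singleton_iff]
      intro hb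
      exact hab (ha.trans hb.symm)
    · exact ⟨a, ha⟩
  obtain ⟨h, hh⟩ := (Set.to_countable ({x}ᶜ : Set W)).exists_eq_range hne
  obtain ⟨s1, a1, a2⟩ := PM_stream u h
  obtain ⟨s2, b1, b2⟩ := PM_stream v h
  have hr1 : Set.range s1 = Set.univ := by
    rw [a2, ← hh, Set.eq_univ_iff_forall]
    intro y
    by_cases hy : y = x
    · left
      rw [hy]
      exact hxu
    · exact Or.inr hy
  have hr2 : Set.range s2 = {x}ᶜ := by
    rw [b2, ← hh]
    apply Set.union_eq_self_of_subset_left
    intro y hy
    rw [Set.mem_compl_iff, Set.mem_singleton_iff]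
    intro hyx
    rw [hyx] at hy
    exact hxv hy
  obtain ⟨S1, hS1⟩ := hL.1 s1 hr1
  obtain ⟨S2, hS2⟩ := hL.2 s2 x hr2
  have h1 := hS1 (u.length + (S1 + S2)) (by omega)
  have h2 := hS2 (v.length + (S1 + S2)) (by omega)
  rw [a1, PM_app, huv] at h1
  rw [b1, PM_app] at h2
  exact h2 h1

end Pool.Agent.T2H61.OT
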