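import Mathlib

/-!
# Project OT: one additional work-tape does not suffice (MP_e130ca_lc)

Abstract one-tape machines with a fat alphabet (`FM`), intervals, messages.
-/

namespace Pool.Agent.T2H61.OT

/-- A one-tape machine with cell alphabet `A` and control states `Q`; every step consumes one
word of `W`.  A step reads the cells `g-1, g, g+1`, rewrites them and moves the head by
`-1, 0` or `1` (coded by `Fin 3`: `0` is left, `1` is stay, `2` is right). -/
structure FM (W A Q : Type) where
  q0 : Q
  a0 : A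
  δ : W → Q → A → A → A → Q × A × A × A × Fin 3

/-- configurations -/
@[ext] structure Conf (A Q : Type) where
  q : Q
  f : ℤ → A
  g : ℤ

variable {W A Q : Type}

/-- rewrite the cells `g-1, g, g+1` -/
def upd3 (f : ℤ → A) (g : ℤ) (x y z : A) : ℤ → A :=
  fun i => if i = g - 1 then x else if i = g then y else if i = g + 1 then z else f i

/-- one step -/
def FM.step (M : FM W A Q) (w : W) (c : Conf A Q) : Conf A Q :=
  let r := M.δ w c.q (c.f (c.g - 1)) (c.f c.g) (c.f (c.g + 1))
  ⟨r.1, upd3 c.f c.g r.2.1 r.2.2.1 r.2.2.2.1, c.g + ((r.2.2.2.2 : ℕ) : ℤ) - 1⟩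

/-- initial configuration -/
def FM.init (M : FM W A Q) : Conf A Q := ⟨M.q0, fun _ => M.a0, 0⟩

/-- run on a list of words -/
def FM.runL (M : FM W A Q) : Conf A Q → List W → Conf A Q
  | c, [] => c
  | c, w :: v => M.runL (M.step w c) v

/-- prefix of length `t` of a stream -/
def pre (u : ℕ → W) (t : ℕ) : List W := (List.range t).map u

/-- `M` with the output predicate `out` recognises in the limit, on complete texts, whether one
word is missing. -/
def FM.Learns (M : FM W A Q) (out : Q → Prop) : Prop :=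
  (∀ u : ℕ → W, Set.range u = Set.univ → ∃ T, ∀ t, T ≤ t → out (M.runL M.init (pre u t)).q) ∧
  (∀ (u : ℕ → W) (x : W), Set.range u = {x}ᶜ →
    ∃ T, ∀ t, T ≤ t → ¬ out (M.runL M.init (pre u t)).q)

/-- the head is in the closed interval `[l, r]` -/
def inI (l r : ℤ) (c : Conf A Q) : Prop := l ≤ c.g ∧ c.g ≤ r

instance (l r : ℤ) (c : Conf A Q) : Decidable (inI l r c) := by unfold inI; infer_instance

/-- messages exchanged at the ends of an interval: control state, side (left or not) and the
four cells around the two ends -/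
abbrev Msg (A Q : Type) := Q × Bool × A × A × A × A

/-- message of a configuration at the interval `[l, r]` -/
def msg (l r : ℤ) (c : Conf A Q) : Msg A Q :=
  (c.q, decide (c.g ≤ l), c.f (l - 1), c.f l, c.f r, c.f (r + 1))

/-- the list of messages at `[l, r]` while `M` reads a list of words starting from `c`: one
message (of the new configuration) for every step that leaves or enters the interval -/
def FM.msgs (M : FM W A Q) (l r : ℤ) : Conf A Q → List W → List (Msg A Q)
  | _, [] => []
  | c, w :: v =>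
    if (inI l r c ↔ inI l r (M.step w c)) then M.msgs l r (M.step w c) v
    else msg l r (M.step w c) :: M.msgs l r (M.step w c) v

/-- the words read while the head is in `[l, r]` -/
def FM.inw (M : FM W A Q) (l r : ℤ) : Conf A Q → List W → List W
  | _, [] => []
  | c, w :: v => if inI l r c then w :: M.inw l r (M.step w c) v else M.inw l r (M.step w c) v

/-- the words read while the head is outside `[l, r]` -/
def FM.outw (M : FM W A Q) (l r : ℤ) : Conf A Q → List W → List W
  | _, [] => []
  | c, w :: v => if inI l r c then M.outw l r (M.step w c) v else w :: M.outw l r (M.step w c) v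

/-- the number of steps that enter `[l, r]` -/
def FM.ent (M : FM W A Q) (l r : ℤ) : Conf A Q → List W → ℕ
  | _, [] => 0
  | c, w :: v =>
    (if ¬ inI l r c ∧ inI l r (M.step w c) then 1 else 0) + M.ent l r (M.step w c) v

/-- the inside parts at `[l, r]` agree -/
def simIn (l r : ℤ) (c c' : Conf A Q) : Prop :=
  (inI l r c ↔ inI l r c') ∧
  (inI l r c → c.q = c'.q ∧ c.g = c'.g ∧ ∀ i, l - 1 ≤ i → i ≤ r + 1 → c.f i = c'.f i) ∧
  (¬ inI l r c → ∀ i, l + 1 ≤ i → i ≤ r - 1 → c.f i = c'.f i)

/-- the outside parts at `[l, r]` agree -/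
def simOut (l r : ℤ) (c c' : Conf A Q) : Prop :=
  (inI l r c ↔ inI l r c') ∧
  (¬ inI l r c → c.q = c'.q ∧ c.g = c'.g ∧ ∀ i, (i ≤ l ∨ r ≤ i) → c.f i = c'.f i) ∧
  (inI l r c → ∀ i, (i < l - 1 ∨ r + 1 < i) → c.f i = c'.f i)

/-! ### Local description of an interval of length `K` -/

/-- local states of `[p, p+K-1]`: control state, the `K+2` cells `p-1, ..., p+K`, and the head
position minus `p-1` -/
abbrev Loc (K : ℕ) (A Q : Type) := Q × (Fin (K + 2) → A) × Fin (K + 2)

/-- local state of a configuration -/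
def res (K : ℕ) (p : ℤ) (c : Conf A Q) : Loc K A Q :=
  (c.q, fun i => c.f (p - 1 + ((i : ℕ) : ℤ)), Fin.ofNat (K + 2) (c.g - (p - 1)).toNat)

/-- a configuration with a given local state (for `p = 1`) -/
def FM.unres (M : FM W A Q) {K : ℕ} (ℓ : Loc K A Q) : Conf A Q :=
  ⟨ℓ.1, fun i => if h : i.toNat < K + 2 then (if 0 ≤ i then ℓ.2.1 ⟨i.toNat, h⟩ else M.a0)
    else M.a0, ((ℓ.2.2 : ℕ) : ℤ)⟩

/-- local step -/
def FM.lstep (M : FM W A Q) {K : ℕ} (w : W) (ℓ : Loc K A Q) : Loc K A Q :=
  res K 1 (M.step w (M.unres ℓ))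

/-- the head is inside -/
def Inside {K : ℕ} (ℓ : Loc K A Q) : Prop := 1 ≤ (ℓ.2.2 : ℕ) ∧ (ℓ.2.2 : ℕ) ≤ K

/-- message of a local state -/
def lmsg {K : ℕ} (ℓ : Loc K A Q) : Msg A Q :=
  (ℓ.1, decide ((ℓ.2.2 : ℕ) ≤ 1), ℓ.2.1 (Fin.ofNat (K + 2) 0), ℓ.2.1 (Fin.ofNat (K + 2) 1),
    ℓ.2.1 (Fin.ofNat (K + 2) K), ℓ.2.1 (Fin.ofNat (K + 2) (K + 1)))

/-- local state after an incoming message -/
def merge {K : ℕ} (ℓ : Loc K A Q) (m : Msg A Q) : Loc K A Q :=
  (m.1,
    fun j => if (j : ℕ) = 0 then m.2.2.1 else if (j : ℕ) = 1 then m.2.2.2.1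
      else if (j : ℕ) = K then m.2.2.2.2.1 else if (j : ℕ) = K + 1 then m.2.2.2.2.2
      else ℓ.2.1 j,
    if m.2.1 then Fin.ofNat (K + 2) 1 else Fin.ofNat (K + 2) K)

/-- histories of an interval: for every word read inside, either `none` (the head stays inside,
or this is the last word) or `some (mo, mi)`: the head leaves with message `mo` and comes back
with message `mi` -/
abbrev Hist (A Q : Type) := List (Option (Msg A Q × Msg A Q))

/-- `Acc ℓ o fin A`: starting in the local state `ℓ`, reading the words `A` inside, following the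
history `o`, the local evolution ends in `fin` -/
def FM.Acc (M : FM W A Q) {K : ℕ} : Loc K A Q → Hist A Q → Loc K A Q → List W → Prop
  | ℓ, [], fin, [] => ℓ = fin
  | _, [], _, _ :: _ => False
  | _, _ :: _, _, [] => False
  | ℓ, none :: o, fin, w :: v => Inside ℓ ∧ M.Acc (M.lstep w ℓ) o fin v
  | ℓ, some (mo, mi) :: o, fin, w :: v =>
    Inside ℓ ∧ ¬ Inside (M.lstep w ℓ) ∧ lmsg (M.lstep w ℓ) = mo ∧
      M.Acc (merge (M.lstep w ℓ) mi) o fin v

/-- number of excursions in a history -/
def exc (o : Hist A Q) : ℕ := o.countP (fun s => s.isSome)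

end Pool.Agent.T2H61.OT
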