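import Pool.Agent.T2H61.OT.Model
import Pool.Agent.T2H61.OT.Defs

/-!
# Project OT: statements of the packages on Turing machines and on the family

Package `X` : prove `theorem pX (dependencies) : S_X` in the file `T_X.lean`
(`import Pool.Agent.T2H61.OT.Stm2`, namespace `Pool.Agent.T2H61.OT`).
-/

namespace Pool.Agent.T2H61.OT

/-- FREG (50 min), the family is automatic.
Proof. `famI`: a DFA with the states start, binary, third letter, dead. The relation: the words
`conv e x` with `e ∈ famI`, `|x| = |e|`, `x.map some ≠ e` are exactly the words over the pairs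
`(some b, some y)` which are non-empty, whose first components are all `none` (as elements of
`Option Bool`), or all different from `none`, and in the second case `b ≠ some y` at some place.
A DFA with the states: start, third letter, binary and equal so far, binary and different, dead;
accepting: third letter, binary and different. (For equal lengths `conv e x` is the zip of the
mapped lists.) -/
def S_FREG : Prop :=
  Language.IsRegular famI ∧
  Language.IsRegular ({y | ∃ e ∈ famI, ∃ x ∈ famL e, y = conv e x} :
    Language (Option (Option Bool) × Option Bool))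

/-- FLRN (45 min), the family is learnable and satisfies the tell-tale condition.
Proof. For a finite list `σ` of words let `n` be the length of the last word (`0` if `σ = []`,
then conjecture `[none]`). If exactly one word `x` of length `n` is missing in `σ`, conjecture
`x.map some`, otherwise `none^n` (for `n = 0` conjecture `[none]`). On a text for `famL e` all
words have length `|e|`, and all finitely many words of the language have been seen from some
point on. Tell-tale: `D = famL e` (finite). -/
def S_FLRN : Prop := ∀ Fam : AutomaticFamily (Option Bool) Bool, Fam.I = famI → Fam.L = famL →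
  Learnable Fam ∧ TellTale Fam

/-- TLOC (40 min), locality and translation invariance on the work-tape.
Proof. Induction on `k` with `stp^[k+1] x = stp^[k] (stp x)`. -/
def S_TLOC : Prop := ∀ (β α : Type) (m : Machine β α) (k : ℕ) (x y : TConf m) (d : ℤ),
  x.st = y.st → x.t0 = y.t0 → x.h0 = y.h0 → y.h1 = x.h1 + d →
  (∀ i, |i - x.h1| ≤ k → y.t1 (i + d) = x.t1 i) →
  (m.stp^[k] x).st = (m.stp^[k] y).st ∧ (m.stp^[k] x).t0 = (m.stp^[k] y).t0 ∧
  (m.stp^[k] x).h0 = (m.stp^[k] y).h0 ∧ (m.stp^[k] y).h1 = (m.stp^[k] x).h1 + d ∧
  (∀ i, |i - x.h1| ≤ k → (m.stp^[k] y).t1 (i + d) = (m.stp^[k] x).t1 i) ∧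
  |(m.stp^[k] x).h1 - x.h1| ≤ k ∧
  (∀ i, (k : ℤ) < |i - x.h1| → (m.stp^[k] x).t1 i = x.t1 i)

/-- the block length -/
def blk (c n : ℕ) : ℕ := (c + 1) * (n + 1)

/-- the fat alphabet -/
abbrev FA {β α : Type} (m : Machine β α) (c n : ℕ) : Type := Fin (blk c n) → m.Γ

/-- the control states of the fat machine: base tape between `-a` and `n + a`, offset of the head
of the work-tape in its block -/
abbrev FQ {β α : Type} (m : Machine β α) (c a n : ℕ) : Type :=
  (Fin (n + 2 * a + 1) → Cell β α m.Mem) × Fin (blk c n)

/-- a configuration of the Turing machine is represented by a configuration of the fat machine -/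
def Rp {β α : Type} (m : Machine β α) (c a n : ℕ) (X : TConf m)
    (Y : Conf (FA m c n) (FQ m c a n)) : Prop :=
  (∀ i : ℤ, -(a : ℤ) ≤ i → i ≤ (n : ℤ) + a →
    X.t0 i = Y.q.1 (Fin.ofNat (n + 2 * a + 1) (i + a).toNat)) ∧
  (∀ i : ℤ, (i < -(a : ℤ) ∨ (n : ℤ) + a < i) → X.t0 i = (none, none, m.memBlank)) ∧
  (∀ (j : ℤ) (i : Fin (blk c n)), X.t1 ((blk c n : ℤ) * j + ((i : ℕ) : ℤ)) = Y.f j i) ∧
  X.h1 = (blk c n : ℤ) * Y.g + ((Y.q.2 : ℕ) : ℤ)

/-- TSIM (90 min; uses TLOC), simulation of the cycles by a fat machine.
Proof. Let `R = blk c n`, `k = c (n+1) < R`. `δ w (τ, o) x y z`: let `Y` be the configuration with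
state `start`, base tape given by `τ` (blank outside `[-a, n+a]`) loaded with the word
`List.ofFn w`, head `0`, work-tape with the blocks `x, y, z` on the cells `[-R, 0)`, `[0, R)`,
`[R, 2R)` and blank elsewhere, work head `o`; run `k` steps; read off the base tape on
`[-a, n+a]`, the three blocks, the offset `h1 mod R` and the move `h1 / R ∈ {-1, 0, 1}` (as
`|h1 - o| ≤ k < R`). By TLOC with the shift `d = R g` (the window `|i - o| ≤ k` is contained in
`[-R, 2R)`) the result is the true configuration after the cycle; outside `[-a, n+a]` the base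
tape is blank by `LinearTimeOn`. All words have length `n`, so `maxLen = n`. -/
def S_TSIM : Prop := ∀ (β α : Type) (m : Machine β α) (c a n : ℕ),
  ∃ M : FM (Fin n → α) (FA m c n) (FQ m c a n), ∀ u : ℕ → (Fin n → α),
    m.LinearTimeOn c a (fun k => List.ofFn (u k)) →
    ∀ t, Rp m c a n (m.run c (fun k => List.ofFn (u k)) t) (M.runL M.init (pre u t))

/-- TLRN (60 min; uses TSIM), a linear-time learner gives a fat machine that learns in the sense
of `FM.Learns`.
Proof. `out q` : the output track of `q.1` is `none^n`, i.e. the cell number `i + a` has output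
`some none` for `0 ≤ i < n` and `none` otherwise. If `u` has range `univ`, then
`k ↦ List.ofFn (u k)` is a text for `famL (none^n)`; the hypotheses `E k` satisfy
`famL (E k) = famL (none^n)` from some point on; as `E k ∈ famI` this implies `E k = none^n`
(lengths; an index `y.map some` does not generate `y`). If `u` has range `{x}ᶜ`, it gives a text
for `famL (x.map some)` (non-empty index as `1 ≤ n`), and eventually
`famL (E k) = famL (x.map some)`, so `E k ≠ none^n`. By `Rp` and `Output` the predicate `out`
after `k + 1` words says that `E k = none^n`. -/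
def S_TLRN : Prop := ∀ (Fam : AutomaticFamily (Option Bool) Bool)
  (m : Machine (Option Bool) Bool) (c a : ℕ), Fam.I = famI → Fam.L = famL →
  m.LinearTimeLearns c a Fam → ∀ n, 1 ≤ n →
  ∃ (M : FM (Fin n → Bool) (FA m c n) (FQ m c a n)) (out : FQ m c a n → Prop), M.Learns out

/-- TCRD (30 min), cardinalities.
Proof. `|FA| = |Γ|^((c+1)(n+1))`, `|FQ| = |Cell|^(n+2a+1) (c+1)(n+1)`; use `x ≤ 2^x` and
`n + 1 ≤ 2n`. -/
def S_TCRD : Prop := ∀ (m : Machine (Option Bool) Bool) (c a : ℕ), ∃ b : ℕ, ∀ n, 1 ≤ n →
  Nat.card (FA m c n) ≤ (2 ^ n) ^ b ∧ Nat.card (FQ m c a n) ≤ (2 ^ n) ^ b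

end Pool.Agent.T2H61.OT
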