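import Pool.Agent.T2H61.OT.Stm
import Pool.Agent.T2H61.OT.Stm2

namespace Pool.Agent.T2H61.OT

open Classical in
theorem pRES (hABS : S_ABS) (hTLRN : S_TLRN) (hTCRD : S_TCRD) (hFREG : S_FREG)
    (hFLRN : S_FLRN) :
    ∃ Fam : AutomaticFamily (Option Bool) Bool, Fam.I = famI ∧ Fam.L = famL ∧
      Learnable Fam ∧ TellTale Fam ∧
      ∀ (m : Machine (Option Bool) Bool) (c a : ℕ), ¬ m.LinearTimeLearns c a Fam := by
  refine ⟨⟨famI, famL, hFREG.1, hFREG.2⟩, rfl, rfl, (hFLRN _ rfl rfl).1, (hFLRN _ rfl rfl).2, ?_⟩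
  intro m c a hm
  obtain ⟨b, hb⟩ := hTCRD m c a
  obtain ⟨N0, hN0⟩ := hABS b
  obtain ⟨M, out, hM⟩ := hTLRN _ m c a rfl rfl hm (N0 + 1) (by omega)
  have i1 : Fintype m.Γ := m.finΓ
  have i2 : Fintype m.Mem := m.finMem
  have hW : Fintype.card (Fin (N0 + 1) → Bool) = 2 ^ (N0 + 1) := by simp
  obtain ⟨h1, h2⟩ := hb (N0 + 1) (by omega)
  rw [Nat.card_eq_fintype_card] at h1 h2
  refine hN0 (Fin (N0 + 1) → Bool) (FA m c (N0 + 1)) (FQ m c a (N0 + 1)) ?_ ?_ ?_ M out hM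
  · rw [hW]
    exact le_trans (by omega) (Nat.lt_two_pow_self (n := N0 + 1)).le
  · rw [hW]; exact h1
  · rw [hW]; exact h2

end Pool.Agent.T2H61.OT
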