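import Pool.Agent.T2H61.OT.Stm

/-!
# Project OT, package SEG
-/

namespace Pool.Agent.T2H61.OT

open Finset

private theorem SEG_pre_succ {W : Type} (u : ℕ → W) (t : ℕ) : pre u (t + 1) = pre u t ++ [u t] := by
  simp [pre, List.range_succ]

private theorem SEG_pre_split {W : Type} (u : ℕ → W) (a d : ℕ) :
    pre u (a + d) = pre u a ++ (List.range' a d).map u := by
  induction d with
  | zero => simp
  | succ d ih =>
    rw [← Nat.add_assoc, SEG_pre_succ, ih, List.range'_1_concat, List.map_append,
      List.append_assoc]
    simp

private theorem SEG_Ico (a d : ℕ) : Finset.Ico a (a + (d + 1)) =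
    insert (a + d) (Finset.Ico a (a + d)) := by
  ext x
  simp only [Finset.mem_Ico, Finset.mem_insert]
  omega

theorem pSEG (hAPP : S_APP) : S_SEG := by
  intro W A Q M u l r a a' ha
  obtain ⟨d, rfl⟩ := Nat.exists_eq_add_of_le ha
  rw [Nat.add_sub_cancel_left]
  clear ha
  induction d with
  | zero => simp [FM.inw, FM.ent]
  | succ d ih =>
    obtain ⟨ih1, ih2, s, ih3, ih4⟩ := ih
    obtain ⟨-, -, h3, -, h5, -, -⟩ := hAPP W A Q M (M.runL M.init (pre u a))
      ((List.range' a d).map u) [u (a + d)] l r
    have hrun : M.runL (M.runL M.init (pre u a)) ((List.range' a d).map u) =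
        M.runL M.init (pre u (a + d)) := by
      rw [SEG_pre_split, (hAPP W A Q M M.init (pre u a) _ l r).1]
    have hrun2 : M.runL M.init (pre u (a + d + 1)) =
        M.step (u (a + d)) (M.runL M.init (pre u (a + d))) := by
      rw [SEG_pre_succ, (hAPP W A Q M M.init (pre u (a + d)) _ l r).1]
      rfl
    have hnot : a + d ∉ Finset.Ico a (a + d) := by simp
    have hlist : (List.range' a (d + 1)).map u = (List.range' a d).map u ++ [u (a + d)] := by
      rw [List.range'_1_concat, List.map_append]
      rfl
    rw [hlist, h3, h5, hrun, SEG_Ico, Finset.filter_insert, Finset.filter_insert, hrun2]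
    refine ⟨?_, ?_, ?_⟩
    · rw [List.length_append, ih1]
      by_cases hI : inI l r (M.runL M.init (pre u (a + d)))
      · rw [if_pos hI, Finset.card_insert_of_notMem (by simp)]
        simp [FM.inw, hI]
      · rw [if_neg hI]
        simp [FM.inw, hI]
    · rw [ih2]
      by_cases hI : ¬ inI l r (M.runL M.init (pre u (a + d))) ∧
          inI l r (M.step (u (a + d)) (M.runL M.init (pre u (a + d))))
      · rw [if_pos hI, Finset.card_insert_of_notMem (by simp)]
        simp [FM.ent, hI]
      · rw [if_neg hI]
        simp only [FM.ent, if_neg hI, Nat.add_zero]
    · by_cases hI : inI l r (M.runL M.init (pre u (a + d)))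
      · have hw : M.inw l r (M.runL M.init (pre u (a + d))) [u (a + d)] = [u (a + d)] := by
          simp [FM.inw, hI]
        rw [hw]
        refine ⟨fun i => if i < (M.inw l r (M.runL M.init (pre u a))
          ((List.range' a d).map u)).length then s i else a + d, ?_, ?_⟩
        · intro i hi
          by_cases hi' : i < (M.inw l r (M.runL M.init (pre u a))
            ((List.range' a d).map u)).length
          · simp only [if_pos hi']
            obtain ⟨e1, e2, e3, e4⟩ := ih3 i hi'
            refine ⟨e1, by omega, e3, ?_⟩
            rw [List.getElem?_append_left hi', e4]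
          · simp only [if_neg hi']
            refine ⟨by omega, by omega, hI, ?_⟩
            rw [List.length_append, List.length_singleton] at hi
            have hi'' : i = (M.inw l r (M.runL M.init (pre u a))
              ((List.range' a d).map u)).length := by omega
            rw [hi'', List.getElem?_append_right le_rfl]
            simp
        · intro i j hij hj
          rw [List.length_append, List.length_singleton] at hj
          have hi' : i < (M.inw l r (M.runL M.init (pre u a))
            ((List.range' a d).map u)).length := by omega
          simp only [if_pos hi']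
          by_cases hj' : j < (M.inw l r (M.runL M.init (pre u a))
            ((List.range' a d).map u)).length
          · simp only [if_pos hj']
            exact ih4 i j hij hj'
          · simp only [if_neg hj']
            exact (ih3 i hi').2.1
      · have hw : M.inw l r (M.runL M.init (pre u (a + d))) [u (a + d)] = [] := by
          simp [FM.inw, hI]
        rw [hw, List.append_nil]
        refine ⟨s, ?_, ih4⟩
        intro i hi
        obtain ⟨e1, e2, e3, e4⟩ := ih3 i hi
        exact ⟨e1, by omega, e3, e4⟩

end Pool.Agent.T2H61.OT
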