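import Pool.Agent.T2H61.OT.Stm2

namespace Pool.Agent.T2H61.OT

theorem pTCRD : S_TCRD := by
  intro m c a
  have i1 : Fintype m.Γ := m.finΓ
  have i2 : Fintype m.Mem := m.finMem
  obtain ⟨γ, hγ⟩ : ∃ γ, γ = Nat.card m.Γ := ⟨_, rfl⟩
  obtain ⟨κ, hκ⟩ : ∃ κ, κ = Nat.card (Cell (Option Bool) Bool m.Mem) := ⟨_, rfl⟩
  refine ⟨2 * γ * (c + 1) + (κ * (2 * a + 2) + 2 * (c + 1)), ?_⟩
  intro n hn
  have hb : blk c n ≤ n * (2 * (c + 1)) := by
    unfold blk
    nlinarith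
  constructor
  · have h1 : Nat.card (FA m c n) = γ ^ blk c n := by
      unfold FA
      rw [Nat.card_fun, Nat.card_fin, ← hγ]
    rw [h1]
    calc γ ^ blk c n ≤ (2 ^ γ) ^ blk c n := Nat.pow_le_pow_left (Nat.lt_two_pow_self).le _
      _ = 2 ^ (γ * blk c n) := by rw [pow_mul]
      _ ≤ 2 ^ (n * (2 * γ * (c + 1) + (κ * (2 * a + 2) + 2 * (c + 1)))) := by
        apply Nat.pow_le_pow_right (by norm_num)
        calc γ * blk c n ≤ γ * (n * (2 * (c + 1))) := Nat.mul_le_mul_left _ hb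
          _ ≤ _ := by nlinarith [Nat.zero_le (n * (κ * (2 * a + 2) + 2 * (c + 1)))]
      _ = _ := by rw [pow_mul]
  · have h1 : Nat.card (FQ m c a n) = κ ^ (n + 2 * a + 1) * blk c n := by
      unfold FQ
      rw [Nat.card_prod, Nat.card_fun, Nat.card_fin, Nat.card_fin, ← hκ]
    rw [h1]
    calc κ ^ (n + 2 * a + 1) * blk c n
        ≤ (2 ^ κ) ^ (n + 2 * a + 1) * 2 ^ (blk c n) :=
          Nat.mul_le_mul (Nat.pow_le_pow_left (Nat.lt_two_pow_self).le _)
            (Nat.lt_two_pow_self).le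
      _ = 2 ^ (κ * (n + 2 * a + 1) + blk c n) := by rw [← pow_mul, ← pow_add]
      _ ≤ 2 ^ (n * (2 * γ * (c + 1) + (κ * (2 * a + 2) + 2 * (c + 1)))) := by
        apply Nat.pow_le_pow_right (by norm_num)
        have h2 : n + 2 * a + 1 ≤ n * (2 * a + 2) := by nlinarith
        calc κ * (n + 2 * a + 1) + blk c n
            ≤ κ * (n * (2 * a + 2)) + n * (2 * (c + 1)) :=
              Nat.add_le_add (Nat.mul_le_mul_left _ h2) hb
          _ ≤ _ := by nlinarith [Nat.zero_le (n * (2 * γ * (c + 1)))]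
      _ = _ := by rw [pow_mul]

end Pool.Agent.T2H61.OT
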