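import Pool.Agent.T2H61.OT.Stm2

namespace Pool.Agent.T2H61.OT

theorem TLOC_abs (a b : ℤ) (k : ℕ) : |a - b| ≤ k ↔ -(k : ℤ) ≤ a - b ∧ a - b ≤ k := abs_le

theorem pTLOC : S_TLOC := by
  intro β α m k
  induction k with
  | zero =>
    intro x y d h1 h2 h3 h4 h5
    simp only [Function.iterate_zero, id_eq]
    refine ⟨h1, h2, h3, h4, h5, by simp, fun i hi => trivial⟩
  | succ k ih =>
    intro x y d h1 h2 h3 h4 h5
    simp only [Function.iterate_succ, Function.comp_apply]
    have hread : y.t1 y.h1 = x.t1 x.h1 := by
      rw [h4]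
      exact h5 x.h1 (by simp; positivity)
    -- one step
    have hs : (m.stp x).st = (m.stp y).st ∧ (m.stp x).t0 = (m.stp y).t0 ∧
        (m.stp x).h0 = (m.stp y).h0 ∧ (m.stp y).h1 = (m.stp x).h1 + d ∧
        (∀ i, |i - x.h1| ≤ ((k + 1 : ℕ) : ℤ) → (m.stp y).t1 (i + d) = (m.stp x).t1 i) ∧
        |(m.stp x).h1 - x.h1| ≤ 1 ∧ (∀ i, i ≠ x.h1 → (m.stp x).t1 i = x.t1 i) := by
      by_cases hh : m.halt x.st
      · have hx : m.stp x = x := by unfold Machine.stp; rw [if_pos hh]
        have hy : m.stp y = y := by unfold Machine.stp; rw [← h1, if_pos hh]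
        rw [hx, hy]
        exact ⟨h1, h2, h3, h4, h5, by simp, fun _ _ => rfl⟩
      · have hh' : ¬ (m.halt y.st = true) := by rw [← h1]; exact hh
        unfold Machine.stp
        rw [if_neg hh, if_neg hh']
        simp only [← h1, ← h2, ← h3, hread]
        refine ⟨trivial, trivial, trivial, by rw [h4]; ring, ?_, ?_, ?_⟩
        · intro i hi
          by_cases hi0 : i = x.h1
          · rw [if_pos hi0, if_pos (by rw [h4, hi0])]
          · rw [if_neg hi0, if_neg (by rw [h4]; intro h; exact hi0 (by omega))]
            exact h5 i hi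
        · rw [abs_le]; constructor <;> omega
        · intro i hi
          rw [if_neg hi]
    obtain ⟨s1, s2, s3, s4, s5, s6, s7⟩ := hs
    rw [abs_le] at s6
    obtain ⟨r1, r2, r3, r4, r5, r6, r7⟩ := ih (m.stp x) (m.stp y) d s1 s2 s3 s4 (by
      intro i hi
      apply s5
      rw [abs_le] at hi ⊢
      push_cast
      constructor <;> omega)
    -- the same for y outside of its window
    obtain ⟨q1, q2, q3, q4, q5, q6, q7⟩ := ih (m.stp y) (m.stp x) (-d) s1.symm s2.symm s3.symm
      (by rw [s4]; ring) (by
      intro i hi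
      have := s5 (i + -d) (by
        rw [s4] at hi
        rw [abs_le] at hi ⊢
        push_cast
        constructor <;> omega)
      rw [← this]
      congr 1; ring)
    refine ⟨r1, r2, r3, r4, ?_, ?_, ?_⟩
    · intro i hi
      by_cases hw : |i - (m.stp x).h1| ≤ k
      · exact r5 i hw
      · rw [not_le] at hw
        rw [r7 i hw, q7 (i + d) (by rw [s4]; have : i + d - ((m.stp x).h1 + d) = i - (m.stp x).h1 := by ring
                                    rw [this]; exact hw)]
        exact s5 i hi
    · rw [abs_le] at r6 ⊢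
      push_cast
      constructor <;> omega
    · intro i hi
      rw [lt_abs] at hi
      push_cast at hi
      rw [r7 i (by rw [lt_abs]; omega)]
      apply s7
      intro h
      rw [h] at hi
      omega

end Pool.Agent.T2H61.OT
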