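import Pool.Agent.T2H61.OT.Stm2

/-!
# Package TLRN: a linear-time learner gives a fat machine that learns
-/

namespace Pool.Agent.T2H61.OT

open Finset

private lemma tl_map_ne {n : ℕ} (hn : 1 ≤ n) (x : List Bool) :
    x.map some ≠ List.replicate n (none : Option Bool) := by
  intro h
  have h1 : (none : Option Bool) ∈ List.replicate n (none : Option Bool) := by
    rw [List.mem_replicate]
    exact ⟨by omega, rfl⟩
  rw [← h, List.mem_map] at h1
  obtain ⟨b, _, hb⟩ := h1
  exact absurd hb (by simp)

private lemma tl_famL_rep {n : ℕ} (hn : 1 ≤ n) (x : List Bool) :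
    x ∈ famL (List.replicate n none) ↔ x.length = n := by
  show x.length = (List.replicate n (none : Option Bool)).length ∧ x.map some ≠ _ ↔ _
  rw [List.length_replicate]
  exact ⟨fun h => h.1, fun h => ⟨h, tl_map_ne hn x⟩⟩

private lemma tl_famL_map {n : ℕ} (y x : List Bool) (hy : y.length = n) :
    x ∈ famL (y.map some) ↔ x.length = n ∧ x ≠ y := by
  show x.length = (y.map some).length ∧ x.map some ≠ _ ↔ _
  rw [List.length_map, hy]
  constructor
  · rintro ⟨h1, h2⟩
    exact ⟨h1, fun h => h2 (by rw [h])⟩
  · rintro ⟨h1, h2⟩
    refine ⟨h1, fun h => h2 ?_⟩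
    exact List.map_injective_iff.mpr (Option.some_injective Bool) h

private lemma tl_exists_map (e : List (Option Bool)) (h : ∀ b ∈ e, b ≠ none) :
    ∃ y : List Bool, y.map some = e := by
  induction e with
  | nil => exact ⟨[], rfl⟩
  | cons b e ih =>
    obtain ⟨y, hy⟩ := ih (fun c hc => h c (List.mem_cons_of_mem _ hc))
    obtain ⟨c, hc⟩ := Option.ne_none_iff_exists'.mp (h b List.mem_cons_self)
    exact ⟨c :: y, by rw [List.map_cons, hy, hc]⟩

private lemma tl_unique {n : ℕ} (hn : 1 ≤ n) (e : List (Option Bool)) (he : e ∈ famI)
    (h : famL e = famL (List.replicate n none)) : e = List.replicate n none := by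
  have h1 : List.replicate n true ∈ famL (List.replicate n none) := by
    rw [tl_famL_rep hn]
    simp
  rw [← h] at h1
  have h2 : (List.replicate n true).length = e.length := h1.1
  rw [List.length_replicate] at h2
  rcases he.2 with h3 | h3
  · exact List.eq_replicate_iff.mpr ⟨h2.symm, h3⟩
  · exfalso
    obtain ⟨y, hy⟩ := tl_exists_map e h3
    have hyl : y.length = n := by
      rw [h2, ← hy, List.length_map]
    have h4 : y ∈ famL (List.replicate n none) := by
      rw [tl_famL_rep hn]
      exact hyl
    rw [← h] at h4
    exact h4.2 hy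

theorem pTLRN (hTSIM : S_TSIM) : S_TLRN := by
  intro Fam m c a hI hL hlearn n hn
  obtain ⟨M, hM⟩ := hTSIM (Option Bool) Bool m c a n
  -- the output predicate
  set out : FQ m c a n → Prop := fun q => ∀ i : ℤ, -(a : ℤ) ≤ i → i ≤ (n : ℤ) + a →
    (q.1 (Fin.ofNat (n + 2 * a + 1) (i + a).toNat)).2.1
      = if 0 ≤ i then (List.replicate n (none : Option Bool))[i.toNat]? else none with hout
  have key : ∀ (X : TConf m) (Y : Conf (FA m c n) (FQ m c a n)) (e : List (Option Bool)),
      Rp m c a n X Y → (∀ i : ℤ, (X.t0 i).2.1 = if 0 ≤ i then e[i.toNat]? else none) →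
      (out Y.q ↔ e = List.replicate n none) := by
    intro X Y e hR hX
    constructor
    · intro ho
      apply List.ext_getElem?
      intro j
      have hj := hX (j : ℤ)
      rw [if_pos (by positivity), Int.toNat_natCast] at hj
      rw [← hj]
      by_cases hjn : (j : ℤ) ≤ (n : ℤ) + a
      · rw [hR.1 j (by omega) hjn, ho j (by omega) hjn, if_pos (by positivity),
          Int.toNat_natCast]
      · rw [hR.2.1 j (Or.inr (by omega))]
        rw [List.getElem?_eq_none]
        rw [List.length_replicate]
        omega
    · intro he i h1 h2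
      rw [← hR.1 i h1 h2, hX i, he]
  refine ⟨M, out, ?_, ?_⟩
  · intro u hu
    have hmem : List.replicate n (none : Option Bool) ∈ Fam.I := by
      rw [hI]
      refine ⟨?_, Or.inl ?_⟩
      · intro h
        have := congrArg List.length h
        rw [List.length_replicate, List.length_nil] at this
        omega
      · intro b hb
        exact List.eq_of_mem_replicate hb
    have htext : IsText (fun k => List.ofFn (u k)) (Fam.L (List.replicate n none)) := by
      rw [hL]
      unfold IsText
      ext x
      have hx : x ∈ famL (List.replicate n none) ↔ x.length = n := tl_famL_rep hn x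
      constructor
      · rintro ⟨k, rfl⟩
        exact hx.mpr (List.length_ofFn)
      · intro h
        have hx' := hx.mp h
        subst hx'
        have : x.get ∈ Set.range u := by
          rw [hu]
          exact Set.mem_univ _
        obtain ⟨k, hk⟩ := this
        refine ⟨k, ?_⟩
        show List.ofFn (u k) = x
        rw [hk, List.ofFn_get]
    obtain ⟨hlin, E, hE1, hE2, k0, hk0⟩ := hlearn _ hmem _ htext
    refine ⟨k0 + 1, ?_⟩
    intro t ht
    obtain ⟨k, rfl⟩ : ∃ k, t = k + 1 := ⟨t - 1, by omega⟩
    rw [key _ _ (E k) (hM u hlin (k + 1)) (hE1 k)]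
    apply tl_unique hn
    · rw [← hI]
      exact hE2 k
    · have := hk0 k (by omega)
      rw [hL] at this
      exact this
  · intro u x hu
    have hmem : (List.ofFn x).map some ∈ Fam.I := by
      rw [hI]
      refine ⟨?_, Or.inr ?_⟩
      · intro h
        have := congrArg List.length h
        rw [List.length_map, List.length_ofFn, List.length_nil] at this
        omega
      · intro b hb
        rw [List.mem_map] at hb
        obtain ⟨d, _, rfl⟩ := hb
        simp
    have htext : IsText (fun k => List.ofFn (u k)) (Fam.L ((List.ofFn x).map some)) := by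
      rw [hL]
      unfold IsText
      ext y
      have hy : y ∈ famL ((List.ofFn x).map some) ↔ y.length = n ∧ y ≠ List.ofFn x :=
        tl_famL_map _ _ List.length_ofFn
      constructor
      · rintro ⟨k, rfl⟩
        apply hy.mpr
        refine ⟨List.length_ofFn, ?_⟩
        intro h
        have h2 : u k ∈ Set.range u := ⟨k, rfl⟩
        rw [hu] at h2
        exact h2 (List.ofFn_injective h)
      · intro h
        obtain ⟨h1, h2⟩ := hy.mp h
        subst h1
        have : y.get ∈ Set.range u := by
          rw [hu]
          intro h3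
          apply h2
          rw [Set.mem_singleton_iff] at h3
          exact (List.ofFn_get y).symm.trans (congrArg List.ofFn h3)
        obtain ⟨k, hk⟩ := this
        refine ⟨k, ?_⟩
        show List.ofFn (u k) = y
        rw [hk, List.ofFn_get]
    obtain ⟨hlin, E, hE1, hE2, k0, hk0⟩ := hlearn _ hmem _ htext
    refine ⟨k0 + 1, ?_⟩
    intro t ht
    obtain ⟨k, rfl⟩ : ∃ k, t = k + 1 := ⟨t - 1, by omega⟩
    rw [key _ _ (E k) (hM u hlin (k + 1)) (hE1 k)]
    intro hE
    have h1 := hk0 k (by omega)
    rw [hL, hE] at h1
    have h2 : List.ofFn x ∈ famL (List.replicate n none) :=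
      (tl_famL_rep hn _).mpr List.length_ofFn
    rw [h1] at h2
    exact ((tl_famL_map (n := n) (List.ofFn x) (List.ofFn x) List.length_ofFn).mp h2).2 rfl

end Pool.Agent.T2H61.OT
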