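import Pool.Agent.T2H61.OT.Stm2

set_option autoImplicit false

namespace Pool.Agent.T2H61.OT

namespace TSIM

section

variable {β α : Type} (m : Machine β α) (c a n : ℕ)

lemma blk_pos (c n : ℕ) : 0 < blk c n := by
  unfold blk
  positivity

lemma k_lt (c n : ℕ) : c * (n + 1) < blk c n := by
  unfold blk
  nlinarith

/-- the offset of a cell in its block -/
def off (c n : ℕ) (i : ℤ) : Fin (blk c n) :=
  ⟨(i % (blk c n : ℤ)).toNat, by
    have h0 : (0 : ℤ) < (blk c n : ℤ) := by exact_mod_cast blk_pos c n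
    have h1 := Int.emod_nonneg i (ne_of_gt h0)
    have h2 := Int.emod_lt_of_pos i h0
    omega⟩

lemma off_val (c n : ℕ) (i : ℤ) : ((off c n i : ℕ) : ℤ) = i % (blk c n : ℤ) := by
  have h0 : (0 : ℤ) < (blk c n : ℤ) := by exact_mod_cast blk_pos c n
  have h1 := Int.emod_nonneg i (ne_of_gt h0)
  exact Int.toNat_of_nonneg h1

lemma off_add (c n : ℕ) (j : ℤ) (i : Fin (blk c n)) :
    off c n ((blk c n : ℤ) * j + ((i : ℕ) : ℤ)) = i := by
  apply Fin.ext
  have h := off_val c n ((blk c n : ℤ) * j + ((i : ℕ) : ℤ))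
  rw [Int.mul_add_emod_self_left, Int.emod_eq_of_lt (by positivity) (by exact_mod_cast i.2)] at h
  exact_mod_cast h

/-- the base tape with the contents `τ` -/
def T0 (τ : Fin (n + 2 * a + 1) → Cell β α m.Mem) (i : ℤ) : Cell β α m.Mem :=
  if -(a : ℤ) ≤ i ∧ i ≤ (n : ℤ) + a then τ (Fin.ofNat (n + 2 * a + 1) (i + a).toNat)
  else (none, none, m.memBlank)

/-- the work-tape with three blocks -/
def T1 (x y z : FA m c n) (i : ℤ) : m.Γ :=
  if i / (blk c n : ℤ) = -1 then x (off c n i)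
  else if i / (blk c n : ℤ) = 0 then y (off c n i)
  else if i / (blk c n : ℤ) = 1 then z (off c n i)
  else m.blank

/-- the local configuration -/
def lc (w : List α) (q : FQ m c a n) (x y z : FA m c n) : TConf m :=
  m.load w ⟨m.start, T0 m a n q.1, 0, T1 m c n x y z, ((q.2 : ℕ) : ℤ)⟩

/-- the local configuration after the cycle -/
def lf (w : List α) (q : FQ m c a n) (x y z : FA m c n) : TConf m :=
  m.stp^[c * (n + 1)] (lc m c a n w q x y z)

/-- the fat machine -/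
def FMm : FM (Fin n → α) (FA m c n) (FQ m c a n) where
  q0 := (fun _ => (none, none, m.memBlank), ⟨0, blk_pos c n⟩)
  a0 := fun _ => m.blank
  δ := fun w q x y z =>
    let X := lf m c a n (List.ofFn w) q x y z
    ((fun i => X.t0 (((i : ℕ) : ℤ) - a), off c n X.h1),
      fun i => X.t1 (((i : ℕ) : ℤ) - blk c n), fun i => X.t1 ((i : ℕ) : ℤ),
      fun i => X.t1 (((i : ℕ) : ℤ) + blk c n), Fin.ofNat 3 (X.h1 / (blk c n : ℤ) + 1).toNat)

end

section

variable {β α : Type} {m : Machine β α} {c a n : ℕ}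

lemma runL_append (M : FM (Fin n → α) (FA m c n) (FQ m c a n)) (u : List (Fin n → α))
    (w : Fin n → α) (X : Conf (FA m c n) (FQ m c a n)) :
    M.runL X (u ++ [w]) = M.step w (M.runL X u) := by
  induction u generalizing X with
  | nil => rfl
  | cons v u ih => exact ih (M.step v X)

lemma maxLen_eq (u : ℕ → (Fin n → α)) (t : ℕ) :
    Machine.maxLen (fun k => List.ofFn (u k)) t = n := by
  unfold Machine.maxLen
  simp only [List.length_ofFn]
  exact Finset.sup_const ⟨0, by simp⟩ n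

/-- the contents of the work-tape -/
lemma rp_t1 {X : TConf m} {Y : Conf (FA m c n) (FQ m c a n)} (h : Rp m c a n X Y) (v : ℤ) :
    X.t1 v = Y.f (v / (blk c n : ℤ)) (off c n v) := by
  have h1 := h.2.2.1 (v / (blk c n : ℤ)) (off c n v)
  rw [off_val, Int.mul_ediv_add_emod] at h1
  exact h1

lemma rp_t0 {X : TConf m} {Y : Conf (FA m c n) (FQ m c a n)} (h : Rp m c a n X Y) (i : ℤ) :
    X.t0 i = T0 m a n Y.q.1 i := by
  unfold T0
  split_ifs with h1
  · exact h.1 i h1.1 h1.2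
  · exact h.2.1 i (by omega)

lemma step (hT : S_TLOC) {X : TConf m} {Y : Conf (FA m c n) (FQ m c a n)} (h : Rp m c a n X Y)
    (w : Fin n → α)
    (hb : ∀ i : ℤ, (i < -(a : ℤ) ∨ (n : ℤ) + a < i) →
      (m.stp^[c * (n + 1)] (m.load (List.ofFn w) X)).t0 i = (none, none, m.memBlank)) :
    Rp m c a n (m.stp^[c * (n + 1)] (m.load (List.ofFn w) X)) ((FMm m c a n).step w Y) := by
  obtain ⟨R, hR⟩ : ∃ R : ℤ, R = (blk c n : ℤ) := ⟨_, rfl⟩
  have hR0 : 0 < R := by rw [hR]; exact_mod_cast blk_pos c n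
  obtain ⟨k, hk⟩ : ∃ k : ℕ, k = c * (n + 1) := ⟨_, rfl⟩
  have hkR : (k : ℤ) < R := by rw [hk, hR]; exact_mod_cast k_lt c n
  obtain ⟨x, hx⟩ : ∃ x : TConf m, x = lc m c a n (List.ofFn w) Y.q (Y.f (Y.g - 1)) (Y.f Y.g)
    (Y.f (Y.g + 1)) := ⟨_, rfl⟩
  obtain ⟨y, hy⟩ : ∃ y : TConf m, y = m.load (List.ofFn w) X := ⟨_, rfl⟩
  have hx1 : x.h1 = ((Y.q.2 : ℕ) : ℤ) := by rw [hx]; rfl
  have hy1 : y.h1 = x.h1 + R * Y.g := by
    rw [hx1, hy, hR]
    change X.h1 = _
    rw [h.2.2.2]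
    ring
  have ho0 : 0 ≤ x.h1 := by rw [hx1]; positivity
  have hoR : x.h1 < R := by rw [hx1, hR]; exact_mod_cast Y.q.2.2
  have hxt : ∀ i, x.t1 i = T1 m c n (Y.f (Y.g - 1)) (Y.f Y.g) (Y.f (Y.g + 1)) i := by
    intro i; rw [hx]; rfl
  have hyt : ∀ i, y.t1 i = X.t1 i := by intro i; rw [hy]; rfl
  have hoff : ∀ i : ℤ, off c n (i + R * Y.g) = off c n i := by
    intro i
    apply Fin.ext
    have h1 := off_val c n (i + R * Y.g)
    have h2 := off_val c n i
    rw [hR, Int.add_mul_emod_self_left] at h1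
    have h3 : ((off c n (i + R * Y.g) : ℕ) : ℤ) = ((off c n i : ℕ) : ℤ) := by
      rw [hR, h1, h2]
    exact_mod_cast h3
  -- the work-tapes agree on three blocks
  have hblk : ∀ i : ℤ, (i / R = -1 ∨ i / R = 0 ∨ i / R = 1) → y.t1 (i + R * Y.g) = x.t1 i := by
    intro i hi
    rw [hyt, rp_t1 h, hoff, hxt, ← hR, Int.add_mul_ediv_left _ _ hR0.ne']
    unfold T1
    rw [← hR]
    rcases hi with hi | hi | hi
    · rw [if_pos hi, hi, show (-1 : ℤ) + Y.g = Y.g - 1 by ring]
    · rw [if_neg (by omega), if_pos hi, hi, show (0 : ℤ) + Y.g = Y.g by ring]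
    · rw [if_neg (by omega), if_neg (by omega), if_pos hi, hi, show (1 : ℤ) + Y.g = Y.g + 1 by ring]
  have hwin : ∀ i : ℤ, |i - x.h1| ≤ k → (i / R = -1 ∨ i / R = 0 ∨ i / R = 1) := by
    intro i hi
    rw [abs_le] at hi
    have h1 : -R < i := by linarith [hi.1]
    have h2 : i < 2 * R := by linarith [hi.2]
    have h3 : -1 ≤ i / R := by
      rw [Int.le_ediv_iff_mul_le hR0]
      linarith
    have h4 : i / R < 2 := by
      rw [Int.ediv_lt_iff_lt_mul hR0]
      linarith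
    omega
  have hloc := hT β α m k x y (R * Y.g) (by rw [hx, hy]; rfl) (by
    rw [hx, hy]
    funext i
    change ((if 0 ≤ i then (List.ofFn w)[i.toNat]? else none, (T0 m a n Y.q.1 i).2) :
      Cell β α m.Mem) = (if 0 ≤ i then (List.ofFn w)[i.toNat]? else none, (X.t0 i).2)
    rw [rp_t0 h]) (by rw [hx, hy]; rfl) hy1 (fun i hi => hblk i (hwin i hi))
  have hloc2 := hT β α m k y y 0 rfl rfl rfl (by ring) (fun i _ => by rw [add_zero])
  rw [← hk] at hb
  rw [← hk, ← hy]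
  rw [← hy] at hb
  obtain ⟨-, l2, -, l4, l5, l6, l7⟩ := hloc
  obtain ⟨-, -, -, -, -, -, k7⟩ := hloc2
  have hlf : lf m c a n (List.ofFn w) Y.q (Y.f (Y.g - 1)) (Y.f Y.g) (Y.f (Y.g + 1)) =
      m.stp^[k] x := by
    unfold lf
    rw [← hx, ← hk]
  obtain ⟨x', hx'⟩ : ∃ x' : TConf m, x' = m.stp^[k] x := ⟨_, rfl⟩
  obtain ⟨y', hy'⟩ : ∃ y' : TConf m, y' = m.stp^[k] y := ⟨_, rfl⟩
  rw [← hx'] at hlf l2 l4 l5 l6 l7
  rw [← hy'] at l2 l4 l5 k7 hb
  rw [← hy']
  have hdiv : x'.h1 / R = -1 ∨ x'.h1 / R = 0 ∨ x'.h1 / R = 1 := hwin _ l6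
  -- the new configuration of the fat machine
  have hq1 : ∀ i, ((FMm m c a n).step w Y).q.1 i = x'.t0 (((i : ℕ) : ℤ) - a) := by
    intro i; rw [← hlf]; rfl
  have hq2 : ((FMm m c a n).step w Y).q.2 = off c n x'.h1 := by rw [← hlf]; rfl
  have hf : ((FMm m c a n).step w Y).f = upd3 Y.f Y.g
      (fun i => x'.t1 (((i : ℕ) : ℤ) - blk c n)) (fun i => x'.t1 ((i : ℕ) : ℤ))
      (fun i => x'.t1 (((i : ℕ) : ℤ) + blk c n)) := by rw [← hlf]; rfl
  have hg : ((FMm m c a n).step w Y).g = Y.g + x'.h1 / R := by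
    have h1 : ((FMm m c a n).step w Y).g =
        Y.g + (((Fin.ofNat 3 (x'.h1 / R + 1).toNat : Fin 3) : ℕ) : ℤ) - 1 := by
      rw [← hlf, hR]; rfl
    rw [h1]
    rcases hdiv with h2 | h2 | h2
    · rw [h2]
      change Y.g + (0 : ℤ) - 1 = _
      ring
    · rw [h2]
      change Y.g + (1 : ℤ) - 1 = _
      ring
    · rw [h2]
      change Y.g + (2 : ℤ) - 1 = _
      ring
  refine ⟨?_, hb, ?_, ?_⟩
  · intro i hi1 hi2
    rw [hq1, ← l2]
    congr 1
    rw [Fin.val_ofNat, Nat.mod_eq_of_lt (by omega)]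
    omega
  · intro j i
    rw [hf, ← hR]
    have hi0 : (0 : ℤ) ≤ ((i : ℕ) : ℤ) := by positivity
    have hiR : ((i : ℕ) : ℤ) < R := by rw [hR]; exact_mod_cast i.2
    obtain ⟨v, hv⟩ : ∃ v : ℤ, v = R * (j - Y.g) + ((i : ℕ) : ℤ) := ⟨_, rfl⟩
    have hvv : R * j + ((i : ℕ) : ℤ) = v + R * Y.g := by rw [hv]; ring
    have hvd : v / R = j - Y.g := by
      rw [hv, add_comm, Int.add_mul_ediv_left _ _ hR0.ne', Int.ediv_eq_zero_of_lt hi0 hiR, zero_add]
    -- value of the old tape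
    have hold : y.t1 (R * j + ((i : ℕ) : ℤ)) = Y.f j i := by
      rw [hyt, hR]
      exact h.2.2.1 j i
    -- value of the new block
    have hnew : ∀ (e : ℤ), j - Y.g = e → (e = -1 ∨ e = 0 ∨ e = 1) →
        y'.t1 (R * j + ((i : ℕ) : ℤ)) = x'.t1 v := by
      intro e he he1
      by_cases hw : |v - x.h1| ≤ k
      · rw [hvv]
        exact l5 v hw
      · rw [l7 v (by omega), k7 _ (by
          rw [hvv, hy1]
          have e1 : v + R * Y.g - (x.h1 + R * Y.g) = v - x.h1 := by ring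
          rw [e1]
          omega), hvv]
        exact hblk v (by rw [hvd, he]; exact he1)
    unfold upd3
    by_cases h1 : j = Y.g - 1
    · rw [if_pos h1, hnew (-1) (by omega) (Or.inl rfl), hv, h1]
      congr 1
      ring
    · rw [if_neg h1]
      by_cases h2 : j = Y.g
      · rw [if_pos h2, hnew 0 (by omega) (Or.inr (Or.inl rfl)), hv, h2]
        congr 1
        ring
      · rw [if_neg h2]
        by_cases h3 : j = Y.g + 1
        · rw [if_pos h3, hnew 1 (by omega) (Or.inr (Or.inr rfl)), hv, h3]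
          congr 1
          ring
        · rw [if_neg h3]
          rw [k7, hold]
          rw [hvv, hy1]
          have e1 : v + R * Y.g - (x.h1 + R * Y.g) = v - x.h1 := by ring
          rw [e1]
          by_contra hw
          have := hwin v (by omega)
          rw [hvd] at this
          omega
  · rw [l4, hg, hq2, off_val, ← hR]
    have := Int.mul_ediv_add_emod x'.h1 R
    linarith

end

end TSIM

open TSIM in
theorem pTSIM (hT : S_TLOC) : S_TSIM := by
  intro β α m c a n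
  refine ⟨FMm m c a n, fun u hlin t => ?_⟩
  induction t with
  | zero =>
    refine ⟨fun i _ _ => rfl, fun i _ => rfl, fun j i => rfl, ?_⟩
    change (0 : ℤ) = (blk c n : ℤ) * 0 + ((0 : ℕ) : ℤ)
    simp
  | succ t ih =>
    have h1 : pre u (t + 1) = pre u t ++ [u t] := by
      unfold pre
      rw [List.range_succ, List.map_append]
      rfl
    have h2 : m.run c (fun k => List.ofFn (u k)) (t + 1) =
        m.stp^[c * (n + 1)] (m.load (List.ofFn (u t)) (m.run c (fun k => List.ofFn (u k)) t)) := by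
      change m.stp^[c * (Machine.maxLen (fun k => List.ofFn (u k)) t + 1)] _ = _
      rw [maxLen_eq]
    rw [h1, runL_append, h2]
    refine step hT ih (u t) ?_
    rw [← h2]
    have h3 := (hlin t).2
    rw [maxLen_eq] at h3
    exact h3

end Pool.Agent.T2H61.OT
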