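import Pool.Agent.T2H61.OT.Stm

/-!
# Project OT, package TXT
-/

namespace Pool.Agent.T2H61.OT

open Finset

private theorem TXT_pre_succ {W : Type} (u : ℕ → W) (t : ℕ) : pre u (t + 1) = pre u t ++ [u t] := by
  simp [pre, List.range_succ]

private theorem TXT_mem (hAPP : S_APP) {W A Q : Type} (M : FM W A Q) (u : ℕ → W) (l r : ℤ)
    (x : W) : ∀ T,
    (x ∈ M.inw l r M.init (pre u T) ↔
      ∃ t, t < T ∧ x = u t ∧ inI l r (M.runL M.init (pre u t))) ∧
    (x ∈ M.outw l r M.init (pre u T) ↔
      ∃ t, t < T ∧ x = u t ∧ ¬ inI l r (M.runL M.init (pre u t))) := by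
  intro T
  induction T with
  | zero => simp [pre, FM.inw, FM.outw]
  | succ T ih =>
    obtain ⟨-, -, h3, h4, -, -, -⟩ := hAPP W A Q M M.init (pre u T) [u T] l r
    rw [TXT_pre_succ, h3, h4, List.mem_append, List.mem_append, ih.1, ih.2]
    constructor
    · constructor
      · rintro (⟨t, h1, h2, h3⟩ | hx)
        · exact ⟨t, by omega, h2, h3⟩
        · by_cases hI : inI l r (M.runL M.init (pre u T))
          · simp only [FM.inw, if_pos hI, List.mem_singleton] at hx
            exact ⟨T, by omega, hx, hI⟩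
          · simp [FM.inw, if_neg hI] at hx
      · rintro ⟨t, h1, h2, h5⟩
        by_cases ht : t < T
        · exact Or.inl ⟨t, ht, h2, h5⟩
        · have ht' : t = T := by omega
          subst ht'
          right
          simp only [FM.inw, if_pos h5, List.mem_singleton]
          exact h2
    · constructor
      · rintro (⟨t, h1, h2, h3⟩ | hx)
        · exact ⟨t, by omega, h2, h3⟩
        · by_cases hI : inI l r (M.runL M.init (pre u T))
          · simp [FM.outw, if_pos hI] at hx
          · simp only [FM.outw, if_neg hI, List.mem_singleton] at hx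
            exact ⟨T, by omega, hx, hI⟩
      · rintro ⟨t, h1, h2, h5⟩
        by_cases ht : t < T
        · exact Or.inl ⟨t, ht, h2, h5⟩
        · have ht' : t = T := by omega
          subst ht'
          right
          simp only [FM.outw, if_neg h5, List.mem_singleton]
          exact h2

private theorem TXT_step {W A Q : Type} (M : FM W A Q) (l r : ℤ) (w : W) (d e : Conf A Q)
    (h : simOut l r d e) (he : ¬ inI l r e) (he' : ¬ inI l r (M.step w e)) :
    simOut l r (M.step w d) (M.step w e) := by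
  obtain ⟨h1, h2, h3⟩ := h
  have hd : ¬ inI l r d := fun hh => he (h1.1 hh)
  obtain ⟨e1, e2, e3⟩ := h2 hd
  have hg : e.g < l ∨ r < e.g := by
    by_contra hcon
    push Not at hcon
    exact he hcon
  have f1 : d.f (e.g - 1) = e.f (e.g - 1) := e3 _ (by omega)
  have f2 : d.f e.g = e.f e.g := e3 _ (by omega)
  have f3 : d.f (e.g + 1) = e.f (e.g + 1) := e3 _ (by omega)
  have hq : (M.step w d).q = (M.step w e).q := by
    simp only [FM.step, e1, e2, f1, f2, f3]
  have hgg : (M.step w d).g = (M.step w e).g := by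
    simp only [FM.step, e1, e2, f1, f2, f3]
  have hf : ∀ i, (i ≤ l ∨ r ≤ i) → (M.step w d).f i = (M.step w e).f i := by
    intro i hi
    simp only [FM.step, e1, e2, f1, f2, f3, upd3, e3 i hi]
  have hdd : ¬ inI l r (M.step w d) := by
    unfold inI at he' ⊢
    rw [hgg]
    exact he'
  refine ⟨⟨fun hh => absurd hh hdd, fun hh => absurd hh he'⟩, fun _ => ⟨hq, hgg, hf⟩, ?_⟩
  intro hh
  exact absurd hh hdd

theorem pTXT (hAPP : S_APP) (hMIX : S_MIX) (hAD1 : S_AD1) (hAD2 : S_AD2) (hCOV : S_COV) :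
    S_TXT := by
  intro W A Q P out z1 z2 T1 T2 e hL hT1 hT2 hesc hm hN1 hN2 he
  -- basic facts
  have htx : ∀ (z : P.U → Fin 4) (t : ℕ), P.tx z t = pre (P.st z) t :=
    fun z t => ((hAD1 W A Q P z).1 t).2
  have hpos : ∀ (z : P.U → Fin 4) (t : ℕ), |P.pos z t| ≤ t :=
    fun z t => (hAD1 W A Q P z).2.2.2.2.1 t
  have hposd : ∀ (z : P.U → Fin 4) (t : ℕ),
      (P.M.runL P.M.init (pre (P.st z) t)).g = P.pos z t := by
    intro z t
    rw [← htx]
    rfl
  have hB1 : P.B1 = (P.N : ℤ) + 1 := rfl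
  have hB2 : P.B2 = (P.N : ℤ) + P.K + 6 := rfl
  have hKpos : (2 : ℤ) ≤ (P.K : ℤ) := by exact_mod_cast P.hK
  have hN0 : (0 : ℤ) ≤ (P.N : ℤ) := Int.natCast_nonneg _
  have hIff : ∀ (z : P.U → Fin 4) (t : ℕ),
      inI (-P.B1) P.B1 (P.M.runL P.M.init (pre (P.st z) t)) ↔ |P.pos z t| ≤ P.B1 := by
    intro z t
    unfold inI
    rw [hposd, abs_le]
  obtain ⟨w, x2, x3, x4⟩ := hMIX W A Q P.M (-P.B1) P.B1 P.M.init (by rw [hB1]; linarith)
    (by
      constructor
      · show -P.B1 ≤ 0
        rw [hB1]; linarith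
      · show (0 : ℤ) ≤ P.B1
        rw [hB1]; linarith) (P.tx z1 T1) (P.tx z2 T2) hm
  -- the stream
  let σ : ℕ → W := fun t => if h : t < w.length then w[t] else P.st z2 (T2 + (t - w.length))
  have hσ1 : ∀ t (h : t < w.length), σ t = w[t] := fun t h => by simp only [σ, dif_pos h]
  have hσ2 : ∀ j, σ (w.length + j) = P.st z2 (T2 + j) := by
    intro j
    have : ¬ (w.length + j < w.length) := by omega
    simp only [σ, dif_neg this, Nat.add_sub_cancel_left]
  have hpreσ : pre σ w.length = w := by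
    apply List.ext_getElem
    · simp [pre]
    · intro i h1 h2
      simp only [pre, List.getElem_map, List.getElem_range]
      exact hσ1 i h2
  have hrun : ∀ j, simOut (-P.B1) P.B1 (P.M.runL P.M.init (pre σ (w.length + j)))
      (P.M.runL P.M.init (pre (P.st z2) (T2 + j))) := by
    intro j
    induction j with
    | zero =>
      rw [Nat.add_zero, Nat.add_zero, hpreσ, ← htx]
      exact x3
    | succ j ih =>
      rw [← Nat.add_assoc, ← Nat.add_assoc, TXT_pre_succ, TXT_pre_succ,
        (hAPP W A Q P.M P.M.init (pre σ (w.length + j)) _ 0 0).1,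
        (hAPP W A Q P.M P.M.init (pre (P.st z2) (T2 + j)) _ 0 0).1, hσ2]
      have ha : ¬ inI (-P.B1) P.B1 (P.M.runL P.M.init (pre (P.st z2) (T2 + j))) := by
        rw [hIff, not_le]
        exact hT2 _ (by omega)
      have hb : ¬ inI (-P.B1) P.B1 (P.M.runL P.M.init (pre (P.st z2) (T2 + j + 1))) := by
        rw [hIff, not_le]
        exact hT2 _ (by omega)
      rw [TXT_pre_succ, (hAPP W A Q P.M P.M.init (pre (P.st z2) (T2 + j)) _ 0 0).1] at hb
      exact TXT_step P.M _ _ _ _ _ ih ha hb
  have hq : ∀ j, (P.M.runL P.M.init (pre σ (w.length + j))).q =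
      (P.M.runL P.M.init (pre (P.st z2) (T2 + j))).q := by
    intro j
    obtain ⟨h1, h2, h3⟩ := hrun j
    have ha : ¬ inI (-P.B1) P.B1 (P.M.runL P.M.init (pre (P.st z2) (T2 + j))) := by
      rw [hIff, not_le]
      exact hT2 _ (by omega)
    exact (h2 (fun hh => ha (h1.1 hh))).1
  -- the text of z2 is complete
  have hcov := hCOV W A Q P z2 hesc
  obtain ⟨a1, a2, a3, a4, a5, a6, a7⟩ := hAD2 W A Q P z2
  obtain ⟨b1, b2, b3, b4, b5, b6, b7⟩ := hAD2 W A Q P z1
  have hfull : Set.range (P.st z2) = Set.univ := by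
    rw [Set.eq_univ_iff_forall]
    intro y
    by_cases hy : y ∈ P.S z2
    · obtain ⟨t, -, ht⟩ := a3 y hy
      exact ⟨t, ht⟩
    · obtain ⟨t, -, ht⟩ := hcov y (fun hh => hy (a7 hh))
      exact ⟨t, ht⟩
  have he0 : z2 e = 0 ∧ z1 e = 3 := (he e).2 rfl
  have heS1 : e.1 ∉ P.S z1 := fun hh => ((b5 e).1.1 hh) he0.2
  have heD2 : e.1 ∈ P.D z2 := (a5 e).2.2 he0.1
  have hrange : Set.range σ = {e.1}ᶜ := by
    ext y
    rw [Set.mem_compl_iff, Set.mem_singleton_iff]
    constructor
    · rintro ⟨t, rfl⟩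
      intro hte
      by_cases ht : t < w.length
      · rw [hσ1 t ht] at hte
        have hmem : w[t] ∈ w := List.getElem_mem ht
        rw [hte] at hmem
        rcases (x4 _).1 hmem with h | h
        · rw [htx] at h
          obtain ⟨t', -, h2, h3⟩ := (TXT_mem hAPP P.M (P.st z1) _ _ _ T1).1.1 h
          rw [hIff] at h3
          apply heS1
          rw [h2]
          apply b1
          rw [hB2]
          rw [hB1] at h3
          linarith
        · rw [htx] at h
          obtain ⟨t', -, h2, h3⟩ := (TXT_mem hAPP P.M (P.st z2) _ _ _ T2).2.1 h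
          rw [hIff, not_le] at h3
          have h4 := hpos z2 t'
          have h5 : (P.N : ℤ) ≤ (t' : ℤ) := by rw [hB1] at h3; linarith
          rw [h2] at heD2
          exact a2 t' (by exact_mod_cast h5) heD2
      · obtain ⟨j, rfl⟩ := Nat.exists_eq_add_of_le (not_lt.1 ht)
        rw [hσ2] at hte
        rw [← hte] at heD2
        exact a2 (T2 + j) (by omega) heD2
    · intro hy
      have hw : y ∈ w → y ∈ Set.range σ := by
        intro h
        obtain ⟨i, hi, rfl⟩ := List.getElem_of_mem h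
        exact ⟨i, hσ1 i hi⟩
      by_cases hy1 : y ∈ P.S z1
      · apply hw
        rw [x4]
        left
        obtain ⟨t, ht, hty⟩ := b3 y hy1
        rw [htx]
        refine (TXT_mem hAPP P.M (P.st z1) _ _ _ T1).1.2 ⟨t, by omega, hty.symm, ?_⟩
        rw [hIff]
        have h4 := hpos z1 t
        have h5 : (t : ℤ) < (P.N : ℤ) := by exact_mod_cast ht
        rw [hB1]
        linarith
      · have hyD : y ∉ P.D z2 := by
          rintro ⟨hyF, hz⟩
          have h1 : z1 ⟨y, hyF⟩ = 3 := by
            by_contra hcon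
            exact hy1 (((b5 ⟨y, hyF⟩).1).2 hcon)
          have h2 := (he ⟨y, hyF⟩).1 ⟨hz, h1⟩
          apply hy
          rw [← h2]
        obtain ⟨t, ht1, ht2⟩ := hcov y hyD
        by_cases htT : t < T2
        · apply hw
          rw [x4]
          right
          rw [htx]
          refine (TXT_mem hAPP P.M (P.st z2) _ _ _ T2).2.2 ⟨t, htT, ht2.symm, ?_⟩
          rw [hIff, not_le]
          exact ht1
        · obtain ⟨j, rfl⟩ := Nat.exists_eq_add_of_le (not_lt.1 htT)
          exact ⟨w.length + j, by rw [hσ2, ht2]⟩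
  obtain ⟨S1, hS1⟩ := hL.1 (P.st z2) hfull
  obtain ⟨S2, hS2⟩ := hL.2 σ e.1 hrange
  have h1 := hS1 (T2 + (S1 + S2)) (by omega)
  have h2 := hS2 (w.length + (S1 + S2)) (by omega)
  rw [hq] at h2
  exact h2 h1

end Pool.Agent.T2H61.OT
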