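import Pool.Agent.T2H61.OT.Stm

/-!
# Package UD: unique disjointness
-/

namespace Pool.Agent.T2H61.OT

open Finset

private lemma ud_sum_pow {V : Type} [Fintype V] [DecidableEq V] (Z : Finset (V → Fin 4))
    (Φ : (V → Fin 4) → Finset V) (a b : Fin 4) (hab : a ≠ b)
    (h1 : ∀ z ∈ Z, ∀ v ∈ Φ z, z v = a)
    (h2 : ∀ z ∈ Z, ∀ B ⊆ Φ z, Φ (fun v => if v ∈ B then b else z v) = Φ z) :
    ∑ z ∈ Z, 2 ^ (Φ z).card ≤ 4 ^ Fintype.card V := by
  have e1 : ∑ z ∈ Z, 2 ^ (Φ z).card = (Z.sigma (fun z => (Φ z).powerset)).card := by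
    rw [Finset.card_sigma]
    exact Finset.sum_congr rfl (fun z _ => (Finset.card_powerset _).symm)
  have e2 : (univ : Finset (V → Fin 4)).card = 4 ^ Fintype.card V := by
    rw [Finset.card_univ, Fintype.card_fun, Fintype.card_fin]
  rw [e1, ← e2]
  apply Finset.card_le_card_of_injOn
    (fun x : (Σ _ : (V → Fin 4), Finset V) => (fun v => if v ∈ x.2 then b else x.1 v))
  · intro x _
    exact Finset.mem_coe.mpr (Finset.mem_univ _)
  · rintro ⟨z, B⟩ hx ⟨w, C⟩ hy h
    rw [Finset.mem_coe, Finset.mem_sigma, Finset.mem_powerset] at hx hy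
    obtain ⟨hz, hB⟩ := hx
    obtain ⟨hw, hC⟩ := hy
    simp only at hz hB hw hC h
    have hΦ : Φ z = Φ w := by
      rw [← h2 z hz B hB, ← h2 w hw C hC, h]
    have hBC : B = C := by
      ext v
      constructor
      · intro hv
        by_contra hv'
        have e := congrFun h v
        simp only [if_pos hv, if_neg hv'] at e
        have := h1 w hw v (hΦ ▸ hB hv)
        exact hab (this.symm.trans e.symm)
      · intro hv
        by_contra hv'
        have e := congrFun h v
        simp only [if_pos hv, if_neg hv'] at e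
        have := h1 z hz v (hΦ.symm ▸ hC hv)
        exact hab (this.symm.trans e)
    subst hBC
    have hzw : z = w := by
      ext v
      by_cases hv : v ∈ Φ z
      · rw [h1 z hz v hv, h1 w hw v (hΦ ▸ hv)]
      · have hv' : v ∉ B := fun h' => hv (hB h')
        have e := congrFun h v
        simp only [if_neg hv'] at e
        rw [e]
    subst hzw
    rfl

private lemma ud_pow (r m : ℕ) : 2 ^ r * m ≤ 2 ^ r * r + 2 ^ m := by
  rcases le_total m r with h | h
  · have : 2 ^ r * m ≤ 2 ^ r * r := Nat.mul_le_mul_left _ h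
    exact this.trans (Nat.le_add_right _ _)
  · obtain ⟨k, rfl⟩ := Nat.exists_eq_add_of_le h
    have h1 : k < 2 ^ k := Nat.lt_two_pow_self
    have h2 : 2 ^ r * k ≤ 2 ^ r * 2 ^ k := Nat.mul_le_mul_left _ h1.le
    rw [pow_add, mul_add]
    omega

private lemma ud_seven {V : Type} [Fintype V] [DecidableEq V] :
    ∑ z : V → Fin 4, 2 ^ (univ.filter (fun v => z v ≠ 1)).card = 7 ^ Fintype.card V := by
  have h : ∀ z : V → Fin 4, 2 ^ (univ.filter (fun v => z v ≠ 1)).card
      = ∏ v : V, (if z v ≠ 1 then 2 else 1) := by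
    intro z
    rw [Finset.prod_ite, Finset.prod_const, Finset.prod_const_one, mul_one]
  rw [Finset.sum_congr rfl (fun z _ => h z)]
  have h3 := Finset.prod_univ_sum (fun _ : V => (univ : Finset (Fin 4)))
    (fun (_ : V) (a : Fin 4) => (if a ≠ 1 then 2 else 1 : ℕ))
  rw [Fintype.piFinset_univ] at h3
  rw [← h3]
  have h4 : ∑ a : Fin 4, (if a ≠ 1 then 2 else 1 : ℕ) = 7 := by decide
  rw [Finset.prod_congr rfl (fun v _ => h4), Finset.prod_const, Finset.card_univ]

private lemma ud_num (lam n : ℕ) (h : 100 * (lam + 2) ≤ n) :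
    2 ^ (5 * lam + 5) * 7 ^ n < 8 ^ n := by
  obtain ⟨k, rfl⟩ := Nat.exists_eq_add_of_le h
  have h1 : (2 : ℕ) ^ 9 * 7 ^ 100 ≤ 8 ^ 100 := by norm_num
  have h2 : ((2 : ℕ) ^ 9 * 7 ^ 100) ^ (lam + 2) ≤ (8 ^ 100) ^ (lam + 2) :=
    Nat.pow_le_pow_left h1 _
  rw [mul_pow, ← pow_mul, ← pow_mul, ← pow_mul] at h2
  have h3 : (7 : ℕ) ^ k ≤ 8 ^ k := Nat.pow_le_pow_left (by norm_num) _
  have h4 : (2 : ℕ) ^ (5 * lam + 5) < 2 ^ (9 * (lam + 2)) :=
    Nat.pow_lt_pow_right (by norm_num) (by omega)
  have h5 : 0 < (7 : ℕ) ^ (100 * (lam + 2)) * 7 ^ k := by positivity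
  calc 2 ^ (5 * lam + 5) * 7 ^ (100 * (lam + 2) + k)
      = 2 ^ (5 * lam + 5) * (7 ^ (100 * (lam + 2)) * 7 ^ k) := by
        rw [pow_add 7 (100 * (lam + 2)) k]
    _ < 2 ^ (9 * (lam + 2)) * (7 ^ (100 * (lam + 2)) * 7 ^ k) :=
        Nat.mul_lt_mul_of_pos_right h4 h5
    _ = (2 ^ (9 * (lam + 2)) * 7 ^ (100 * (lam + 2))) * 7 ^ k := by ring
    _ ≤ 8 ^ (100 * (lam + 2)) * 8 ^ k := Nat.mul_le_mul h2 h3
    _ = 8 ^ (100 * (lam + 2) + k) := by rw [pow_add]

private lemma ud_fin (a : Fin 4) : a = 0 ∨ a = 1 ∨ a = 2 ∨ a = 3 := by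
  revert a
  decide

theorem pUD : S_UD := by
  classical
  intro V _ _ lam Z hn hZ
  by_contra hcon
  push Not at hcon
  set n := Fintype.card V with hndef
  -- the sets
  set D : (V → Fin 4) → Finset V := fun z => univ.filter (fun v => z v = 0) with hD
  set S : (V → Fin 4) → Finset V := fun z => univ.filter (fun v => z v ≠ 3) with hS
  set T : (V → Fin 4) → Finset V := fun z => univ.filter (fun v => z v = 0 ∨ z v = 1) with hT
  have mD : ∀ z v, v ∈ D z ↔ z v = 0 := fun z v => by simp [D]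
  have mS : ∀ z v, v ∈ S z ↔ z v ≠ 3 := fun z v => by simp [S]
  have mT : ∀ z v, v ∈ T z ↔ (z v = 0 ∨ z v = 1) := fun z v => by simp [T]
  set Z' : Finset (V → Fin 4) := univ.filter (fun z => D z ∈ Z.image D ∧ S z ∈ Z.image S) with hZ'
  have mZ' : ∀ z, z ∈ Z' ↔ (D z ∈ Z.image D ∧ S z ∈ Z.image S) := fun z => by
    simp only [Z', mem_filter, mem_univ, true_and]
  have hsub : Z ⊆ Z' := by
    intro z hz
    rw [mZ']
    exact ⟨Finset.mem_image_of_mem D hz, Finset.mem_image_of_mem S hz⟩
  -- the two sets of exceptional places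
  set ΦD : (V → Fin 4) → Finset V := fun z =>
    (T z).filter (fun i => ∀ E ∈ Z.image D, E ⊆ T z → i ∉ E) with hΦD
  set ΦS : (V → Fin 4) → Finset V := fun z =>
    (univ.filter (fun i => i ∉ T z)).filter (fun i => ∀ E ∈ Z.image S, T z ⊆ E → i ∈ E) with hΦS
  have mΦD : ∀ z v, v ∈ ΦD z ↔ (v ∈ T z ∧ ∀ E ∈ Z.image D, E ⊆ T z → v ∉ E) := fun z v => by
    simp only [ΦD, mem_filter]
  have mΦS : ∀ z v, v ∈ ΦS z ↔ (v ∉ T z ∧ ∀ E ∈ Z.image S, T z ⊆ E → v ∈ E) := fun z v => by
    simp only [ΦS, mem_filter, mem_univ, true_and]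
  have congD : ∀ z w, T z = T w → ΦD z = ΦD w := by
    intro z w h
    ext v
    rw [mΦD, mΦD, h]
  have congS : ∀ z w, T z = T w → ΦS z = ΦS w := by
    intro z w h
    ext v
    rw [mΦS, mΦS, h]
  have hDT : ∀ z, D z ⊆ T z := by
    intro z v hv
    rw [mD] at hv
    rw [mT]
    exact Or.inl hv
  have hTS : ∀ z, T z ⊆ S z := by
    intro z v hv
    rw [mT] at hv
    rw [mS]
    rcases hv with h | h <;> rw [h] <;> decide
  have onD : ∀ z ∈ Z', ∀ v ∈ ΦD z, z v = 1 := by
    intro z hz v hv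
    rw [mΦD, mT] at hv
    rw [mZ'] at hz
    have h1 := hv.2 (D z) hz.1 (hDT z)
    rw [mD] at h1
    rcases hv.1 with h | h
    · exact absurd h h1
    · exact h
  have onS : ∀ z ∈ Z', ∀ v ∈ ΦS z, z v = 2 := by
    intro z hz v hv
    rw [mΦS, mT] at hv
    rw [mZ'] at hz
    have h1 := hv.2 (S z) hz.2 (hTS z)
    rw [mS] at h1
    rcases ud_fin (z v) with h | h | h | h
    · exact absurd (Or.inl h) hv.1
    · exact absurd (Or.inr h) hv.1
    · exact h
    · exact absurd h h1
  have sumD : ∑ z ∈ Z', 2 ^ (ΦD z).card ≤ 4 ^ n := by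
    apply ud_sum_pow Z' ΦD 1 0 (by decide) onD
    intro z hz B hB
    apply congD
    ext v
    rw [mT, mT]
    by_cases hv : v ∈ B
    · have := onD z hz v (hB hv)
      simp [hv, this]
    · simp [hv]
  have sumS : ∑ z ∈ Z', 2 ^ (ΦS z).card ≤ 4 ^ n := by
    apply ud_sum_pow Z' ΦS 2 3 (by decide) onS
    intro z hz B hB
    apply congS
    ext v
    rw [mT, mT]
    by_cases hv : v ∈ B
    · have := onS z hz v (hB hv)
      simp [hv, this]
    · simp [hv]
  -- the ones
  set O : (V → Fin 4) → Finset V := fun z => univ.filter (fun v => z v = 1) with hO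
  have mO : ∀ z v, v ∈ O z ↔ z v = 1 := fun z v => by simp [O]
  have hones : ∑ z ∈ Z', (O z).card ≤ ∑ z ∈ Z', (ΦD z).card + ∑ z ∈ Z', (ΦS z).card := by
    have h1 : ∀ z ∈ Z', (O z).card ≤ (ΦD z).card + ((O z).filter (fun i => i ∉ ΦD z)).card := by
      intro z _
      have e := Finset.card_filter_add_card_filter_not (s := O z) (fun i => i ∈ ΦD z)
      have e2 : ((O z).filter (fun i => i ∈ ΦD z)).card ≤ (ΦD z).card := by
        apply Finset.card_le_card
        intro v hv
        exact (Finset.mem_filter.mp hv).2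
      omega
    have h2 : ∑ z ∈ Z', ((O z).filter (fun i => i ∉ ΦD z)).card ≤ ∑ z ∈ Z', (ΦS z).card := by
      rw [← Finset.card_sigma, ← Finset.card_sigma]
      apply Finset.card_le_card_of_injOn
        (fun x : (Σ _ : (V → Fin 4), V) => ⟨Function.update x.1 x.2 2, x.2⟩)
      · rintro ⟨z, i⟩ hx
        rw [Finset.mem_coe, Finset.mem_sigma] at hx
        obtain ⟨hz, hi⟩ := hx
        obtain ⟨hi1, hi2⟩ := Finset.mem_filter.mp hi
        simp only at hz hi1 hi2
        rw [mO] at hi1
        rw [Finset.mem_coe, Finset.mem_sigma]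
        simp only
        have hDz : D (Function.update z i 2) = D z := by
          ext v
          rw [mD, mD]
          by_cases hv : v = i
          · subst hv
            rw [Function.update_self, hi1]
            decide
          · rw [Function.update_of_ne hv]
        have hSz : S (Function.update z i 2) = S z := by
          ext v
          rw [mS, mS]
          by_cases hv : v = i
          · subst hv
            rw [Function.update_self, hi1]
            decide
          · rw [Function.update_of_ne hv]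
        refine ⟨?_, ?_⟩
        · rw [mZ', hDz, hSz]
          exact (mZ' z).mp hz
        · rw [mΦS]
          refine ⟨?_, ?_⟩
          · rw [mT, Function.update_self]
            decide
          · intro E hE hTE
            by_contra hiE
            rw [mΦD] at hi2
            have hiT : i ∈ T z := by
              rw [mT]
              exact Or.inr hi1
            have : ∃ E' ∈ Z.image D, E' ⊆ T z ∧ i ∈ E' := by
              by_contra hno
              push Not at hno
              exact hi2 ⟨hiT, fun E' h1 h2 => hno E' h1 h2⟩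
            obtain ⟨E', hE', hE'T, hiE'⟩ := this
            rw [Finset.mem_image] at hE hE'
            obtain ⟨z1, hz1, rfl⟩ := hE
            obtain ⟨z2, hz2, rfl⟩ := hE'
            obtain ⟨v, hv⟩ := hcon z1 hz1 z2 hz2 i
            rcases hv with ⟨⟨h3, h4⟩, h5⟩ | ⟨h3, h4⟩
            · have h6 : v ∈ T z := hE'T ((mD z2 v).mpr h3)
              have h7 : v ∈ T (Function.update z i 2) := by
                rw [mT, Function.update_of_ne h5]
                exact (mT z v).mp h6
              have h8 := hTE h7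
              rw [mS] at h8
              exact h8 h4
            · subst h4
              rw [mD] at hiE'
              rw [mS, not_not] at hiE
              exact h3 hiE' hiE
      · rintro ⟨z, i⟩ hx ⟨w, j⟩ hy h
        rw [Finset.mem_coe, Finset.mem_sigma] at hx hy
        obtain ⟨hz, hi⟩ := hx
        obtain ⟨hw, hj⟩ := hy
        obtain ⟨hi1, hi2⟩ := Finset.mem_filter.mp hi
        obtain ⟨hj1, hj2⟩ := Finset.mem_filter.mp hj
        simp only at hz hi1 hi2 hw hj1 hj2 h
        rw [mO] at hi1 hj1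
        have hij : i = j := by
          have := congrArg Sigma.snd h
          simpa using this
        subst hij
        have hzw : z = w := by
          have h3 : Function.update z i (2 : Fin 4) = Function.update w i 2 := by
            have := congrArg Sigma.fst h
            simpa using this
          ext v
          by_cases hv : v = i
          · subst hv
            rw [hi1, hj1]
          · have := congrFun h3 v
            rw [Function.update_of_ne hv, Function.update_of_ne hv] at this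
            rw [this]
        subst hzw
        rfl
    calc ∑ z ∈ Z', (O z).card
        ≤ ∑ z ∈ Z', ((ΦD z).card + ((O z).filter (fun i => i ∉ ΦD z)).card) :=
          Finset.sum_le_sum h1
      _ = ∑ z ∈ Z', (ΦD z).card + ∑ z ∈ Z', ((O z).filter (fun i => i ∉ ΦD z)).card :=
          Finset.sum_add_distrib
      _ ≤ _ := by omega
  -- moments
  have mom : ∀ Φ : (V → Fin 4) → Finset V, ∑ z ∈ Z', 2 ^ (Φ z).card ≤ 4 ^ n →
      2 ^ lam * ∑ z ∈ Z', (Φ z).card ≤ 2 ^ lam * lam * Z'.card + 4 ^ n := by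
    intro Φ hΦ
    rw [Finset.mul_sum]
    calc ∑ z ∈ Z', 2 ^ lam * (Φ z).card ≤ ∑ z ∈ Z', (2 ^ lam * lam + 2 ^ (Φ z).card) :=
          Finset.sum_le_sum (fun z _ => ud_pow lam _)
      _ = 2 ^ lam * lam * Z'.card + ∑ z ∈ Z', 2 ^ (Φ z).card := by
          rw [Finset.sum_add_distrib, Finset.sum_const, smul_eq_mul]
          ring
      _ ≤ _ := by omega
  have mD' := mom ΦD sumD
  have mS' := mom ΦS sumS
  have hZZ' : Z.card ≤ Z'.card := Finset.card_le_card hsub
  have h4 : 4 ^ n ≤ 2 ^ lam * Z'.card := hZ.trans (Nat.mul_le_mul_left _ hZZ')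
  have hup : ∑ z ∈ Z', (O z).card ≤ (2 * lam + 2) * Z'.card := by
    have h5 : 2 ^ lam * ∑ z ∈ Z', (O z).card ≤ 2 ^ lam * ((2 * lam + 2) * Z'.card) := by
      calc 2 ^ lam * ∑ z ∈ Z', (O z).card
          ≤ 2 ^ lam * (∑ z ∈ Z', (ΦD z).card + ∑ z ∈ Z', (ΦS z).card) :=
            Nat.mul_le_mul_left _ hones
        _ = 2 ^ lam * ∑ z ∈ Z', (ΦD z).card + 2 ^ lam * ∑ z ∈ Z', (ΦS z).card := by ring
        _ ≤ (2 ^ lam * lam * Z'.card + 4 ^ n) + (2 ^ lam * lam * Z'.card + 4 ^ n) :=
            Nat.add_le_add mD' mS'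
        _ ≤ (2 ^ lam * lam * Z'.card + 2 ^ lam * Z'.card)
            + (2 ^ lam * lam * Z'.card + 2 ^ lam * Z'.card) := by omega
        _ = 2 ^ lam * ((2 * lam + 2) * Z'.card) := by ring
    exact Nat.le_of_mul_le_mul_left h5 (by positivity)
  -- lower bound
  set L := 4 * lam + 4 with hL
  have hlow : L * 2 ^ n * Z'.card ≤ 2 ^ n * ∑ z ∈ Z', (O z).card + L * 2 ^ L * 7 ^ n := by
    have h6 : ∀ z : V → Fin 4, L * 2 ^ n ≤ 2 ^ n * (O z).card
        + L * 2 ^ L * 2 ^ (univ.filter (fun v => z v ≠ 1)).card := by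
      intro z
      rcases le_total L (O z).card with h | h
      · have : L * 2 ^ n ≤ 2 ^ n * (O z).card := by
          rw [mul_comm]
          exact Nat.mul_le_mul_left _ h
        omega
      · have e := Finset.card_filter_add_card_filter_not (s := (univ : Finset V))
          (fun v => z v = 1)
        rw [Finset.card_univ, ← hndef] at e
        have e2 : (O z).card + (univ.filter (fun v => z v ≠ 1)).card = n := e
        have e3 : 2 ^ n ≤ 2 ^ L * 2 ^ (univ.filter (fun v => z v ≠ 1)).card := by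
          rw [← pow_add]
          exact Nat.pow_le_pow_right (by norm_num) (by omega)
        calc L * 2 ^ n ≤ L * (2 ^ L * 2 ^ (univ.filter (fun v => z v ≠ 1)).card) :=
              Nat.mul_le_mul_left _ e3
          _ = L * 2 ^ L * 2 ^ (univ.filter (fun v => z v ≠ 1)).card := by ring
          _ ≤ _ := Nat.le_add_left _ _
    have h7 : ∑ z ∈ Z', 2 ^ (univ.filter (fun v => z v ≠ 1)).card ≤ 7 ^ n := by
      rw [hndef, ← ud_seven]
      exact Finset.sum_le_sum_of_subset (Finset.subset_univ _)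
    calc L * 2 ^ n * Z'.card = ∑ z ∈ Z', L * 2 ^ n := by
          rw [Finset.sum_const, smul_eq_mul]
          ring
      _ ≤ ∑ z ∈ Z', (2 ^ n * (O z).card
          + L * 2 ^ L * 2 ^ (univ.filter (fun v => z v ≠ 1)).card) :=
          Finset.sum_le_sum (fun z _ => h6 z)
      _ = 2 ^ n * ∑ z ∈ Z', (O z).card
          + L * 2 ^ L * ∑ z ∈ Z', 2 ^ (univ.filter (fun v => z v ≠ 1)).card := by
          rw [Finset.sum_add_distrib, Finset.mul_sum, Finset.mul_sum]
      _ ≤ _ := Nat.add_le_add_left (Nat.mul_le_mul_left _ h7) _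
  have h8 : (2 * lam + 2) * 2 ^ n * Z'.card ≤ L * 2 ^ L * 7 ^ n := by
    have h9 : 2 ^ n * ∑ z ∈ Z', (O z).card ≤ 2 ^ n * ((2 * lam + 2) * Z'.card) :=
      Nat.mul_le_mul_left _ hup
    have h10 : L * 2 ^ n * Z'.card = (2 * lam + 2) * 2 ^ n * Z'.card
        + 2 ^ n * ((2 * lam + 2) * Z'.card) := by
      rw [hL]
      ring
    omega
  have h11 : (2 * lam + 2) * 8 ^ n ≤ (2 * lam + 2) * (2 ^ (5 * lam + 5) * 7 ^ n) := by
    calc (2 * lam + 2) * 8 ^ n = (2 * lam + 2) * 2 ^ n * 4 ^ n := by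
          have : (8 : ℕ) ^ n = 2 ^ n * 4 ^ n := by
            rw [← mul_pow]
            norm_num
          rw [this]
          ring
      _ ≤ (2 * lam + 2) * 2 ^ n * (2 ^ lam * Z'.card) := Nat.mul_le_mul_left _ h4
      _ = 2 ^ lam * ((2 * lam + 2) * 2 ^ n * Z'.card) := by ring
      _ ≤ 2 ^ lam * (L * 2 ^ L * 7 ^ n) := Nat.mul_le_mul_left _ h8
      _ = (2 * lam + 2) * (2 ^ (5 * lam + 5) * 7 ^ n) := by
          have e1 : (2 : ℕ) ^ (5 * lam + 5) = 2 * (2 ^ lam * 2 ^ L) := by
            rw [← pow_add, ← pow_succ', hL]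
            congr 1
            omega
          rw [e1, hL]
          ring
  have h12 : 8 ^ n ≤ 2 ^ (5 * lam + 5) * 7 ^ n := Nat.le_of_mul_le_mul_left h11 (by omega)
  have h13 := ud_num lam n hn
  omega

end Pool.Agent.T2H61.OT
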