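import Pool.Agent.T2H61.OT.Stm

namespace Pool.Agent.T2H61.OT

variable {W A Q : Type}

/-- conclusion of the replacement -/
def WINc (M : FM W A Q) (K : ℕ) (p : ℤ) (c c' : Conf A Q) (u A' v' : List W) : Prop :=
  M.runL c' v' = M.runL c u ∧
      ∀ l r : ℤ, l ≤ r →
        ((p + K < l ∨ r + 1 < p) → M.msgs l r c' v' = M.msgs l r c u ∧
          M.inw l r c' v' = M.inw l r c u ∧ ∀ y ∈ A', y ∈ M.outw l r c' v') ∧
        ((l < p ∧ p + K - 1 < r) → M.msgs l r c' v' = M.msgs l r c u ∧
          M.outw l r c' v' = M.outw l r c u ∧ ∀ y ∈ A', y ∈ M.inw l r c' v')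

theorem WIN_step_g (M : FM W A Q) (w : W) (c : Conf A Q) :
    c.g - 1 ≤ (M.step w c).g ∧ (M.step w c).g ≤ c.g + 1 := by
  simp only [FM.step]
  constructor <;> omega

theorem WIN_step_f (M : FM W A Q) (w : W) (c : Conf A Q) (i : ℤ) (h : i < c.g - 1 ∨ c.g + 1 < i) :
    (M.step w c).f i = c.f i := by
  simp only [FM.step, upd3]
  rw [if_neg (by omega), if_neg (by omega), if_neg (by omega)]

/-- two configurations which agree on state, head and the three cells make the same step -/
theorem WIN_step_same (M : FM W A Q) (w : W) (c c' : Conf A Q) (hq : c'.q = c.q)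
    (hg : c'.g = c.g) (h1 : c'.f (c.g - 1) = c.f (c.g - 1)) (h2 : c'.f c.g = c.f c.g)
    (h3 : c'.f (c.g + 1) = c.f (c.g + 1)) :
    (M.step w c').q = (M.step w c).q ∧ (M.step w c').g = (M.step w c).g ∧
    ∀ i, c'.f i = c.f i → (M.step w c').f i = (M.step w c).f i := by
  simp only [FM.step, upd3, hq, hg, h1, h2, h3]
  refine ⟨trivial, trivial, ?_⟩
  intro i hi
  split_ifs <;> first | rfl | exact hi

theorem WIN_merge_congr (K : ℕ) (p : ℤ) (c c' : Conf A Q) (mi : Msg A Q)
    (h : ∀ i, p + 1 ≤ i → i ≤ p + K - 2 → c'.f i = c.f i) :
    merge (res K p c') mi = merge (res K p c) mi := by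
  unfold merge res
  simp only [Prod.mk.injEq, true_and, and_true]
  funext j
  by_cases h0 : (j : ℕ) = 0
  · simp [h0]
  by_cases h1 : (j : ℕ) = 1
  · simp [h1]
  by_cases h2 : (j : ℕ) = K
  · simp [h0, h1, h2]
  by_cases h3 : (j : ℕ) = K + 1
  · simp [h3]
  simp only [h0, h1, h2, h3, if_false]
  apply h
  · omega
  · have := j.2; omega

theorem WIN_inw_ne (M : FM W A Q) (l r : ℤ) (c : Conf A Q) (x : W) (v : List W)
    (h : inI l r c) : 1 ≤ (M.inw l r c (v ++ [x])).length := by
  cases v with
  | nil => simp [FM.inw, h]
  | cons w v => simp [FM.inw, h]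

theorem WIN_main (hLOC : S_LOC) (M : FM W A Q) (K : ℕ) (p : ℤ) (hK : 2 ≤ K) (x : W) :
    ∀ v : List W,
    (∀ c : Conf A Q, inI p (p + K - 1) c → inI p (p + K - 1) (M.runL c v) →
      ∃ (o : Hist A Q) (fin : Loc K A Q),
        o.length = (M.inw p (p + K - 1) c (v ++ [x])).length ∧
        exc o = M.ent p (p + K - 1) c (v ++ [x]) ∧
        M.Acc (res K p c) o fin (M.inw p (p + K - 1) c (v ++ [x])) ∧
        ∀ c' : Conf A Q, inI p (p + K - 1) c' → (∀ i, (i < p - 1 ∨ p + K < i) → c'.f i = c.f i) →
          ∀ A' : List W, M.Acc (res K p c') o fin A' →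
            ∃ v' : List W, WINc M K p c c' (v ++ [x]) A' v') ∧
    (∀ c : Conf A Q, ¬ inI p (p + K - 1) c → inI p (p + K - 1) (M.runL c v) →
      ∃ (mi : Msg A Q) (o : Hist A Q) (fin : Loc K A Q),
        o.length = (M.inw p (p + K - 1) c (v ++ [x])).length ∧
        exc o + 1 = M.ent p (p + K - 1) c (v ++ [x]) ∧
        M.Acc (merge (res K p c) mi) o fin (M.inw p (p + K - 1) c (v ++ [x])) ∧
        ∀ c' : Conf A Q, c'.q = c.q → c'.g = c.g →
          (∀ i, (i ≤ p ∨ p + K - 1 ≤ i) → c'.f i = c.f i) →
          ∀ A' : List W, M.Acc (merge (res K p c') mi) o fin A' →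
            ∃ v' : List W, WINc M K p c c' (v ++ [x]) A' v') := by
  intro v
  induction v with
  | nil =>
    constructor
    · intro c hc _
      obtain ⟨L1, L2, L3, L4⟩ := hLOC W A Q M K p c x hK
      refine ⟨[none], res K p (M.step x c), by simp [FM.inw, hc], ?_, ?_, ?_⟩
      · simp [exc, FM.ent, hc]
      · simp only [List.nil_append, FM.inw, hc, if_true, FM.Acc]
        refine ⟨((L2 (by have := hc.1; omega) (by have := hc.2; omega)).1).2 hc, (L1 hc).1⟩
      · intro c' hc' hoff A' hA
        match A', hA with
        | [x'], hA =>
          simp only [FM.Acc] at hA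
          obtain ⟨_, hA2⟩ := hA
          obtain ⟨L1', _, _, _⟩ := hLOC W A Q M K p c' x' hK
          rw [(L1' hc').1] at hA2
          obtain ⟨_, _, _, L4'⟩ := hLOC W A Q M K p (M.step x' c') x' hK
          have hb := WIN_step_g M x' c'
          have hb2 := WIN_step_g M x c
          have h1 := hc.1
          have h2 := hc.2
          have h3 := hc'.1
          have h4 := hc'.2
          have hh := L4' (M.step x c) (by omega) (by omega) (by omega) (by omega) hA2
          have hEq : M.step x' c' = M.step x c := by
            refine Conf.ext hh.1 ?_ hh.2.1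
            funext i
            by_cases hi : p - 1 ≤ i ∧ i ≤ p + K
            · exact hh.2.2 i hi.1 hi.2
            · have hi' : i < p - 1 ∨ p + K < i := by omega
              rw [(L1' hc').2 i hi', (L1 hc).2 i hi', hoff i hi']
          refine ⟨[x'], ?_, ?_⟩
          · simp [FM.runL, hEq]
          · intro l r hlr
            have g1 : inI l r c' ↔ l ≤ c'.g ∧ c'.g ≤ r := Iff.rfl
            have g2 : inI l r c ↔ l ≤ c.g ∧ c.g ≤ r := Iff.rfl
            have g3 : inI l r (M.step x' c') ↔ l ≤ (M.step x' c').g ∧ (M.step x' c').g ≤ r := Iff.rfl
            have g4 : inI l r (M.step x c) ↔ l ≤ (M.step x c).g ∧ (M.step x c).g ≤ r := Iff.rfl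
            constructor
            · intro hfar
              have e1 : ¬ inI l r c' := by rw [g1]; omega
              have e2 : ¬ inI l r c := by rw [g2]; omega
              have e3 : ¬ inI l r (M.step x' c') := by rw [g3]; omega
              have e4 : ¬ inI l r (M.step x c) := by rw [g4]; omega
              simp [FM.msgs, FM.inw, FM.outw, e1, e2, e3, e4]
            · intro hfar
              have e1 : inI l r c' := by rw [g1]; omega
              have e2 : inI l r c := by rw [g2]; omega
              have e3 : inI l r (M.step x' c') := by rw [g3]; omega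
              have e4 : inI l r (M.step x c) := by rw [g4]; omega
              simp [FM.msgs, FM.inw, FM.outw, e1, e2, e3, e4]
    · intro c hc hc2
      exact absurd hc2 hc
  | cons w v ih =>
    obtain ⟨ihI, ihO⟩ := ih
    constructor
    · -- start inside
      intro c hc hlast
      have hlast' : inI p (p + K - 1) (M.runL (M.step w c) v) := hlast
      obtain ⟨L1, L2, L3, L4⟩ := hLOC W A Q M K p c w hK
      have hins : Inside (res K p c) :=
        ((L2 (by have := hc.1; omega) (by have := hc.2; omega)).1).2 hc
      have hb2 := WIN_step_g M w c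
      have h1 := hc.1
      have h2 := hc.2
      obtain ⟨_, D2, _, _⟩ := hLOC W A Q M K p (M.step w c) w hK
      have D2' := D2 (by omega) (by omega)
      by_cases hd : inI p (p + K - 1) (M.step w c)
      · -- stays inside
        obtain ⟨o, fin, ho1, ho2, ho3, ho4⟩ := ihI (M.step w c) hd hlast'
        refine ⟨none :: o, fin, ?_, ?_, ?_, ?_⟩
        · simp [FM.inw, hc, ho1]
        · simp only [exc, List.countP_cons, List.cons_append, FM.ent] at ho2 ⊢
          simp [hc, ho2]
        · simp only [List.cons_append, FM.inw, hc, if_true, FM.Acc]
          exact ⟨hins, by rw [(L1 hc).1]; exact ho3⟩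
        · intro c' hc' hoff A' hA
          have hne := WIN_inw_ne M p (p + K - 1) (M.step w c) x v hd
          match A', hA with
          | w' :: A'', hA =>
            simp only [FM.Acc] at hA
            obtain ⟨_, hA2⟩ := hA
            obtain ⟨L1', _, _, _⟩ := hLOC W A Q M K p c' w' hK
            rw [(L1' hc').1] at hA2
            have hb := WIN_step_g M w' c'
            have h3 := hc'.1
            have h4 := hc'.2
            obtain ⟨_, E2, _, _⟩ := hLOC W A Q M K p (M.step w' c') w' hK
            have E2' := E2 (by omega) (by omega)
            have hd' : inI p (p + K - 1) (M.step w' c') := by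
              have : Inside (res K p (M.step w' c')) := by
                match o, A'', ho1, hA2 with
                | [], _, ho1, _ => simp at ho1; omega
                | none :: o', _ :: _, _, hA2 => simp only [FM.Acc] at hA2; exact hA2.1
                | some (mo, mi) :: o', _ :: _, _, hA2 => simp only [FM.Acc] at hA2; exact hA2.1
                | none :: o', [], _, hA2 => simp [FM.Acc] at hA2
                | some (mo, mi) :: o', [], _, hA2 => simp [FM.Acc] at hA2
              exact E2'.1.1 this
            obtain ⟨v'', hv1, hv2⟩ := ho4 (M.step w' c') hd' (by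
              intro i hi
              rw [(L1' hc').2 i hi, (L1 hc).2 i hi, hoff i hi]) A'' hA2
            refine ⟨w' :: v'', ?_, ?_⟩
            · simpa [FM.runL] using hv1
            · intro l r hlr
              have g1 : inI l r c' ↔ l ≤ c'.g ∧ c'.g ≤ r := Iff.rfl
              have g2 : inI l r c ↔ l ≤ c.g ∧ c.g ≤ r := Iff.rfl
              have g3 : inI l r (M.step w' c') ↔
                l ≤ (M.step w' c').g ∧ (M.step w' c').g ≤ r := Iff.rfl
              have g4 : inI l r (M.step w c) ↔
                l ≤ (M.step w c).g ∧ (M.step w c).g ≤ r := Iff.rfl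
              obtain ⟨hv3, hv4⟩ := hv2 l r hlr
              constructor
              · intro hfar
                have e1 : ¬ inI l r c' := by rw [g1]; omega
                have e2 : ¬ inI l r c := by rw [g2]; omega
                have e3 : ¬ inI l r (M.step w' c') := by rw [g3]; omega
                have e4 : ¬ inI l r (M.step w c) := by rw [g4]; omega
                obtain ⟨k1, k2, k3⟩ := hv3 hfar
                simp only [List.cons_append, FM.msgs, FM.inw, FM.outw, e1, e2, e3, e4, if_true,
                  if_false]
                refine ⟨k1, k2, ?_⟩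
                intro y hy
                rcases List.mem_cons.1 hy with h | h
                · rw [h]; exact List.mem_cons_self
                · exact List.mem_cons_of_mem _ (k3 y h)
              · intro hfar
                have e1 : inI l r c' := by rw [g1]; omega
                have e2 : inI l r c := by rw [g2]; omega
                have e3 : inI l r (M.step w' c') := by rw [g3]; omega
                have e4 : inI l r (M.step w c) := by rw [g4]; omega
                obtain ⟨k1, k2, k3⟩ := hv4 hfar
                simp only [List.cons_append, FM.msgs, FM.inw, FM.outw, e1, e2, e3, e4, if_true]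
                refine ⟨k1, k2, ?_⟩
                intro y hy
                rcases List.mem_cons.1 hy with h | h
                · rw [h]; exact List.mem_cons_self
                · exact List.mem_cons_of_mem _ (k3 y h)
      · -- leaves
        obtain ⟨mi, o, fin, ho1, ho2, ho3, ho4⟩ := ihO (M.step w c) hd hlast'
        refine ⟨some (msg p (p + K - 1) (M.step w c), mi) :: o, fin, ?_, ?_, ?_, ?_⟩
        · simp [FM.inw, hc, ho1]
        · simp only [exc, List.countP_cons, List.cons_append, FM.ent] at ho2 ⊢
          simp only [hc, not_true_eq_false, false_and, if_false, zero_add, Option.isSome_some,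
            if_true]
          exact ho2
        · simp only [List.cons_append, FM.inw, hc, if_true, FM.Acc]
          rw [(L1 hc).1]
          exact ⟨hins, fun h => hd (D2'.1.1 h), D2'.2, ho3⟩
        · intro c' hc' hoff A' hA
          match A', hA with
          | w' :: A'', hA =>
            simp only [FM.Acc] at hA
            obtain ⟨_, hA1, hA2, hA3⟩ := hA
            obtain ⟨L1', _, _, _⟩ := hLOC W A Q M K p c' w' hK
            rw [(L1' hc').1] at hA1 hA2 hA3
            have hb := WIN_step_g M w' c'
            have h3 := hc'.1
            have h4 := hc'.2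
            obtain ⟨_, E2, _, _⟩ := hLOC W A Q M K p (M.step w' c') w' hK
            have E2' := E2 (by omega) (by omega)
            have hd' : ¬ inI p (p + K - 1) (M.step w' c') := fun h => hA1 (E2'.1.2 h)
            rw [E2'.2] at hA2
            simp only [msg, Prod.mk.injEq] at hA2
            obtain ⟨m1, m2, m3, m4, m5, m6⟩ := hA2
            have hg : (M.step w' c').g = (M.step w c).g := by
              have x1 : ¬ (p ≤ (M.step w' c').g ∧ (M.step w' c').g ≤ p + K - 1) := hd'
              have x2 : ¬ (p ≤ (M.step w c).g ∧ (M.step w c).g ≤ p + K - 1) := hd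
              have x3 : ((M.step w' c').g ≤ p) ↔ ((M.step w c).g ≤ p) := by
                simpa using m2
              by_cases hp : (M.step w c).g ≤ p
              · have := x3.2 hp; omega
              · have : ¬ (M.step w' c').g ≤ p := fun h => hp (x3.1 h)
                omega
            have hcells : ∀ i, (i ≤ p ∨ p + K - 1 ≤ i) → (M.step w' c').f i = (M.step w c).f i := by
              intro i hi
              by_cases i1 : i = p - 1
              · rw [i1]; exact m3
              by_cases i2 : i = p
              · rw [i2]; exact m4
              by_cases i3 : i = p + K - 1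
              · rw [i3]; exact m5
              by_cases i4 : i = p + K - 1 + 1
              · rw [i4]; exact m6
              have hi' : i < p - 1 ∨ p + K < i := by omega
              rw [(L1' hc').2 i hi', (L1 hc).2 i hi', hoff i hi']
            obtain ⟨v'', hv1, hv2⟩ := ho4 (M.step w' c') m1 hg hcells A'' hA3
            refine ⟨w' :: v'', ?_, ?_⟩
            · simpa [FM.runL] using hv1
            · intro l r hlr
              have g1 : inI l r c' ↔ l ≤ c'.g ∧ c'.g ≤ r := Iff.rfl
              have g2 : inI l r c ↔ l ≤ c.g ∧ c.g ≤ r := Iff.rfl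
              have g3 : inI l r (M.step w' c') ↔
                l ≤ (M.step w' c').g ∧ (M.step w' c').g ≤ r := Iff.rfl
              have g4 : inI l r (M.step w c) ↔
                l ≤ (M.step w c).g ∧ (M.step w c).g ≤ r := Iff.rfl
              obtain ⟨hv3, hv4⟩ := hv2 l r hlr
              constructor
              · intro hfar
                have e1 : ¬ inI l r c' := by rw [g1]; omega
                have e2 : ¬ inI l r c := by rw [g2]; omega
                have e3 : ¬ inI l r (M.step w' c') := by rw [g3]; omega
                have e4 : ¬ inI l r (M.step w c) := by rw [g4]; omega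
                obtain ⟨k1, k2, k3⟩ := hv3 hfar
                simp only [List.cons_append, FM.msgs, FM.inw, FM.outw, e1, e2, e3, e4, if_true,
                  if_false]
                refine ⟨k1, k2, ?_⟩
                intro y hy
                rcases List.mem_cons.1 hy with h | h
                · rw [h]; exact List.mem_cons_self
                · exact List.mem_cons_of_mem _ (k3 y h)
              · intro hfar
                have e1 : inI l r c' := by rw [g1]; omega
                have e2 : inI l r c := by rw [g2]; omega
                have e3 : inI l r (M.step w' c') := by rw [g3]; omega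
                have e4 : inI l r (M.step w c) := by rw [g4]; omega
                obtain ⟨k1, k2, k3⟩ := hv4 hfar
                simp only [List.cons_append, FM.msgs, FM.inw, FM.outw, e1, e2, e3, e4, if_true]
                refine ⟨k1, k2, ?_⟩
                intro y hy
                rcases List.mem_cons.1 hy with h | h
                · rw [h]; exact List.mem_cons_self
                · exact List.mem_cons_of_mem _ (k3 y h)
    · -- start outside
      intro c hc hlast
      have hlast' : inI p (p + K - 1) (M.runL (M.step w c) v) := hlast
      have hb2 := WIN_step_g M w c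
      have hcg : ¬ (p ≤ c.g ∧ c.g ≤ p + K - 1) := hc
      have hcore : ∀ i, p + 1 ≤ i → i ≤ p + K - 2 → (M.step w c).f i = c.f i := by
        intro i hi1 hi2
        exact WIN_step_f M w c i (by omega)
      -- the modified run makes the same step
      have hsame : ∀ c' : Conf A Q, c'.q = c.q → c'.g = c.g →
          (∀ i, (i ≤ p ∨ p + K - 1 ≤ i) → c'.f i = c.f i) →
          (M.step w c').q = (M.step w c).q ∧ (M.step w c').g = (M.step w c).g ∧
          (∀ i, (i ≤ p ∨ p + K - 1 ≤ i) → (M.step w c').f i = (M.step w c).f i) ∧
          (∀ i, p + 1 ≤ i → i ≤ p + K - 2 → (M.step w c').f i = c'.f i) := by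
        intro c' hq hg hf
        obtain ⟨s1, s2, s3⟩ := WIN_step_same M w c c' hq hg (hf _ (by omega)) (hf _ (by omega))
          (hf _ (by omega))
        refine ⟨s1, s2, fun i hi => s3 i (hf i hi), ?_⟩
        intro i hi1 hi2
        exact WIN_step_f M w c' i (by omega)
      -- lifting of the conclusion
      have hlift : ∀ c' : Conf A Q, c'.q = c.q → c'.g = c.g →
          (∀ i, (i ≤ p ∨ p + K - 1 ≤ i) → c'.f i = c.f i) → ∀ A' v'' : List W,
          WINc M K p (M.step w c) (M.step w c') (v ++ [x]) A' v'' →
          WINc M K p c c' (w :: v ++ [x]) A' (w :: v'') := by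
        intro c' hq hg hf A' v'' hv
        obtain ⟨s1, s2, s3, s4⟩ := hsame c' hq hg hf
        obtain ⟨hv1, hv2⟩ := hv
        refine ⟨by simpa [FM.runL] using hv1, ?_⟩
        intro l r hlr
        obtain ⟨hv3, hv4⟩ := hv2 l r hlr
        have g1 : inI l r c' ↔ inI l r c := by unfold inI; rw [hg]
        have g2 : inI l r (M.step w c') ↔ inI l r (M.step w c) := by unfold inI; rw [s2]
        constructor
        · intro hfar
          obtain ⟨k1, k2, k3⟩ := hv3 hfar
          have hm : msg l r (M.step w c') = msg l r (M.step w c) := by
            simp only [msg, s1, s2]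
            rw [s3 (l - 1) (by omega), s3 l (by omega), s3 r (by omega), s3 (r + 1) (by omega)]
          refine ⟨?_, ?_, ?_⟩
          · simp only [List.cons_append, FM.msgs, g1, g2, k1, hm]
          · simp only [List.cons_append, FM.inw, g1, k2]
          · intro y hy
            simp only [FM.outw, g1]
            split_ifs
            · exact k3 y hy
            · exact List.mem_cons_of_mem _ (k3 y hy)
        · intro hfar
          obtain ⟨k1, k2, k3⟩ := hv4 hfar
          have hm : msg l r (M.step w c') = msg l r (M.step w c) := by
            simp only [msg, s1, s2]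
            rw [s3 (l - 1) (by omega), s3 l (by omega), s3 r (by omega), s3 (r + 1) (by omega)]
          refine ⟨?_, ?_, ?_⟩
          · simp only [List.cons_append, FM.msgs, g1, g2, k1, hm]
          · simp only [List.cons_append, FM.outw, g1, k2]
          · intro y hy
            simp only [FM.inw, g1]
            split_ifs
            · exact List.mem_cons_of_mem _ (k3 y hy)
            · exact k3 y hy
      by_cases hd : inI p (p + K - 1) (M.step w c)
      · -- enters
        obtain ⟨o, fin, ho1, ho2, ho3, ho4⟩ := ihI (M.step w c) hd hlast'
        have hdg : (M.step w c).g = p ∨ (M.step w c).g = p + K - 1 := by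
          have := hd.1
          have := hd.2
          omega
        obtain ⟨_, _, L3, _⟩ := hLOC W A Q M K p c w hK
        have hmer := L3 (M.step w c) hdg hcore
        refine ⟨msg p (p + K - 1) (M.step w c), o, fin, ?_, ?_, ?_, ?_⟩
        · simp [FM.inw, hc, ho1]
        · simp only [List.cons_append, FM.ent, ← ho2]
          simp [hc, hd]; omega
        · simp only [List.cons_append, FM.inw, hc, if_false]
          rw [hmer]; exact ho3
        · intro c' hq hg hf A' hA
          obtain ⟨s1, s2, s3, s4⟩ := hsame c' hq hg hf
          obtain ⟨_, _, L3', _⟩ := hLOC W A Q M K p c' w hK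
          have hmm : msg p (p + K - 1) (M.step w c) = msg p (p + K - 1) (M.step w c') := by
            simp only [msg, s1, s2]
            rw [s3 (p - 1) (by omega), s3 p (by omega), s3 (p + K - 1) (by omega),
              s3 (p + K - 1 + 1) (by omega)]
          have hmer' := L3' (M.step w c') (by rw [s2]; exact hdg) s4
          rw [hmm, hmer'] at hA
          have hd' : inI p (p + K - 1) (M.step w c') := by
            unfold inI; rw [s2]; exact hd
          obtain ⟨v'', hv⟩ := ho4 (M.step w c') hd' (fun i hi => s3 i (by omega)) A' hA
          exact ⟨w :: v'', hlift c' hq hg hf A' v'' hv⟩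
      · -- stays outside
        obtain ⟨mi, o, fin, ho1, ho2, ho3, ho4⟩ := ihO (M.step w c) hd hlast'
        refine ⟨mi, o, fin, ?_, ?_, ?_, ?_⟩
        · simp [FM.inw, hc, ho1]
        · simp only [List.cons_append, FM.ent]
          simp [hd, ho2]
        · simp only [List.cons_append, FM.inw, hc, if_false]
          rw [WIN_merge_congr K p c (M.step w c) mi hcore] at ho3
          exact ho3
        · intro c' hq hg hf A' hA
          obtain ⟨s1, s2, s3, s4⟩ := hsame c' hq hg hf
          rw [← WIN_merge_congr K p c' (M.step w c') mi s4] at hA
          obtain ⟨v'', hv⟩ := ho4 (M.step w c') s1 s2 s3 A' hA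
          exact ⟨w :: v'', hlift c' hq hg hf A' v'' hv⟩

theorem pWIN (hLOC : S_LOC) (_hAPP : S_APP) : S_WIN := by
  intro W A Q M K p c v x hK hc hlast
  obtain ⟨o, fin, h1, h2, h3, h4⟩ := (WIN_main hLOC M K p hK x v).1 c hc hlast
  refine ⟨o, fin, h1, h2, h3, ?_⟩
  intro A' hA
  obtain ⟨v', h5, h6⟩ := h4 c hc (fun _ _ => rfl) A' hA
  exact ⟨v', h5, h6⟩

end Pool.Agent.T2H61.OT
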