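import Pool.Agent.T2H61.OT.Stm

namespace Pool.Agent.T2H61.OT

open Finset

theorem WL1_eq_of_dvd (K : ℕ) (p x y : ℤ) (hx : p ≤ x ∧ x ≤ p + K - 1)
    (hy : p ≤ y ∧ y ≤ p + K - 1) (h : (K : ℤ) ∣ x - y) : x = y := by
  obtain ⟨k, hk⟩ := h
  have h1 : x - y < K := by omega
  have h2 : -(K : ℤ) < x - y := by omega
  rw [hk] at h1 h2
  have hK : (0 : ℤ) < K := by omega
  have hk0 : k = 0 := by
    have h3 : k < 1 := by
      by_contra hc
      have : (K : ℤ) * 1 ≤ K * k := mul_le_mul_of_nonneg_left (by omega) hK.le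
      omega
    have h4 : -1 < k := by
      by_contra hc
      have : (K : ℤ) * k ≤ K * (-1) := mul_le_mul_of_nonneg_left (by omega) hK.le
      omega
    omega
  rw [hk0] at hk
  omega

theorem pWL1 (hAD1 : S_AD1) (hAD2 : S_AD2) (hSEG : S_SEG) : S_WL1 := by
  intro W A Q P z m s T hGF hV p a a' hNa haa' ha'T hcard o fin ho hexc hAcc
  obtain ⟨hA, _, _, _, _, hmono, hinc⟩ := hAD1 W A Q P z
  obtain ⟨_, _, _, hins, _, _, _⟩ := hAD2 W A Q P z
  have hmon : ∀ x, Monotone (fun t => P.vis z t x) := fun x => monotone_nat_of_le_succ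
    (fun t => hmono t x)
  have hpre : ∀ t, pre (P.st z) t = P.tx z t := fun t => (hA t).2.symm
  obtain ⟨hS1, hS2, sI, hS3, hS4⟩ := hSEG W A Q P.M (P.st z) p (p + P.K - 1) a a' haa'.le
  simp only [hpre] at hS1 hS3 hS4
  have hlen : (P.M.inw p (p + P.K - 1) (P.M.runL P.M.init (P.tx z a))
      ((List.range' a (a' - a)).map (P.st z))).length = m := by
    rw [hS1, ← hcard]
    congr 1
  rw [hlen] at hS3 hS4
  by_contra hcon
  rw [not_lt] at hcon
  have hpos : ∀ i, i < m → p ≤ P.pos z (sI i) ∧ P.pos z (sI i) ≤ p + P.K - 1 :=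
    fun i hi => (hS3 i hi).2.2.1
  have hvis : ∀ i, i < m → P.vis z (sI i) (P.pos z (sI i)) < P.V := by
    intro i hi
    refine lt_of_le_of_lt (hmon _ (?_ : sI i ≤ T)) (hV _)
    have := (hS3 i hi).2.1
    omega
  -- positions with equal residues are equal
  have hinj : ∀ i j, i < m → j < m →
      P.tab (P.pos z (sI i)) (P.vis z (sI i) (P.pos z (sI i)))
        = P.tab (P.pos z (sI j)) (P.vis z (sI j) (P.pos z (sI j))) → i = j := by
    intro i j hi hj h
    simp only [Par.tab, Prod.mk.injEq, Fin.mk.injEq] at h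
    obtain ⟨h1, h2⟩ := h
    have hK0 : (0 : ℤ) < (P.K : ℤ) := by have := P.hK; omega
    have e1 := Int.emod_nonneg (P.pos z (sI i)) (ne_of_gt hK0)
    have e2 := Int.emod_nonneg (P.pos z (sI j)) (ne_of_gt hK0)
    have h3 : P.pos z (sI i) % (P.K : ℤ) = P.pos z (sI j) % (P.K : ℤ) := by omega
    have h4 : P.pos z (sI i) = P.pos z (sI j) := by
      apply WL1_eq_of_dvd P.K p _ _ (hpos i hi) (hpos j hj)
      exact Int.ModEq.dvd (show P.pos z (sI j) ≡ P.pos z (sI i) [ZMOD (P.K : ℤ)] from h3.symm)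
    have h5 := hvis i hi
    have h6 := hvis j hj
    have h7 : P.vis z (sI i) (P.pos z (sI i)) = P.vis z (sI j) (P.pos z (sI j)) := by omega
    rcases lt_trichotomy i j with hlt | heq | hgt
    · have := hinc (sI i) (sI j) (by have := (hS3 i hi).1; omega) (hS4 i j hlt hj)
      rw [h4] at this h7
      omega
    · exact heq
    · have := hinc (sI j) (sI i) (by have := (hS3 j hj).1; omega) (hS4 j i hgt hi)
      rw [← h4] at this h7
      omega
  obtain ⟨i, j, hi, hj, hij, hi2, hj2⟩ := hGF (res P.K p (P.M.runL P.M.init (P.tx z a))) o fin ho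
    hexc hcon _ hlen hAcc (fun i => P.tab (P.pos z (sI i)) (P.vis z (sI i) (P.pos z (sI i)))) hinj
  have hI : ∀ i, i < m →
      (P.M.inw p (p + P.K - 1) (P.M.runL P.M.init (P.tx z a))
        ((List.range' a (a' - a)).map (P.st z)))[i]? ≠
        some (P.F (P.tab (P.pos z (sI i)) (P.vis z (sI i) (P.pos z (sI i))))) →
      (P.K : ℤ) ∣ P.pos z (sI i) ∧ P.vis z (sI i) (P.pos z (sI i)) = 0 := by
    intro i hi hne
    rw [(hS3 i hi).2.2.2] at hne
    rcases hins (sI i) (by have := (hS3 i hi).1; omega) with h | h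
    · exact h.2
    · exact absurd (by rw [h]) hne
  obtain ⟨d1, v1⟩ := hI i hi hi2
  obtain ⟨d2, v2⟩ := hI j hj hj2
  have heq : P.pos z (sI i) = P.pos z (sI j) :=
    WL1_eq_of_dvd P.K p _ _ (hpos i hi) (hpos j hj) (dvd_sub d1 d2)
  rcases lt_trichotomy i j with hlt | heq' | hgt
  · have := hinc (sI i) (sI j) (by have := (hS3 i hi).1; omega) (hS4 i j hlt hj)
    rw [heq] at this
    omega
  · exact hij heq'
  · have := hinc (sI j) (sI i) (by have := (hS3 j hj).1; omega) (hS4 j i hgt hi)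
    rw [← heq] at this
    omega

end Pool.Agent.T2H61.OT
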