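import Pool.Agent.T2H61.OT.Stm

/-!
# Project OT, package WL2
-/

namespace Pool.Agent.T2H61.OT

open Finset

private theorem WL2_pre_succ {W : Type} (u : ℕ → W) (t : ℕ) : pre u (t + 1) = pre u t ++ [u t] := by
  simp [pre, List.range_succ]

private theorem WL2_pre_split {W : Type} (u : ℕ → W) (a : ℕ) : ∀ T, a ≤ T →
    pre u T = pre u a ++ (List.range' a (T - a)).map u := by
  intro T hT
  obtain ⟨d, rfl⟩ := Nat.exists_eq_add_of_le hT
  rw [Nat.add_sub_cancel_left]
  induction d with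
  | zero => simp
  | succ d ih =>
    rw [← Nat.add_assoc, WL2_pre_succ, ih (by omega), List.range'_1_concat, List.map_append,
      List.append_assoc]
    simp

private theorem WL2_mem (hAPP : S_APP) {W A Q : Type} (M : FM W A Q) (u : ℕ → W) (l r : ℤ)
    (x : W) : ∀ T,
    (x ∈ M.inw l r M.init (pre u T) → ∃ t, x = u t ∧ inI l r (M.runL M.init (pre u t))) ∧
    (x ∈ M.outw l r M.init (pre u T) → ∃ t, x = u t ∧ ¬ inI l r (M.runL M.init (pre u t))) := by
  intro T
  induction T with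
  | zero => simp [pre, FM.inw, FM.outw]
  | succ T ih =>
    obtain ⟨-, -, h3, h4, -, -, -⟩ := hAPP W A Q M M.init (pre u T) [u T] l r
    rw [WL2_pre_succ, h3, h4]
    constructor
    · intro hx
      rw [List.mem_append] at hx
      rcases hx with hx | hx
      · exact ih.1 hx
      · by_cases hI : inI l r (M.runL M.init (pre u T))
        · simp only [FM.inw, if_pos hI, List.mem_singleton] at hx
          exact ⟨T, hx, hI⟩
        · simp [FM.inw, if_neg hI] at hx
    · intro hx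
      rw [List.mem_append] at hx
      rcases hx with hx | hx
      · exact ih.2 hx
      · by_cases hI : inI l r (M.runL M.init (pre u T))
        · simp [FM.outw, if_pos hI] at hx
        · simp only [FM.outw, if_neg hI, List.mem_singleton] at hx
          exact ⟨T, hx, hI⟩

private theorem WL2_det {A Q : Type} (l r : ℤ) (c c' x y : Conf A Q)
    (h1 : simIn l r c x) (h2 : simOut l r c y) (h3 : simIn l r c' x) (h4 : simOut l r c' y) :
    c = c' := by
  obtain ⟨a1, a2, a3⟩ := h1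
  obtain ⟨b1, b2, b3⟩ := h2
  obtain ⟨c1, c2, c3⟩ := h3
  obtain ⟨d1, d2, d3⟩ := h4
  by_cases hI : inI l r c
  · have hI' : inI l r c' := c1.2 (a1.1 hI)
    obtain ⟨e1, e2, e3⟩ := a2 hI
    obtain ⟨f1, f2, f3⟩ := c2 hI'
    ext i
    · rw [e1, f1]
    · by_cases hi : l - 1 ≤ i ∧ i ≤ r + 1
      · rw [e3 i hi.1 hi.2, f3 i hi.1 hi.2]
      · have hi' : i < l - 1 ∨ r + 1 < i := by
          by_contra hcon
          apply hi
          constructor <;> omega
        rw [b3 hI i hi', d3 hI' i hi']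
    · rw [e2, f2]
  · have hI' : ¬ inI l r c' := fun h => hI (a1.2 (c1.1 h))
    obtain ⟨e1, e2, e3⟩ := b2 hI
    obtain ⟨f1, f2, f3⟩ := d2 hI'
    ext i
    · rw [e1, f1]
    · by_cases hi : l + 1 ≤ i ∧ i ≤ r - 1
      · rw [a3 hI i hi.1 hi.2, c3 hI' i hi.1 hi.2]
      · have hi' : i ≤ l ∨ r ≤ i := by
          by_contra hcon
          apply hi
          constructor <;> omega
        rw [e3 i hi', f3 i hi']
    · rw [e2, f2]

theorem pWL2 (hAPP : S_APP) (hPM : S_PM) (hMIX : S_MIX) (hWIN : S_WIN) (hAD1 : S_AD1)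
    (hAD2 : S_AD2) (hSEG : S_SEG) : S_WL2 := by
  intro W A Q _ P out z m s k T hL hxy hG hk1 hk2 p a hNa haT hpa hpT hm he
  -- basic facts
  have htx : ∀ (z : P.U → Fin 4) (t : ℕ), P.tx z t = pre (P.st z) t :=
    fun z t => ((hAD1 W A Q P z).1 t).2
  have hpos : ∀ (z : P.U → Fin 4) (t : ℕ), |P.pos z t| ≤ t :=
    fun z t => (hAD1 W A Q P z).2.2.2.2.1 t
  have hposd : ∀ (z : P.U → Fin 4) (t : ℕ),
      (P.M.runL P.M.init (pre (P.st z) t)).g = P.pos z t := by
    intro z t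
    rw [← htx]
    rfl
  have hB1 : P.B1 = (P.N : ℤ) + 1 := rfl
  have hB2 : P.B2 = (P.N : ℤ) + P.K + 6 := rfl
  have hKpos : (2 : ℤ) ≤ (P.K : ℤ) := by exact_mod_cast P.hK
  -- words read inside and outside
  have hin : ∀ (z : P.U → Fin 4) (t : ℕ) (B : ℤ) (x : W), B ≤ P.B2 →
      x ∈ P.M.inw (-B) B P.M.init (P.tx z t) → x ∈ P.S z := by
    intro z t B x hB hx
    rw [htx] at hx
    obtain ⟨t', rfl, ht'⟩ := (WL2_mem hAPP P.M (P.st z) (-B) B x t).1 hx
    apply (hAD2 W A Q P z).1 t'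
    unfold inI at ht'
    rw [hposd] at ht'
    rw [abs_le]
    constructor <;> linarith [ht'.1, ht'.2]
  have hout : ∀ (z : P.U → Fin 4) (t : ℕ) (B : ℤ) (x : W), (P.N : ℤ) ≤ B →
      x ∈ P.M.outw (-B) B P.M.init (P.tx z t) → x ∉ P.D z := by
    intro z t B x hB hx
    rw [htx] at hx
    obtain ⟨t', rfl, ht'⟩ := (WL2_mem hAPP P.M (P.st z) (-B) B x t).2 hx
    apply (hAD2 W A Q P z).2.1 t'
    unfold inI at ht'
    rw [hposd] at ht'
    have h1 : B < |P.pos z t'| := by
      by_contra hcon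
      push Not at hcon
      exact ht' (abs_le.1 hcon)
    have h2 := hpos z t'
    have h3 : (P.N : ℤ) < (t' : ℤ) := by linarith
    exact_mod_cast h3.le
  -- the window
  set c0 := P.M.runL P.M.init (P.tx z a) with hc0
  set v := (List.range' a (T - 1 - a)).map (P.st z) with hv
  have hvx : (List.range' a (T - a)).map (P.st z) = v ++ [P.st z (T - 1)] := by
    have h1 : T - a = (T - 1 - a) + 1 := by omega
    rw [h1, List.range'_1_concat, List.map_append, hv]
    have h2 : a + (T - 1 - a) = T - 1 := by omega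
    rw [h2]
    rfl
  have htxT : P.tx z T = P.tx z a ++ (v ++ [P.st z (T - 1)]) := by
    rw [htx, htx, WL2_pre_split (P.st z) a T haT.le, hvx]
  have htxT1 : P.tx z (T - 1) = P.tx z a ++ v := by
    rw [htx, htx, WL2_pre_split (P.st z) a (T - 1) (by omega)]
  have hrunT1 : P.M.runL c0 v = P.M.runL P.M.init (P.tx z (T - 1)) := by
    rw [htxT1, (hAPP W A Q P.M P.M.init (P.tx z a) v 0 0).1]
  have hrunT : P.M.runL c0 (v ++ [P.st z (T - 1)]) = P.M.runL P.M.init (P.tx z T) := by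
    rw [htxT, (hAPP W A Q P.M P.M.init (P.tx z a) (v ++ [P.st z (T - 1)]) 0 0).1]
  have hI0 : inI p (p + P.K - 1) c0 := hpa
  have hI1 : inI p (p + P.K - 1) (P.M.runL c0 v) := by
    rw [hrunT1]
    exact hpT
  obtain ⟨o, fin, ho1, ho2, ho3, ho4⟩ :=
    hWIN W A Q P.M P.K p c0 v (P.st z (T - 1)) P.hK hI0 hI1
  obtain ⟨s1, s2, -⟩ := hSEG W A Q P.M (P.st z) p (p + P.K - 1) a T haT.le
  rw [hvx, ← htx z a, ← hc0] at s1 s2
  have hlen : o.length = m := by
    rw [ho1, s1, ← hm]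
    congr 1
    apply Finset.filter_congr
    intro t _
    unfold inI
    rw [hposd]
  have hexc : exc o < P.K := by
    rw [ho2, s2]
    refine lt_of_le_of_lt (le_of_eq ?_) he
    congr 1
    apply Finset.filter_congr
    intro t _
    unfold inI
    rw [hposd, hposd]
  refine ⟨o, fin, hlen, hexc, ?_, ?_⟩
  · rw [hvx]
    exact ho3
  · intro hs
    obtain ⟨g1, g2⟩ := hG T _ o fin hlen hexc hs
    have hinit : ∀ B : ℤ, 0 ≤ B → inI (-B) B P.M.init := by
      intro B hB
      constructor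
      · show -B ≤ 0
        linarith
      · show (0 : ℤ) ≤ B
        exact hB
    have hN0 : (0 : ℤ) ≤ (P.N : ℤ) := Int.natCast_nonneg _
    by_cases hcase : p + P.K < -P.B1 ∨ P.B1 + 1 < p
    · -- far from the first cut
      obtain ⟨y, ⟨A', hA1, hA2, hyA⟩, hyD, z', T', hm1, hyS⟩ := g1 hk1
      obtain ⟨v', hv1, hv2⟩ := ho4 A' hA2
      obtain ⟨hv3, -⟩ := hv2 (-P.B1) P.B1 (by rw [hB1]; linarith)
      obtain ⟨w1, w2, w3⟩ := hv3 hcase
      have hrun' : P.M.runL P.M.init (P.tx z a ++ v') = P.M.runL P.M.init (P.tx z T) := by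
        rw [(hAPP W A Q P.M P.M.init (P.tx z a) v' 0 0).1, ← hc0, hv1, hrunT]
      have hmsg' : P.M.msgs (-P.B1) P.B1 P.M.init (P.tx z a ++ v') = P.m1 z T := by
        rw [(hAPP W A Q P.M P.M.init (P.tx z a) v' (-P.B1) P.B1).2.1, ← hc0, w1]
        unfold Par.m1
        rw [htxT, (hAPP W A Q P.M P.M.init (P.tx z a) _ (-P.B1) P.B1).2.1]
      have hyo : y ∈ P.M.outw (-P.B1) P.B1 P.M.init (P.tx z a ++ v') := by
        rw [(hAPP W A Q P.M P.M.init (P.tx z a) v' (-P.B1) P.B1).2.2.2.1]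
        exact List.mem_append_right _ (w3 y hyA)
      obtain ⟨x1, x2, x3, x4⟩ := hMIX W A Q P.M (-P.B1) P.B1 P.M.init (by rw [hB1]; linarith)
        (hinit _ (by rw [hB1]; linarith)) (P.tx z' T') (P.tx z T) hm1
      obtain ⟨y1, y2, y3, y4⟩ := hMIX W A Q P.M (-P.B1) P.B1 P.M.init (by rw [hB1]; linarith)
        (hinit _ (by rw [hB1]; linarith)) (P.tx z' T') (P.tx z a ++ v') (by
          rw [hmsg', ← hm1]; rfl)
      rw [hrun'] at y3
      have heq := WL2_det _ _ _ _ _ _ y2 y3 x2 x3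
      have hyw : y ∈ x1 := hPM W A Q P.M out hL hxy y1 x1 heq y ((y4 y).2 (Or.inr hyo))
      rcases (x4 y).1 hyw with h | h
      · exact hyS (hin z' T' P.B1 y (by rw [hB1, hB2]; linarith) h)
      · exact hout z T P.B1 y (by rw [hB1]; linarith) h hyD
    · -- near the first cut
      push Not at hcase
      obtain ⟨y, ⟨A', hA1, hA2, hyA⟩, hyS, z', T', hm2, hyD⟩ := g2 hk2
      obtain ⟨v', hv1, hv2⟩ := ho4 A' hA2
      obtain ⟨-, hv3⟩ := hv2 (-P.B2) P.B2 (by rw [hB2]; linarith)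
      have hc1 := hcase.1
      have hc2 := hcase.2
      rw [hB1] at hc1 hc2
      obtain ⟨w1, w2, w3⟩ := hv3 ⟨by rw [hB2]; linarith, by rw [hB2]; linarith⟩
      have hrun' : P.M.runL P.M.init (P.tx z a ++ v') = P.M.runL P.M.init (P.tx z T) := by
        rw [(hAPP W A Q P.M P.M.init (P.tx z a) v' 0 0).1, ← hc0, hv1, hrunT]
      have hmsg' : P.M.msgs (-P.B2) P.B2 P.M.init (P.tx z a ++ v') = P.m2 z T := by
        rw [(hAPP W A Q P.M P.M.init (P.tx z a) v' (-P.B2) P.B2).2.1, ← hc0, w1]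
        unfold Par.m2
        rw [htxT, (hAPP W A Q P.M P.M.init (P.tx z a) _ (-P.B2) P.B2).2.1]
      have hyo : y ∈ P.M.inw (-P.B2) P.B2 P.M.init (P.tx z a ++ v') := by
        rw [(hAPP W A Q P.M P.M.init (P.tx z a) v' (-P.B2) P.B2).2.2.1]
        exact List.mem_append_right _ (w3 y hyA)
      obtain ⟨x1, x2, x3, x4⟩ := hMIX W A Q P.M (-P.B2) P.B2 P.M.init (by rw [hB2]; linarith)
        (hinit _ (by rw [hB2]; linarith)) (P.tx z T) (P.tx z' T') hm2.symm
      obtain ⟨y1, y2, y3, y4⟩ := hMIX W A Q P.M (-P.B2) P.B2 P.M.init (by rw [hB2]; linarith)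
        (hinit _ (by rw [hB2]; linarith)) (P.tx z a ++ v') (P.tx z' T') (by
          rw [hmsg', ← hm2]; rfl)
      rw [hrun'] at y2
      have heq := WL2_det _ _ _ _ _ _ y2 y3 x2 x3
      have hyw : y ∈ x1 := hPM W A Q P.M out hL hxy y1 x1 heq y ((y4 y).2 (Or.inl hyo))
      rcases (x4 y).1 hyw with h | h
      · exact hyS (hin z T P.B2 y le_rfl h)
      · exact hout z' T' P.B2 y (by rw [hB2]; linarith) h hyD

end Pool.Agent.T2H61.OT
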