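import Pool.Agent.T2H61.OT.Stm

/-!
# Project OT, package ZC: number of restricted secrets
-/

namespace Pool.Agent.T2H61.OT

open Finset

theorem pZC : S_ZC := by
  classical
  intro V _ _ E Qs
  have h1 : (univ.filter (fun z : V → Fin 4 => ∀ v ∈ Qs, (v ∈ E → z v ≠ 3) ∧ (v ∉ E → z v ≠ 0))) =
      Fintype.piFinset (fun v : V => if v ∈ Qs then (if v ∈ E then {3}ᶜ else {0}ᶜ) else
        (univ : Finset (Fin 4))) := by
    ext z
    rw [mem_filter, Fintype.mem_piFinset]
    constructor
    · rintro ⟨-, h⟩ v
      by_cases hv : v ∈ Qs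
      · rw [if_pos hv]
        by_cases hE : v ∈ E
        · rw [if_pos hE, mem_compl, mem_singleton]
          exact (h v hv).1 hE
        · rw [if_neg hE, mem_compl, mem_singleton]
          exact (h v hv).2 hE
      · rw [if_neg hv]
        exact mem_univ _
    · intro h
      refine ⟨mem_univ _, fun v hv => ?_⟩
      have h2 := h v
      rw [if_pos hv] at h2
      constructor
      · intro hE
        rw [if_pos hE, mem_compl, mem_singleton] at h2
        exact h2
      · intro hE
        rw [if_neg hE, mem_compl, mem_singleton] at h2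
        exact h2
  rw [h1, Fintype.card_piFinset]
  have h2 : ∀ v : V, (if v ∈ Qs then (if v ∈ E then ({3}ᶜ : Finset (Fin 4)) else {0}ᶜ) else
      (univ : Finset (Fin 4))).card = if v ∈ Qs then 3 else 4 := by
    intro v
    split_ifs <;> simp [card_compl]
  rw [prod_congr rfl (fun v _ => h2 v), prod_ite, prod_const, prod_const]
  have h3 : (univ.filter (fun v : V => v ∈ Qs)).card = Qs.card := by
    congr 1
    ext v
    simp
  have h4 : (univ.filter (fun v : V => ¬ v ∈ Qs)).card = Fintype.card V - Qs.card := by
    rw [← card_compl]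
    congr 1
    ext v
    simp
  rw [h3, h4, mul_assoc, ← pow_add, Nat.sub_add_cancel (card_le_univ _)]

end Pool.Agent.T2H61.OT
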