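import Pool.Agent.T2H61.OT.Stm

/-!
# Project OT, package ZG: most secrets are good
-/

namespace Pool.Agent.T2H61.OT

open Finset

/-- the number of words of a set outside the table -/
private theorem zg_count {W A Q : Type} [Fintype W] (P : Par W A Q) [Fintype P.U] (X : Set W)
    (Qs : Finset P.U) (hQ : ∀ v : P.U, v ∈ Qs ↔ v.1 ∈ X) :
    X.ncard ≤ Qs.card + P.K * P.V := by
  classical
  have hsub : X ⊆ ((fun v : P.U => v.1) '' (Qs : Set P.U)) ∪ Set.range P.F := by
    intro x hx
    by_cases h : x ∈ Set.range P.F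
    · exact Or.inr h
    · left
      refine ⟨(⟨x, h⟩ : P.U), ?_, rfl⟩
      exact Finset.mem_coe.2 ((hQ _).2 hx)
  have h1 : X.ncard ≤ (((fun v : P.U => v.1) '' (Qs : Set P.U)) ∪ Set.range P.F).ncard :=
    Set.ncard_le_ncard hsub (Set.toFinite _)
  have h2 := Set.ncard_union_le ((fun v : P.U => v.1) '' (Qs : Set P.U)) (Set.range P.F)
  have h3 : ((fun v : P.U => v.1) '' (Qs : Set P.U)).ncard ≤ Qs.card := by
    have := Set.ncard_image_le (f := fun v : P.U => v.1) (s := (Qs : Set P.U)) (Set.toFinite _)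
    simpa [Set.ncard_coe_finset] using this
  have h4 : (Set.range P.F).ncard ≤ P.K * P.V := by
    have h5 := Set.ncard_image_le (f := P.F) (s := Set.univ) (Set.toFinite _)
    rw [Set.image_univ, Set.ncard_univ, Nat.card_eq_fintype_card, Fintype.card_prod,
      Fintype.card_fin, Fintype.card_fin] at h5
    exact h5
  omega

theorem pZG (hZC : S_ZC) (hHC : S_HC) (hML : S_ML) (hAD2 : S_AD2) : S_ZG := by
  classical
  intro W A Q _ _ _ _ _ P _ m s k hnum
  obtain ⟨hOf, hOc⟩ := hHC A Q m P.K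
  obtain ⟨hMf, hMc⟩ := hML (Msg A Q) k
  -- the index set
  let I : Finset (Bool × List (Msg A Q) × Loc P.K A Q × Hist A Q × Loc P.K A Q) :=
    (univ : Finset Bool) ×ˢ hMf.toFinset ×ˢ (univ : Finset (Loc P.K A Q)) ×ˢ hOf.toFinset ×ˢ
      (univ : Finset (Loc P.K A Q))
  let E : Bool → List (Msg A Q) → Finset P.U := fun b μ =>
    if b = true then univ.filter (fun v : P.U => ∀ z' T', P.m1 z' T' = μ → v.1 ∈ P.S z')
    else univ.filter (fun v : P.U => ∃ z' T', P.m2 z' T' = μ ∧ v.1 ∈ P.D z')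
  let Qs : Loc P.K A Q → Hist A Q → Loc P.K A Q → Finset P.U := fun ℓ o fin =>
    univ.filter (fun v : P.U => v.1 ∈ P.wrd m ℓ o fin)
  let B : Bool × List (Msg A Q) × Loc P.K A Q × Hist A Q × Loc P.K A Q →
      Finset (P.U → Fin 4) := fun i =>
    if s < (P.wrd m i.2.2.1 i.2.2.2.1 i.2.2.2.2).ncard then
      univ.filter (fun z : P.U → Fin 4 => ∀ v ∈ Qs i.2.2.1 i.2.2.2.1 i.2.2.2.2,
        (v ∈ E i.1 i.2.1 → z v ≠ 3) ∧ (v ∉ E i.1 i.2.1 → z v ≠ 0))
    else ∅
  -- the total number of indices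
  set Nt : ℕ := (Fintype.card (Msg A Q) + 1) ^ k * (Fintype.card (Loc P.K A Q) *
      (2 ^ m * (Fintype.card (Msg A Q) * Fintype.card (Msg A Q)) ^ P.K)
      * Fintype.card (Loc P.K A Q)) with hNt
  have hI : I.card ≤ 2 * Nt := by
    have e1 : hMf.toFinset.card ≤ (Fintype.card (Msg A Q) + 1) ^ k := by
      rw [← Set.ncard_eq_toFinset_card _ hMf]; exact hMc
    have e2 : hOf.toFinset.card ≤
        2 ^ m * (Fintype.card (Msg A Q) * Fintype.card (Msg A Q)) ^ P.K := by
      rw [← Set.ncard_eq_toFinset_card _ hOf]; exact hOc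
    have e3 : I.card = 2 * (hMf.toFinset.card * (Fintype.card (Loc P.K A Q) *
        (hOf.toFinset.card * Fintype.card (Loc P.K A Q)))) := by
      simp only [I, Finset.card_product, Finset.card_univ, Fintype.card_bool]
    rw [e3, hNt]
    have e4 : Fintype.card (Loc P.K A Q) * (hOf.toFinset.card * Fintype.card (Loc P.K A Q)) ≤
        Fintype.card (Loc P.K A Q) *
      (2 ^ m * (Fintype.card (Msg A Q) * Fintype.card (Msg A Q)) ^ P.K)
      * Fintype.card (Loc P.K A Q) := by
      rw [mul_assoc]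
      exact Nat.mul_le_mul_left _ (Nat.mul_le_mul_right _ e2)
    exact Nat.mul_le_mul_left _ (Nat.mul_le_mul e1 e4)
  have hNpos : 0 < Nt := by
    rw [hNt]
    have g1 : 0 < Fintype.card (Loc P.K A Q) := Fintype.card_pos
    have g2 : 0 < Fintype.card (Msg A Q) := Fintype.card_pos
    positivity
  -- every single set is small
  have hB : ∀ i, 4 * Nt * (B i).card ≤ 4 ^ Fintype.card P.U := by
    intro i
    by_cases hs : s < (P.wrd m i.2.2.1 i.2.2.2.1 i.2.2.2.2).ncard
    · have hBi : B i = univ.filter (fun z : P.U → Fin 4 =>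
          ∀ v ∈ Qs i.2.2.1 i.2.2.2.1 i.2.2.2.2,
          (v ∈ E i.1 i.2.1 → z v ≠ 3) ∧ (v ∉ E i.1 i.2.1 → z v ≠ 0)) := if_pos hs
      have hz := hZC P.U (E i.1 i.2.1) (Qs i.2.2.1 i.2.2.2.1 i.2.2.2.2)
      set q := (Qs i.2.2.1 i.2.2.2.1 i.2.2.2.2).card with hq
      have hcnt := zg_count P (P.wrd m i.2.2.1 i.2.2.2.1 i.2.2.2.2)
        (Qs i.2.2.1 i.2.2.2.1 i.2.2.2.2) (fun v => by simp only [Qs, mem_filter, mem_univ, true_and])
      have hn := hnum q (by omega)
      have hz' : (B i).card * 4 ^ q = 3 ^ q * 4 ^ Fintype.card P.U := by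
        rw [hBi, ← hz]
      have h4 : 0 < 4 ^ q := by positivity
      refine Nat.le_of_mul_le_mul_right ?_ h4
      calc 4 * Nt * (B i).card * 4 ^ q = 4 * Nt * ((B i).card * 4 ^ q) := by ring
        _ = (4 * Nt * 3 ^ q) * 4 ^ Fintype.card P.U := by rw [hz']; ring
        _ ≤ 4 ^ q * 4 ^ Fintype.card P.U := by
            refine Nat.mul_le_mul_right _ ?_
            calc 4 * Nt * 3 ^ q = 4 * (Fintype.card (Msg A Q) + 1) ^ k *
                (Fintype.card (Loc P.K A Q) *
                (2 ^ m * (Fintype.card (Msg A Q) * Fintype.card (Msg A Q)) ^ P.K)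
                * Fintype.card (Loc P.K A Q)) * 3 ^ q := by rw [hNt]; ring
              _ ≤ 4 ^ q := hn
        _ = 4 ^ Fintype.card P.U * 4 ^ q := by ring
    · have hBi : B i = ∅ := if_neg hs
      rw [hBi]; simp
  -- the bad secrets are covered
  have hcov : {z : P.U → Fin 4 | ¬ P.GoodZ m s k z} ⊆ ((I.biUnion B : Finset _) : Set _) := by
    intro z hz
    obtain ⟨_, _, _, _, hSD, _, _⟩ := hAD2 W A Q P z
    simp only [Set.mem_ofPred_eq, Par.GoodZ] at hz
    push Not at hz
    obtain ⟨T, ℓ, o, fin, ho1, ho2, hs, hbad⟩ := hz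
    rw [Finset.mem_coe, Finset.mem_biUnion]
    by_cases h1 : (P.m1 z T).length ≤ k → ∃ x ∈ P.wrd m ℓ o fin, x ∈ P.D z ∧
      ∃ z' T', P.m1 z' T' = P.m1 z T ∧ x ∉ P.S z'
    · obtain ⟨hk, hb⟩ := hbad h1
      refine ⟨(false, P.m2 z T, ℓ, o, fin), ?_, ?_⟩
      · simp only [I, Finset.mem_product, Finset.mem_univ, true_and, and_true,
          Set.Finite.mem_toFinset, Set.mem_ofPred_eq]
        exact ⟨hk, ho1, ho2⟩
      · simp only [B, if_pos hs, mem_filter, mem_univ, true_and, E, Qs]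
        intro v hv
        constructor
        · intro hE
          simp only [Bool.false_eq_true, if_false, mem_filter, mem_univ, true_and] at hE
          obtain ⟨z', T', e1, e2⟩ := hE
          rw [← (hSD v).1]
          by_contra hns
          exact hb v.1 hv hns z' T' e1 e2
        · intro hE h0
          simp only [Bool.false_eq_true, if_false, mem_filter, mem_univ, true_and] at hE
          exact hE ⟨z, T, rfl, ((hSD v).2).2 h0⟩
    · push Not at h1
      obtain ⟨hk, hb⟩ := h1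
      refine ⟨(true, P.m1 z T, ℓ, o, fin), ?_, ?_⟩
      · simp only [I, Finset.mem_product, Finset.mem_univ, true_and, and_true,
          Set.Finite.mem_toFinset, Set.mem_ofPred_eq]
        exact ⟨hk, ho1, ho2⟩
      · simp only [B, if_pos hs, mem_filter, mem_univ, true_and, E, Qs]
        intro v hv
        constructor
        · intro hE
          simp only [if_true, mem_filter, mem_univ, true_and] at hE
          rw [← (hSD v).1]
          exact hE z T rfl
        · intro hE h0
          simp only [if_true, mem_filter, mem_univ, true_and] at hE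
          push Not at hE
          obtain ⟨z', T', e1, e2⟩ := hE
          exact e2 (hb v.1 hv (((hSD v).2).2 h0) z' T' e1)
  have hcard : {z : P.U → Fin 4 | ¬ P.GoodZ m s k z}.ncard ≤ ∑ i ∈ I, (B i).card := by
    refine (Set.ncard_le_ncard hcov (Set.toFinite _)).trans ?_
    rw [Set.ncard_coe_finset]
    exact Finset.card_biUnion_le
  have hsum : 4 * Nt * ∑ i ∈ I, (B i).card ≤ 2 * Nt * 4 ^ Fintype.card P.U := by
    rw [Finset.mul_sum]
    calc ∑ i ∈ I, 4 * Nt * (B i).card ≤ ∑ _i ∈ I, 4 ^ Fintype.card P.U :=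
          Finset.sum_le_sum (fun i _ => hB i)
      _ = I.card * 4 ^ Fintype.card P.U := by rw [Finset.sum_const, smul_eq_mul]
      _ ≤ 2 * Nt * 4 ^ Fintype.card P.U := Nat.mul_le_mul_right _ hI
  have h2N : 0 < 2 * Nt := by omega
  refine Nat.le_of_mul_le_mul_left ?_ h2N
  calc 2 * Nt * (2 * {z : P.U → Fin 4 | ¬ P.GoodZ m s k z}.ncard)
      = 4 * Nt * {z : P.U → Fin 4 | ¬ P.GoodZ m s k z}.ncard := by ring
    _ ≤ 4 * Nt * ∑ i ∈ I, (B i).card := Nat.mul_le_mul_left _ hcard
    _ ≤ 2 * Nt * 4 ^ Fintype.card P.U := hsum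

end Pool.Agent.T2H61.OT
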