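import Pool.Agent.T2H61.OT.Defs

/-!
# Project OT: the adversary
-/

namespace Pool.Agent.T2H61.OT

variable {W A Q : Type}

/-- Parameters of the adversary: the machine, the number `N` of words, an enumeration `e` of the
words (used on `0, ..., N-1`), the interval length `K`, the number `V` of visits covered by the
table, and the table `F`. -/
structure Par (W A Q : Type) where
  M : FM W A Q
  N : ℕ
  K : ℕ
  V : ℕ
  hK : 2 ≤ K
  hV : 1 ≤ V
  e : ℕ → W
  he : ∀ w, ∃ i, i < N ∧ e i = w
  F : Fin K × Fin V → W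

namespace Par

variable (P : Par W A Q)

/-- table entry for a position and a number of earlier visits -/
def tab (g : ℤ) (k : ℕ) : Fin P.K × Fin P.V :=
  (⟨(g % (P.K : ℤ)).toNat, by
      have h0 : (0 : ℤ) < (P.K : ℤ) := by have := P.hK; omega
      have h1 := Int.emod_nonneg g (ne_of_gt h0)
      have h2 := Int.emod_lt_of_pos g h0
      omega⟩,
   ⟨min k (P.V - 1), by have := P.hV; omega⟩)

/-- a fixed word of the table -/
def w0 : W := P.F (P.tab 0 0)

/-- the words that are not in the table -/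
def U : Type := {w : W // w ∉ Set.range P.F}

/-- the words shown in the first phase -/
def S (z : P.U → Fin 4) : Set W := {w | ∀ h : w ∉ Set.range P.F, z ⟨w, h⟩ ≠ 3}

/-- the words that are never inserted in the second phase -/
def D (z : P.U → Fin 4) : Set W := {w | ∃ h : w ∉ Set.range P.F, z ⟨w, h⟩ = 0}

/-- the two cut positions -/
def B1 : ℤ := (P.N : ℤ) + 1
def B2 : ℤ := (P.N : ℤ) + P.K + 6

/-- head position after the list `u` -/
def hd (u : List W) : ℤ := (P.M.runL P.M.init u).g

/-- number of visits of `g` at the times `N ≤ s < |u|` -/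
def cnt (u : List W) (g : ℤ) : ℕ :=
  ((Finset.Ico P.N u.length).filter (fun s => P.hd (u.take s) = g)).card

open Classical in
/-- the next word given by the adversary after the list `u` -/
noncomputable def next (z : P.U → Fin 4) (u : List W) : W :=
  if u.length < P.N then (if P.e u.length ∈ P.S z then P.e u.length else P.w0)
  else if P.B2 < |P.hd u| ∧ (P.K : ℤ) ∣ P.hd u ∧ P.cnt u (P.hd u) = 0 then
    (if P.e (((P.hd u).natAbs / P.K) % P.N) ∈ P.D z then P.w0
      else P.e (((P.hd u).natAbs / P.K) % P.N))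
  else P.F (P.tab (P.hd u) (P.cnt u (P.hd u)))

/-- the first `t` words of the text -/
noncomputable def tx (z : P.U → Fin 4) : ℕ → List W
  | 0 => []
  | t + 1 => tx z t ++ [P.next z (tx z t)]

/-- the text as a stream -/
noncomputable def st (z : P.U → Fin 4) (t : ℕ) : W := P.next z (P.tx z t)

/-- the head position at time `t` -/
noncomputable def pos (z : P.U → Fin 4) (t : ℕ) : ℤ := P.hd (P.tx z t)

/-- the number of visits of `x` at the times `N ≤ s < T` -/
noncomputable def vis (z : P.U → Fin 4) (T : ℕ) (x : ℤ) : ℕ :=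
  ((Finset.Ico P.N T).filter (fun s => P.pos z s = x)).card

/-- the messages at the first cut -/
noncomputable def m1 (z : P.U → Fin 4) (T : ℕ) : List (Msg A Q) :=
  P.M.msgs (-P.B1) P.B1 P.M.init (P.tx z T)

/-- the messages at the second cut -/
noncomputable def m2 (z : P.U → Fin 4) (T : ℕ) : List (Msg A Q) :=
  P.M.msgs (-P.B2) P.B2 P.M.init (P.tx z T)

/-- the words that occur in some accepted word list of a history of `m` words -/
def wrd (m : ℕ) (ℓ : Loc P.K A Q) (o : Hist A Q) (fin : Loc P.K A Q) : Set W :=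
  {x | ∃ a : List W, a.length = m ∧ P.M.Acc ℓ o fin a ∧ x ∈ a}

/-- the table is good: real word lists differ from accepted word lists of small fibres in at
least two places -/
def GoodF (m s : ℕ) : Prop :=
  ∀ (ℓ : Loc P.K A Q) (o : Hist A Q) (fin : Loc P.K A Q), o.length = m → exc o < P.K →
    (P.wrd m ℓ o fin).ncard ≤ s → ∀ a : List W, a.length = m → P.M.Acc ℓ o fin a →
    ∀ t : ℕ → Fin P.K × Fin P.V, (∀ i j, i < m → j < m → t i = t j → i = j) →
    ∃ i j, i < m ∧ j < m ∧ i ≠ j ∧ a[i]? ≠ some (P.F (t i)) ∧ a[j]? ≠ some (P.F (t j))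

/-- the secret `z` is good -/
def GoodZ (m s k : ℕ) (z : P.U → Fin 4) : Prop :=
  ∀ (T : ℕ) (ℓ : Loc P.K A Q) (o : Hist A Q) (fin : Loc P.K A Q), o.length = m → exc o < P.K →
    s < (P.wrd m ℓ o fin).ncard →
    ((P.m1 z T).length ≤ k → ∃ x ∈ P.wrd m ℓ o fin, x ∈ P.D z ∧
      ∃ z' T', P.m1 z' T' = P.m1 z T ∧ x ∉ P.S z') ∧
    ((P.m2 z T).length ≤ k → ∃ x ∈ P.wrd m ℓ o fin, x ∉ P.S z ∧
      ∃ z' T', P.m2 z' T' = P.m2 z T ∧ x ∈ P.D z')

end Par

end Pool.Agent.T2H61.OT
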