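import Mathlib

/-!
# Automatic families and linear-time learners with one additional work-tape
(MP_e130ca_lc)
-/

namespace Pool.Agent.T2H61.OT

/-- Convolution of two words: letter-by-letter combination, the shorter word is padded with
`none` (the symbol `#`). -/
def conv {β α : Type} : List β → List α → List (Option β × Option α)
  | [], [] => []
  | a :: u, [] => (some a, none) :: conv u []
  | [], b :: v => (none, some b) :: conv [] v
  | a :: u, b :: v => (some a, some b) :: conv u v

/-- An automatic family of languages over the alphabet `α` with indices over the alphabet `β`:
the index set `I` is regular and so is the set of all `conv e x` with `e` in `I`, `x` in `L e`. -/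
structure AutomaticFamily (β α : Type) where
  I : Language β
  L : List β → Language α
  regI : I.IsRegular
  regL : Language.IsRegular ({y | ∃ e ∈ I, ∃ x ∈ L e, y = conv e x} : Language (Option β × Option α))

/-- A text for a language: a sequence whose set of entries is the language. -/
def IsText {α : Type} (T : ℕ → List α) (L : Language α) : Prop := Set.range T = L

/-- The hypotheses `E k` (conjectured after reading `T 0, ..., T k`) are indices and are correct
for all but finitely many `k`. -/
def Converges {β α : Type} (Fam : AutomaticFamily β α) (e : List β) (E : ℕ → List β) : Prop :=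
  (∀ k, E k ∈ Fam.I) ∧ ∃ k0, ∀ k, k0 ≤ k → Fam.L (E k) = Fam.L e

/-- The family is learnable (by an unrestricted learner `f`, which gets the finite sequence of the
words read so far). -/
def Learnable {β α : Type} (Fam : AutomaticFamily β α) : Prop :=
  ∃ f : List (List α) → List β, ∀ e ∈ Fam.I, ∀ T : ℕ → List α, IsText T (Fam.L e) →
    Converges Fam e (fun k => f ((List.range (k + 1)).map T))

/-- Angluin's tell-tale condition. -/
def TellTale {β α : Type} (Fam : AutomaticFamily β α) : Prop :=
  ∀ e ∈ Fam.I, ∃ D : Finset (List α), (∀ x ∈ D, x ∈ Fam.L e) ∧
    ¬ ∃ d ∈ Fam.I, (∀ x ∈ D, x ∈ Fam.L d) ∧ (∀ x ∈ Fam.L d, x ∈ Fam.L e) ∧ Fam.L d ≠ Fam.L e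

/-- A cell of the base tape: a letter of the input or blank, a letter of the output or blank, a
memory symbol. -/
abbrev Cell (β α Mem : Type) := Option α × Option β × Mem

/-- A Turing machine with a base tape (tape `0`) and one additional work-tape (tape `1`).
Both tapes are two-way infinite; moves are coded by `Fin 3` (`0` left, `1` stay, `2` right). -/
structure Machine (β α : Type) where
  St : Type
  Mem : Type
  Γ : Type
  finSt : Fintype St
  finMem : Fintype Mem
  finΓ : Fintype Γ
  start : St
  halt : St → Bool
  memBlank : Mem
  blank : Γ
  tr : St → Cell β α Mem → Γ → St × Cell β α Mem × Γ × Fin 3 × Fin 3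

/-- Configurations: state, contents and head position of the base tape and of the work-tape. -/
structure TConf {β α : Type} (m : Machine β α) where
  st : m.St
  t0 : ℤ → Cell β α m.Mem
  h0 : ℤ
  t1 : ℤ → m.Γ
  h1 : ℤ

namespace Machine

variable {β α : Type} (m : Machine β α)

/-- One step of the machine; nothing happens in a halting state. -/
def stp (c : TConf m) : TConf m :=
  if m.halt c.st then c else
    let r := m.tr c.st (c.t0 c.h0) (c.t1 c.h1)
    { st := r.1
      t0 := fun i => if i = c.h0 then r.2.1 else c.t0 i
      h0 := c.h0 + ((r.2.2.2.1 : ℕ) : ℤ) - 1
      t1 := fun i => if i = c.h1 then r.2.2.1 else c.t1 i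
      h1 := c.h1 + ((r.2.2.2.2 : ℕ) : ℤ) - 1 }

/-- Start of a cycle: the input word `w` is written on the input track, beginning at the cell `0`
(all other cells of the input track are blank); output track and memory track are kept; the head
of the base tape is put on the cell `0`; the machine starts in its start state; content and head
position of the work-tape are kept. -/
def load (w : List α) (c : TConf m) : TConf m :=
  { st := m.start
    t0 := fun i => (if 0 ≤ i then w[i.toNat]? else none, (c.t0 i).2)
    h0 := 0
    t1 := c.t1
    h1 := c.h1 }

/-- The initial configuration: all tapes are blank. -/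
def initial : TConf m :=
  { st := m.start
    t0 := fun _ => (none, none, m.memBlank)
    h0 := 0
    t1 := fun _ => m.blank
    h1 := 0 }

/-- The maximal length of the words `T 0, ..., T k`. -/
def maxLen (T : ℕ → List α) (k : ℕ) : ℕ := (Finset.range (k + 1)).sup (fun j => (T j).length)

/-- The configuration after `k` cycles on the text `T`, where cycle `k` consists of
`c (n + 1)` steps, `n` the maximal length of a word read so far. -/
def run (c : ℕ) (T : ℕ → List α) : ℕ → TConf m
  | 0 => m.initial
  | k + 1 => m.stp^[c * (maxLen T k + 1)] (m.load (T k) (run c T k))

/-- The machine works in linear time on the text `T`: every cycle `k` takes at most `c (n + 1)`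
steps (it has reached a halting state after this number of steps), and after it the base tape has
length at most `n` plus a constant (only cells between `-a` and `n + a` are not blank); here `n`
is the maximal length of a word read so far. -/
def LinearTimeOn (c a : ℕ) (T : ℕ → List α) : Prop :=
  ∀ k, m.halt (m.run c T (k + 1)).st = true ∧
    ∀ i : ℤ, (i < -(a : ℤ) ∨ (maxLen T k : ℤ) + a < i) →
      (m.run c T (k + 1)).t0 i = (none, none, m.memBlank)

/-- After cycle `k` the output track of the base tape carries exactly the word `e`, beginning at
the cell `0`. -/
def Output (c : ℕ) (T : ℕ → List α) (k : ℕ) (e : List β) : Prop :=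
  ∀ i : ℤ, ((m.run c T (k + 1)).t0 i).2.1 = if 0 ≤ i then e[i.toNat]? else none

/-- The machine is a linear-time learner (with one additional work-tape) of the family. -/
def LinearTimeLearns (c a : ℕ) (Fam : AutomaticFamily β α) : Prop :=
  ∀ e ∈ Fam.I, ∀ T : ℕ → List α, IsText T (Fam.L e) →
    m.LinearTimeOn c a T ∧ ∃ E : ℕ → List β, (∀ k, m.Output c T k (E k)) ∧ Converges Fam e E

end Machine

/-! ### The family -/

/-- The index set: non-empty words over `{0, 1}` (coded by `some false`, `some true`) and
non-empty words that only use the third letter `none`. -/
def famI : Language (Option Bool) :=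
  {e | e ≠ [] ∧ ((∀ b ∈ e, b = none) ∨ (∀ b ∈ e, b ≠ none))}

/-- The languages: for an index without the letter `none`, all binary words of the same length
except the index itself; for the index `none^n`, all binary words of length `n`. -/
def famL (e : List (Option Bool)) : Language Bool :=
  {x | x.length = e.length ∧ x.map some ≠ e}

end Pool.Agent.T2H61.OT
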