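import Pool.Agent.T2H61.OT.Adv

/-!
# Project OT: statements of the packages

Package `X` : prove `theorem pX (dependencies) : S_X` in the file `T_X.lean`
(`import Pool.Agent.T2H61.OT.Stm`, namespace `Pool.Agent.T2H61.OT`, helper lemmas private or
prefixed with the package name).
-/

namespace Pool.Agent.T2H61.OT

open Finset

/-- APP (20 min). Append rules.
Proof. Induction on `u`. -/
def S_APP : Prop := ∀ (W A Q : Type) (M : FM W A Q) (c : Conf A Q) (u v : List W) (l r : ℤ),
  M.runL c (u ++ v) = M.runL (M.runL c u) v ∧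
  M.msgs l r c (u ++ v) = M.msgs l r c u ++ M.msgs l r (M.runL c u) v ∧
  M.inw l r c (u ++ v) = M.inw l r c u ++ M.inw l r (M.runL c u) v ∧
  M.outw l r c (u ++ v) = M.outw l r c u ++ M.outw l r (M.runL c u) v ∧
  M.ent l r c (u ++ v) = M.ent l r c u + M.ent l r (M.runL c u) v ∧
  (∀ x, x ∈ u ↔ x ∈ M.inw l r c u ∨ x ∈ M.outw l r c u) ∧
  (M.inw l r c u).length + (M.outw l r c u).length = u.length

/-- PM (30 min), perfect memory.
Proof. Suppose `x ∈ u`, `x ∉ v`. The set of words different from `x` is finite and non-empty, so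
there is `h : ℕ → W` with range `{x}ᶜ`. The streams `u ++ h`, `v ++ h` (first the list, then
`h`) reach the same configuration after `|u| + k` resp. `|v| + k` words. If some element of `v`...
note that `v` does not contain `x`, so the second stream has range `{x}ᶜ` and the first has range
`univ`. Hence `out` of the common control state is eventually both true and false. -/
def S_PM : Prop := ∀ (W A Q : Type) [Fintype W] (M : FM W A Q) (out : Q → Prop), M.Learns out →
  (∃ x y : W, x ≠ y) → ∀ u v : List W, M.runL M.init u = M.runL M.init v → ∀ x, x ∈ u → x ∈ v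

/-- MIX (60 min), cut and paste at an interval.
Proof (use APP with `v = [y]`). Prove it with the additional conclusion
`M.msgs l r c w = M.msgs l r c u`, by strong induction on `|u| + |v|`. As the lists of messages
are equal and both runs start inside, the heads at the end of `u` and of `v` are on the same side
(parity of the number of messages).
End inside: (a) if `v = v0 ++ [y]` and the last step of `v` does not cross: the list `w` for
`(u, v0)` works (the cells `< l-1`, `> r+1` are not touched by a step at `g` in `[l, r]`).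
(b) otherwise, if `u = u0 ++ [y]` and its last step does not cross: take `w0` for `(u0, v)` and
`w = w0 ++ [y]`. (c) otherwise `u = v = []` (take `w = []`) or both last steps enter the interval:
`u = u0 ++ [y']`, `v = v0 ++ [y]`, the last messages agree and so do the others; take `w0` for
`(u0, v0)` and `w = w0 ++ [y]`: the step is done by the outside part, the core `[l+1, r-1]` is
not touched, the four boundary cells, the state and the side are in the message (the side
determines the head position because a head that enters is at `l` or at `r`).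
End outside: symmetric with the roles of `u` and `v` exchanged (the last step that crosses is now
done by the inside part, `w = w0 ++ [y']` with `y'` from `u`). -/
def S_MIX : Prop := ∀ (W A Q : Type) (M : FM W A Q) (l r : ℤ) (c : Conf A Q), l < r →
  inI l r c → ∀ u v : List W, M.msgs l r c u = M.msgs l r c v → ∃ w : List W,
    simIn l r (M.runL c w) (M.runL c u) ∧ simOut l r (M.runL c w) (M.runL c v) ∧
    ∀ x, x ∈ w ↔ x ∈ M.inw l r c u ∨ x ∈ M.outw l r c v

/-- LOC (30 min), the local description is correct for one step.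
Proof. `res K p c` records the cells `p-1, ..., p+K`; for a head in `[p, p+K-1]` the step reads
and writes the cells `g-1, g, g+1`, all of them in the record; translation invariance of `step`. -/
def S_LOC : Prop := ∀ (W A Q : Type) (M : FM W A Q) (K : ℕ) (p : ℤ) (c : Conf A Q) (w : W),
  2 ≤ K →
  (inI p (p + K - 1) c → M.lstep w (res K p c) = res K p (M.step w c) ∧
    (∀ i, (i < p - 1 ∨ p + K < i) → (M.step w c).f i = c.f i)) ∧
  (p - 1 ≤ c.g → c.g ≤ p + K → ((Inside (res K p c) ↔ inI p (p + K - 1) c) ∧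
    lmsg (res K p c) = msg p (p + K - 1) c)) ∧
  (∀ c' : Conf A Q, (c'.g = p ∨ c'.g = p + K - 1) →
    (∀ i, p + 1 ≤ i → i ≤ p + K - 2 → c'.f i = c.f i) →
    merge (res K p c) (msg p (p + K - 1) c') = res K p c') ∧
  (∀ c' : Conf A Q, p - 1 ≤ c.g → c.g ≤ p + K → p - 1 ≤ c'.g → c'.g ≤ p + K →
    res K p c = res K p c' →
    c.q = c'.q ∧ c.g = c'.g ∧ ∀ i, p - 1 ≤ i → i ≤ p + K → c.f i = c'.f i)

/-- WIN (75 min; uses LOC), histories of an interval and replacement.
`v ++ [x]` is a list of words read from `c`; the head is in `J = [p, p+K-1]` at the beginning and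
when the last word `x` is read. Then the evolution inside `J` has a history, with as many
excursions as there are steps entering `J`; and every other list `A'` of words accepted by this
history can be substituted for the words read inside `J` without changing the rest.
Proof. Induction on the number of words read inside `J`. Generalise the second part to two
configurations `c, c'` with heads in `J` that agree on the cells outside `[p-1, p+K]`, and `A'`
accepted from `res K p c'`: there is `v'` with `M.runL c' v' = M.runL c (v ++ [x])` and so on.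
One step: read the first word. If the head stays in `J` (history `none`), go on. If it leaves
`J` and this was not the last word: the outside words up to the next entrance are kept; as the
two outgoing messages agree, the two runs agree on state, head and all cells `≤ p` or `≥ p+K-1`
until the next entrance, where the new local state is the `merge` of the old one with the
incoming message (LOC). If `[l, r]` is far from `J` (or contains `J` with a margin), no step from
a head in `J` crosses `[l, r]`, and the four boundary cells of `[l, r]` are not in the core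
`[p+1, p+K-2]`; so the messages are the same. At the end `res` of the two final configurations
agree, hence the configurations agree. -/
def S_WIN : Prop := ∀ (W A Q : Type) (M : FM W A Q) (K : ℕ) (p : ℤ) (c : Conf A Q)
  (v : List W) (x : W), 2 ≤ K → inI p (p + K - 1) c → inI p (p + K - 1) (M.runL c v) →
  ∃ (o : Hist A Q) (fin : Loc K A Q),
    o.length = (M.inw p (p + K - 1) c (v ++ [x])).length ∧
    exc o = M.ent p (p + K - 1) c (v ++ [x]) ∧
    M.Acc (res K p c) o fin (M.inw p (p + K - 1) c (v ++ [x])) ∧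
    ∀ A' : List W, M.Acc (res K p c) o fin A' → ∃ v' : List W,
      M.runL c v' = M.runL c (v ++ [x]) ∧
      ∀ l r : ℤ, l ≤ r →
        ((p + K < l ∨ r + 1 < p) → M.msgs l r c v' = M.msgs l r c (v ++ [x]) ∧
          M.inw l r c v' = M.inw l r c (v ++ [x]) ∧ ∀ y ∈ A', y ∈ M.outw l r c v') ∧
        ((l < p ∧ p + K - 1 < r) → M.msgs l r c v' = M.msgs l r c (v ++ [x]) ∧
          M.outw l r c v' = M.outw l r c (v ++ [x]) ∧ ∀ y ∈ A', y ∈ M.inw l r c v')

/-- FG (40 min), a good table exists.
Proof. Count the bad tables `F`: for some `i`, some `a` with `R i a`, some injective `t` and some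
`j0` we have `a j = F (t j)` for all `j ≠ j0`. For fixed `(i, a, t, j0)` there are at most
`N^(|Tb| - (m-1))` such `F` (the values at `m - 1` different places are prescribed). For fixed
`i` there are at most `s^m` functions `a` (all values in a set of size `≤ s`). The total is at
most `|I| s^m |Tb|^m m N^(|Tb|-m+1) < N^|Tb|`. -/
def S_FG : Prop := ∀ (W Tb I : Type) [Fintype W] [Fintype Tb] [Fintype I] (m s : ℕ)
  (R : I → (Fin m → W) → Prop), 1 ≤ m →
  (∀ i, {x : W | ∃ a, R i a ∧ ∃ j, a j = x}.ncard ≤ s) →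
  Fintype.card I * Fintype.card Tb ^ m * m * s ^ m * Fintype.card W < Fintype.card W ^ m →
  ∃ F : Tb → W, ∀ i a, R i a → ∀ t : Fin m → Tb, Function.Injective t →
    ∃ j j', j ≠ j' ∧ a j ≠ F (t j) ∧ a j' ≠ F (t j')

/-- HC (30 min), number of histories.
Proof. A history with fewer than `k` entries `some` is determined by its pattern (`2^m`) and by
the list of the values, padded to length `k`. -/
def S_HC : Prop := ∀ (A Q : Type) [Fintype A] [Fintype Q] [Nonempty A] [Nonempty Q] (m k : ℕ),
  {o : Hist A Q | o.length = m ∧ exc o < k}.Finite ∧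
  {o : Hist A Q | o.length = m ∧ exc o < k}.ncard ≤
    2 ^ m * (Fintype.card (Msg A Q) * Fintype.card (Msg A Q)) ^ k

/-- ML (15 min), number of lists of length at most `k`: inject into `Fin k → Option X`. -/
def S_ML : Prop := ∀ (X : Type) [Fintype X] (k : ℕ),
  {l : List X | l.length ≤ k}.Finite ∧
  {l : List X | l.length ≤ k}.ncard ≤ (Fintype.card X + 1) ^ k

/-- ZC (25 min), number of secrets with restrictions on `Qs`: three values are allowed at every
place of `Qs`, four at all others. -/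
def S_ZC : Prop := ∀ (V : Type) [Fintype V] [DecidableEq V] (E Qs : Finset V),
  (univ.filter (fun z : V → Fin 4 => ∀ v ∈ Qs, (v ∈ E → z v ≠ 3) ∧ (v ∉ E → z v ≠ 0))).card
    * 4 ^ Qs.card = 3 ^ Qs.card * 4 ^ Fintype.card V

/-- UD (90 min), unique disjointness.
Proof. Put `n = |V|`, `Df = {D(z) : z ∈ Z}`, `Sf = {S(z) : z ∈ Z}` with `D(z) = {z = 0}`,
`S(z) = {z ≠ 3}`. For `T ⊆ V` let `Df_T = {D ∈ Df : D ⊆ T}`, `Sf_T = {S ∈ Sf : T ⊆ S}`,
`c(T) = |Df_T| |Sf_T|`. The map `z ↦ (T, D(z), S(z))`, `T = {z ∈ {0, 1}}`, is a bijection from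
all `z` to the triples `D ⊆ T ⊆ S`; so `Σ c(T)` is the number of `z` with `D(z) ∈ Df`,
`S(z) ∈ Sf`, in particular `Σ c(T) ≥ |Z| ≥ 4^n / 2^lam`.
Suppose that no `D ∈ Df`, `S ∈ Sf` have `|D \ S| = 1`. For `i ∈ T`, `T' = T \ {i}`, either no
`D ∈ Df_T` contains `i` or no `S ∈ Sf_{T'}` avoids `i` (otherwise `D \ S = {i}`). Hence
`Σ_T Σ_{i ∈ T} |Df_{T'}| |Sf_T| ≤ Σ_T mD(T) c(T) + Σ_T mS(T) c(T)`, where `mD(T)` is the number
of `i ∈ T` contained in no `D ∈ Df_T` and `mS(T)` the number of `i ∉ T` contained in all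
`S ∈ Sf_T` (for the second sum use `|Df_{T'}| |Sf_T| ≤ c(T')`). The left side is the number of
`(z, i)` with `D(z) ∈ Df`, `S(z) ∈ Sf`, `z i = 1`; all but `2^(n/8) (7/2)^n` of all `z` have at
least `n/8` places with `z i = 1` (as `Σ_z 2^(-#{z=1}) = (3 + 1/2)^n`). On the other hand
`c(T) ≤ 2^(|T| - mD) 2^(n - |T| - mS)`, so with `r = 2 lam + 6` the right side is at most
`r Σ c(T) + 4^n (r+2) 2^(-r)` (`m 2^(n-m) ≤ (r+2) 2^(n-r)` for `m ≥ r`). For `n ≥ 100 (lam + 2)`
this is a contradiction. -/
def S_UD : Prop := ∀ (V : Type) [Fintype V] [DecidableEq V] (lam : ℕ) (Z : Finset (V → Fin 4)),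
  100 * (lam + 2) ≤ Fintype.card V → 4 ^ Fintype.card V ≤ 2 ^ lam * Z.card →
  ∃ z1 ∈ Z, ∃ z2 ∈ Z, ∃ e, ∀ v, (z2 v = 0 ∧ z1 v = 3) ↔ v = e

/-- LT (75 min), bound for the local time. Put `K = 4 C`, `J_p = [p, p+K-1]`.
Hypothesis: every time window that starts and ends in `J_p` and has exactly `C K` times in `J_p`
has at least `K` entrances into `J_p`. Then every point is visited at most `K^2` times.
Proof. (1) Let `m_p` be the number of `s ∈ [N, T)` with `g s ∈ J_p` and `e_p` the number of
entrances (`s, s+1 ∈ [N, T)`, `g s ∉ J_p`, `g (s+1) ∈ J_p`). Cutting the times in `J_p` into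
consecutive windows of `C K` times, `m_p ≤ C K + C e_p`. (2) For `n[x, y)` = number of
`s ∈ [N, T)` with `x ≤ g s < y`: sum (1) over `p ∈ [a, b)`: the left side is at least
`K n[a+K-1, b)`, and every `s` gives at most one entrance, with `g (s+1) ∈ [a, b+K-1)`, so
`K n[a+K-1, b) ≤ (b-a) C K + C n[a, b+K-1)`, i.e. `n[a+K-1, b) ≤ (b-a) C + n[a, b+K-1) / 4`.
(3) For `h(j) = n[x-jK, x+jK+1)` this gives `h(j) ≤ (2j+1) K C + h(j+1)/4`, and `h(j) ≤ T`. By
induction on `i`: `h(j) ≤ 3 K C (j+1) + T / 4^i` for all `j`. With `i` large and `j = 0`: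
`h(0) ≤ 3 K C ≤ K^2`. -/
def S_LT : Prop := ∀ (g : ℕ → ℤ) (C N T : ℕ), 1 ≤ C → (∀ s, |g (s + 1) - g s| ≤ 1) →
  (∀ (p : ℤ) (a a' : ℕ), N ≤ a → a < a' → a' ≤ T → p ≤ g a → g a ≤ p + (4 * C : ℕ) - 1 →
    p ≤ g (a' - 1) → g (a' - 1) ≤ p + (4 * C : ℕ) - 1 →
    ((Ico a a').filter (fun s => p ≤ g s ∧ g s ≤ p + (4 * C : ℕ) - 1)).card = C * (4 * C) →
    4 * C ≤ ((Ico a a').filter (fun s => s + 1 < a' ∧
      ¬ (p ≤ g s ∧ g s ≤ p + (4 * C : ℕ) - 1) ∧
      (p ≤ g (s + 1) ∧ g (s + 1) ≤ p + (4 * C : ℕ) - 1))).card) →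
  ∀ x, ((Ico N T).filter (fun s => g s = x)).card ≤ (4 * C) ^ 2

/-- SEG (40 min; uses APP), words and entrances of a segment of a stream.
Proof. Induction on `a' - a`; `pre u (t+1) = pre u t ++ [u t]`. -/
def S_SEG : Prop := ∀ (W A Q : Type) (M : FM W A Q) (u : ℕ → W) (l r : ℤ) (a a' : ℕ), a ≤ a' →
  (M.inw l r (M.runL M.init (pre u a)) ((List.range' a (a' - a)).map u)).length
    = ((Ico a a').filter (fun s => inI l r (M.runL M.init (pre u s)))).card ∧
  M.ent l r (M.runL M.init (pre u a)) ((List.range' a (a' - a)).map u)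
    = ((Ico a a').filter (fun s => ¬ inI l r (M.runL M.init (pre u s)) ∧
        inI l r (M.runL M.init (pre u (s + 1))))).card ∧
  ∃ s : ℕ → ℕ,
    (∀ i, i < (M.inw l r (M.runL M.init (pre u a)) ((List.range' a (a' - a)).map u)).length →
      a ≤ s i ∧ s i < a' ∧ inI l r (M.runL M.init (pre u (s i))) ∧
      (M.inw l r (M.runL M.init (pre u a)) ((List.range' a (a' - a)).map u))[i]?
        = some (u (s i))) ∧
    (∀ i j, i < j →
      j < (M.inw l r (M.runL M.init (pre u a)) ((List.range' a (a' - a)).map u)).length →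
      s i < s j)

/-- AD1 (25 min), basic facts on the text of the adversary. -/
def S_AD1 : Prop := ∀ (W A Q : Type) (P : Par W A Q) (z : P.U → Fin 4),
  (∀ t, (P.tx z t).length = t ∧ P.tx z t = pre (P.st z) t) ∧
  (∀ s t, s ≤ t → (P.tx z t).take s = P.tx z s) ∧
  (∀ t x, P.cnt (P.tx z t) x = P.vis z t x) ∧
  (∀ t, |P.pos z (t + 1) - P.pos z t| ≤ 1) ∧
  (∀ t, |P.pos z t| ≤ t) ∧
  (∀ t x, P.vis z t x ≤ P.vis z (t + 1) x) ∧
  (∀ s t, P.N ≤ s → s < t → P.vis z s (P.pos z s) < P.vis z t (P.pos z s))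

/-- AD2 (25 min), the words of the text. -/
def S_AD2 : Prop := ∀ (W A Q : Type) (P : Par W A Q) (z : P.U → Fin 4),
  (∀ t, |P.pos z t| ≤ P.B2 → P.st z t ∈ P.S z) ∧
  (∀ t, P.N ≤ t → P.st z t ∉ P.D z) ∧
  (∀ w ∈ P.S z, ∃ t, t < P.N ∧ P.st z t = w) ∧
  (∀ t, P.N ≤ t → (P.B2 < |P.pos z t| ∧ (P.K : ℤ) ∣ P.pos z t ∧ P.vis z t (P.pos z t) = 0) ∨
    P.st z t = P.F (P.tab (P.pos z t) (P.vis z t (P.pos z t)))) ∧
  (∀ x : P.U, (x.1 ∈ P.S z ↔ z x ≠ 3) ∧ (x.1 ∈ P.D z ↔ z x = 0)) ∧
  (∀ w, w ∈ Set.range P.F → w ∈ P.S z ∧ w ∉ P.D z) ∧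
  (P.D z ⊆ P.S z)

/-- MSN (40 min; uses APP, AD1), number of messages: a step that crosses the cut `[-B, B]` starts
at one of the positions `±B, ±(B+1)`, and such positions are not reached before the time `N`. -/
def S_MSN : Prop := ∀ (W A Q : Type) (P : Par W A Q) (z : P.U → Fin 4) (T L : ℕ),
  (∀ x, P.vis z T x ≤ L) → (P.m1 z T).length ≤ 4 * L ∧ (P.m2 z T).length ≤ 4 * L

/-- ESC (30 min; uses AD1), the head escapes: only finitely many times in `[-L, L]`. -/
def S_ESC : Prop := ∀ (W A Q : Type) (P : Par W A Q) (z : P.U → Fin 4) (Λ : ℕ),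
  (∀ T x, P.vis z T x ≤ Λ) → ∀ L : ℤ, ∃ T0, ∀ T, T0 ≤ T → L < |P.pos z T|

/-- COV (50 min; uses AD1), all words outside `D z` are inserted.
Proof. By the hypothesis and the steps of size at most one the head tends to `+∞` or to `-∞`. Let
`w = e i`, `i < N`. For large `j` the point `x = K (i + j N)` (resp. `-x`) is beyond `B2` and is
visited; at its first visit (a time `≥ N`, because `|pos| ≤ t`) the word `e ((|x|/K) % N) = w` is
inserted. -/
def S_COV : Prop := ∀ (W A Q : Type) (P : Par W A Q) (z : P.U → Fin 4),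
  (∀ L : ℤ, ∃ T0, ∀ T, T0 ≤ T → L < |P.pos z T|) →
  ∀ w, w ∉ P.D z → ∃ t, P.B1 < |P.pos z t| ∧ P.st z t = w

/-- GF (45 min; uses FG, HC), existence of a good table.
Proof. FG with `Tb = Fin K × Fin V`, `I` = the finite type of triples `(ℓ, o, fin)` with
`o.length = m`, `exc o < K` and at most `s` words, `R i a` = `Acc` of `List.ofFn a`. -/
def S_GF : Prop := ∀ (W A Q : Type) [Fintype W] [Fintype A] [Fintype Q] [Nonempty A]
  [Nonempty Q] (M : FM W A Q) (N K V m s : ℕ) (hK : 2 ≤ K) (hV : 1 ≤ V) (e : ℕ → W)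
  (he : ∀ w, ∃ i, i < N ∧ e i = w), 1 ≤ m →
  (Fintype.card (Loc K A Q) * (2 ^ m * (Fintype.card (Msg A Q) * Fintype.card (Msg A Q)) ^ K)
    * Fintype.card (Loc K A Q)) * (K * V) ^ m * m * s ^ m * Fintype.card W
    < Fintype.card W ^ m →
  ∃ F : Fin K × Fin V → W, (Par.mk M N K V hK hV e he F).GoodF m s

/-- ZG (75 min; uses ZC, HC, ML), most secrets are good.
Proof. Fix a message list `μ` with `|μ| ≤ k` and a triple `(ℓ, o, fin)` with more than `s` words;
let `Qs` be the set of the elements of `P.U` in `P.wrd m ℓ o fin`; `|Qs| ≥ s + 1 - K V`, as at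
most `K V` words are in the table. (a) Let `E` be the set of the `v` in `P.U` that are in `S z'`
for all `z'` with `m1 z' T' = μ` for some `T'`. If `z` violates the first condition of `GoodZ`
for `μ = m1 z T`, then `z v ≠ 3` for `v ∈ Qs ∩ E` (as `z` itself is one of the `z'`) and
`z v ≠ 0` for `v ∈ Qs \ E`. By ZC the number of these `z` is `(3/4)^|Qs| 4^n`. (b) Symmetric: let
`E` be the complement of the set of the `v` that are in `D z'` for some `z'` with
`m2 z' T' = μ`: if `z` violates the second condition then `z v ≠ 0` for `v ∈ Qs ∩ E` and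
`z v ≠ 3` for `v ∈ Qs \ E`; apply ZC with the complement of `E`. Sum over all `μ` and all
`(ℓ, o, fin)`. -/
def S_ZG : Prop := ∀ (W A Q : Type) [Fintype W] [Fintype A] [Fintype Q] [Nonempty A]
  [Nonempty Q] (P : Par W A Q) [Fintype P.U] (m s k : ℕ),
  (∀ q, s < q + P.K * P.V →
    4 * (Fintype.card (Msg A Q) + 1) ^ k * (Fintype.card (Loc P.K A Q) *
      (2 ^ m * (Fintype.card (Msg A Q) * Fintype.card (Msg A Q)) ^ P.K)
      * Fintype.card (Loc P.K A Q)) * 3 ^ q ≤ 4 ^ q) →
  2 * {z : P.U → Fin 4 | ¬ P.GoodZ m s k z}.ncard ≤ 4 ^ Fintype.card P.U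

/-- NUM (60 min), the constants. `Ms`, `Lc` are the numbers of messages and of local states.
Proof. `Ms ≤ 2 N^(5b)`, `Lc ≤ (K+2) N^(b(K+3))`. (1) the exponent of `N` on the left is at most
`2b(K+3) + 10bK + m/2 + 1` (as `s^2 ≤ N`, `m` even), which is less than `m`, since
`m/2 = 14bK`. (2) polynomial in `N` times `(3/4)^q` with `q > sqrt N - KV`. (3) `lam` is
`O(log N)`. -/
def S_NUM : Prop := ∀ b : ℕ, 1 ≤ b → ∃ N0 : ℕ, ∀ N Ac Qc : ℕ, N0 ≤ N → 1 ≤ Ac → 1 ≤ Qc →
  Ac ≤ N ^ b → Qc ≤ N ^ b → ∀ C K m V k Ms Lc s : ℕ, C = 28 * b → K = 4 * C → m = C * K →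
  V = K ^ 2 + 2 → k = 4 * (K ^ 2 + 1) → Ms = Qc * (2 * (Ac * (Ac * (Ac * Ac)))) →
  Lc = Qc * (Ac ^ (K + 2) * (K + 2)) → s = Nat.sqrt N →
  (Lc * (2 ^ m * (Ms * Ms) ^ K) * Lc) * (K * V) ^ m * m * s ^ m * N < N ^ m ∧
  (∀ q, s < q + K * V →
    4 * (Ms + 1) ^ k * (Lc * (2 ^ m * (Ms * Ms) ^ K) * Lc) * 3 ^ q ≤ 4 ^ q) ∧
  (∃ lam, 2 * (Ms + 1) ^ k ≤ 2 ^ lam ∧ 100 * (lam + 2) + K * V ≤ N)

/-- WL1 (45 min; uses AD1, AD2, SEG), a real window of few excursions has a large fibre.
The words read in `J` are table entries except for at most one insertion (the interval has only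
one multiple of `K`), and the table places are different. -/
def S_WL1 : Prop := ∀ (W A Q : Type) (P : Par W A Q) (z : P.U → Fin 4) (m s T : ℕ),
  P.GoodF m s → (∀ x, P.vis z T x < P.V) → ∀ (p : ℤ) (a a' : ℕ), P.N ≤ a → a < a' → a' ≤ T →
  ((Ico a a').filter (fun t => p ≤ P.pos z t ∧ P.pos z t ≤ p + P.K - 1)).card = m →
  ∀ (o : Hist A Q) (fin : Loc P.K A Q), o.length = m → exc o < P.K →
  P.M.Acc (res P.K p (P.M.runL P.M.init (P.tx z a))) o fin
    (P.M.inw p (p + P.K - 1) (P.M.runL P.M.init (P.tx z a))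
      ((List.range' a (a' - a)).map (P.st z))) →
  s < (P.wrd m (res P.K p (P.M.runL P.M.init (P.tx z a))) o fin).ncard

/-- WL2 (60 min; uses APP, PM, MIX, WIN, AD1, AD2, SEG), a real window of few excursions has a
small fibre.
Proof. Let `u0 = tx z a`, `u = tx z a' = u0 ++ v ++ [x]`, `J = [p, p+K-1]`. WIN (from the
configuration after `u0`) gives the history `o, fin` with `exc o < K` (the number of entrances,
SEG). Suppose `s < ncard (wrd ...)`. If `J` is far outside `[-B1, B1]` (`B1 + 1 < p` or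
`p + K < -B1`): GoodZ gives `y ∈ D z` in some accepted list `A'` and `z', T'` with
`m1 z' T' = m1 z a'`, `y ∉ S z'`. Let `ũ = u0 ++ v'` with `v'` from WIN: same final
configuration, same messages at `[-B1, B1]`, and `y ∈ outw ũ`. MIX (inside from `tx z' T'`,
outside from `u` resp. from `ũ`) gives lists `w`, `w̃` with the same final configuration (`simIn`
to the same and `simOut` to the same configuration), `y ∈ w̃`, hence `y ∈ w` by PM. But the
inside words of `tx z' T'` are in `S z'` (AD2), and the outside words of `u` are read at times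
`≥ N`, so they are not in `D z` (AD2). Contradiction. Otherwise `-B2 < p` and `p + K - 1 < B2`,
and the second half of GoodZ gives `y ∉ S z` in some accepted list and `z', T'` with
`m2 z' T' = m2 z a'`, `y ∈ D z'`; now mix the inside of `u`, `ũ` with the outside of
`tx z' T'` at `[-B2, B2]`. -/
def S_WL2 : Prop := ∀ (W A Q : Type) [Fintype W] (P : Par W A Q) (out : Q → Prop)
  (z : P.U → Fin 4) (m s k T : ℕ), P.M.Learns out → (∃ x y : W, x ≠ y) → P.GoodZ m s k z →
  (P.m1 z T).length ≤ k → (P.m2 z T).length ≤ k →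
  ∀ (p : ℤ) (a : ℕ), P.N ≤ a → a < T →
  (p ≤ P.pos z a ∧ P.pos z a ≤ p + P.K - 1) →
  (p ≤ P.pos z (T - 1) ∧ P.pos z (T - 1) ≤ p + P.K - 1) →
  ((Ico a T).filter (fun t => p ≤ P.pos z t ∧ P.pos z t ≤ p + P.K - 1)).card = m →
  ((Ico a T).filter (fun t => ¬ (p ≤ P.pos z t ∧ P.pos z t ≤ p + P.K - 1) ∧
    (p ≤ P.pos z (t + 1) ∧ P.pos z (t + 1) ≤ p + P.K - 1))).card < P.K →
  ∃ (o : Hist A Q) (fin : Loc P.K A Q), o.length = m ∧ exc o < P.K ∧
    P.M.Acc (res P.K p (P.M.runL P.M.init (P.tx z a))) o fin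
      (P.M.inw p (p + P.K - 1) (P.M.runL P.M.init (P.tx z a))
        ((List.range' a (T - a)).map (P.st z))) ∧
    ¬ s < (P.wrd m (res P.K p (P.M.runL P.M.init (P.tx z a))) o fin).ncard

/-- MC (45 min; uses LT, MSN, AD1, WL1, WL2), the local times are bounded.
Proof. Induction on `T`: if `vis z T x ≤ K^2` for all `x` then `vis z (T+1) x ≤ K^2 + 1 < V`, the
numbers of messages at the times up to `T + 1` are at most `4 (K^2 + 1) = k` (they are monotone
in `T`, MSN at each time), so WL1 and WL2 give the hypothesis of LT at `T + 1`. -/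
def S_MC : Prop := ∀ (W A Q : Type) [Fintype W] (P : Par W A Q) (out : Q → Prop)
  (z : P.U → Fin 4) (C m s k : ℕ), P.M.Learns out → (∃ x y : W, x ≠ y) → 1 ≤ C →
  P.K = 4 * C → m = C * P.K → P.V = P.K ^ 2 + 2 → k = 4 * (P.K ^ 2 + 1) → P.GoodF m s →
  P.GoodZ m s k z → ∀ T x, P.vis z T x ≤ P.K ^ 2

/-- TXT (60 min; uses APP, MIX, AD1, AD2, COV), the final contradiction.
Proof. Let `u = tx z1 T1`, `v = tx z2 T2`, `w` from MIX at `[-B1, B1]`. The stream `σ` which
starts with `w` and goes on with `st z2 T2, st z2 (T2+1), ...`: as the head of the second run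
stays outside `[-B1, B1]` from the time `T2` on, the configurations of `σ` and of the text of
`z2` stay `simOut`-equivalent and outside, so they have the same control states. The text of `z2`
has range `univ` (it contains `S z2` by AD2 and the complement of `D z2` by COV, and
`D z2 ⊆ S z2`), so `out` is eventually true. The range of `σ` is `{e}ᶜ`: it contains `S z1` (read
in the first phase, inside `[-B1, B1]`) and the complement of `D z2` (read outside
`[-B1, B1]`, COV); and `e` is not in it, since `e ∉ S z1` (inside words, AD2), and `e ∈ D z2` is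
not read by `z2` at times `≥ N` (outside words are read at times `≥ N`). So `out` is eventually
false. -/
def S_TXT : Prop := ∀ (W A Q : Type) (P : Par W A Q) (out : Q → Prop)
  (z1 z2 : P.U → Fin 4) (T1 T2 : ℕ) (e : P.U), P.M.Learns out →
  (∀ T, T1 ≤ T → P.B1 < |P.pos z1 T|) → (∀ T, T2 ≤ T → P.B1 < |P.pos z2 T|) →
  (∀ L : ℤ, ∃ T0, ∀ T, T0 ≤ T → L < |P.pos z2 T|) →
  P.m1 z1 T1 = P.m1 z2 T2 → P.N ≤ T1 → P.N ≤ T2 →
  (∀ v, (z2 v = 0 ∧ z1 v = 3) ↔ v = e) → False

/-- FIN (60 min; uses ESC, AD1, MSN, ML, TXT, UD), most secrets good gives a contradiction.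
Proof. For `z ∈ G` take `T_z ≥ N` such that the head is outside `[-B1, B1]` from `T_z` on (ESC);
the list `m1 z T_z` has length at most `4 K^2` (MSN). By the pigeonhole principle and ML there is
a list `μ` such that `Z = {z ∈ G : m1 z T_z = μ}` satisfies `|G| ≤ (Ms+1)^k |Z|`. UD and TXT. -/
def S_FIN : Prop := ∀ (W A Q : Type) [Fintype W] [Fintype A] [Fintype Q] (P : Par W A Q)
  [Fintype P.U] (out : Q → Prop) (L k lam : ℕ) (G : Set (P.U → Fin 4)), P.M.Learns out →
  (∀ z ∈ G, ∀ T x, P.vis z T x ≤ L) → 4 * L ≤ k → 4 ^ Fintype.card P.U ≤ 2 * G.ncard →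
  2 * (Fintype.card (Msg A Q) + 1) ^ k ≤ 2 ^ lam →
  100 * (lam + 2) ≤ Fintype.card P.U → False

/-- ABS, the abstract theorem (assembly, helper61). -/
def S_ABS : Prop := ∀ b : ℕ, ∃ N0 : ℕ, ∀ (W A Q : Type) [Fintype W] [Fintype A] [Fintype Q],
  N0 ≤ Fintype.card W → Fintype.card A ≤ Fintype.card W ^ b →
  Fintype.card Q ≤ Fintype.card W ^ b → ∀ (M : FM W A Q) (out : Q → Prop), ¬ M.Learns out

end Pool.Agent.T2H61.OT
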