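import Pool.Agent.T2H61.OT.Stm

namespace Pool.Agent.T2H61.OT

open Classical in
theorem pABS (hGF : S_GF) (hZG : S_ZG) (hNUM : S_NUM) (hMC : S_MC) (hFIN : S_FIN) : S_ABS := by
  intro b
  obtain ⟨N0, h⟩ := hNUM (b + 1) (by omega)
  refine ⟨max N0 2, ?_⟩
  intro W A Q _ _ _ hW hA hQ M out hL
  have hN2 : 2 ≤ Fintype.card W := le_trans (le_max_right _ _) hW
  have hN0 : N0 ≤ Fintype.card W := le_trans (le_max_left _ _) hW
  haveI : Nonempty A := ⟨M.a0⟩
  haveI : Nonempty Q := ⟨M.q0⟩
  have hA1 : 1 ≤ Fintype.card A := Fintype.card_pos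
  have hQ1 : 1 ≤ Fintype.card Q := Fintype.card_pos
  have hpow : Fintype.card W ^ b ≤ Fintype.card W ^ (b + 1) :=
    Nat.pow_le_pow_right (by omega) (by omega)
  obtain ⟨c1, c2, lam, c3, c4⟩ := h (Fintype.card W) (Fintype.card A) (Fintype.card Q) hN0 hA1 hQ1
    (hA.trans hpow) (hQ.trans hpow) (28 * (b + 1)) (4 * (28 * (b + 1)))
    (28 * (b + 1) * (4 * (28 * (b + 1)))) ((4 * (28 * (b + 1))) ^ 2 + 2)
    (4 * ((4 * (28 * (b + 1))) ^ 2 + 1))
    (Fintype.card Q * (2 * (Fintype.card A * (Fintype.card A * (Fintype.card A * Fintype.card A)))))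
    (Fintype.card Q * (Fintype.card A ^ (4 * (28 * (b + 1)) + 2) * (4 * (28 * (b + 1)) + 2)))
    (Nat.sqrt (Fintype.card W)) rfl rfl rfl rfl rfl rfl rfl rfl
  generalize hC : 28 * (b + 1) = C at *
  have hC1 : 1 ≤ C := by omega
  generalize hK : 4 * C = K at *
  generalize hV : K ^ 2 + 2 = V at *
  generalize hm : C * K = m at *
  generalize hs : Nat.sqrt (Fintype.card W) = s at *
  generalize hk : 4 * (K ^ 2 + 1) = k at *
  have hK2 : 2 ≤ K := by omega
  have hV1 : 1 ≤ V := by omega
  have hm1 : 1 ≤ m := by rw [← hm]; exact Nat.mul_pos hC1 (by omega)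
  have cM : Fintype.card (Msg A Q) = Fintype.card Q * (2 * (Fintype.card A * (Fintype.card A *
      (Fintype.card A * Fintype.card A)))) := by
    simp [Msg, Fintype.card_prod]
  have cL : Fintype.card (Loc K A Q) = Fintype.card Q * (Fintype.card A ^ (K + 2) * (K + 2)) := by
    simp [Loc, Fintype.card_prod]
  rw [← cM, ← cL] at c1 c2
  rw [← cM] at c3
  -- enumeration of the words
  let eq := Fintype.equivFin W
  let e : ℕ → W := fun i => if hi : i < Fintype.card W then eq.symm ⟨i, hi⟩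
    else eq.symm ⟨0, by omega⟩
  have he : ∀ w, ∃ i, i < Fintype.card W ∧ e i = w := by
    intro w
    refine ⟨(eq w : ℕ), (eq w).2, ?_⟩
    simp [e]
  obtain ⟨F, hF⟩ := hGF W A Q M (Fintype.card W) K V m s hK2 hV1 e he hm1 c1
  set P : Par W A Q := Par.mk M (Fintype.card W) K V hK2 hV1 e he F with hP
  have hne : ∃ x y : W, x ≠ y := by
    have := Fintype.one_lt_card_iff.1 (show 1 < Fintype.card W by omega)
    exact this
  haveI : Finite W := inferInstance
  haveI : Finite P.U := by unfold Par.U; infer_instance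
  haveI : Fintype P.U := Fintype.ofFinite _
  have hZ := hZG W A Q P m s k c2
  have hcU : Fintype.card W ≤ Fintype.card P.U + K * V := by
    have h1 : Fintype.card P.U = Fintype.card {w : W // w ∉ Set.range F} := by
      apply Fintype.card_congr
      exact Equiv.refl _
    have h2 : Fintype.card {w : W // w ∉ Set.range F}
        = Fintype.card W - Fintype.card {w : W // w ∈ Set.range F} :=
      Fintype.card_subtype_compl _
    have h3 : Fintype.card {w : W // w ∈ Set.range F} ≤ K * V := by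
      have := Fintype.card_range_le F
      rw [Fintype.card_prod, Fintype.card_fin, Fintype.card_fin] at this
      convert this
    rw [h1, h2]; omega
  have hbad : 2 * {z : P.U → Fin 4 | ¬ P.GoodZ m s k z}.ncard ≤ 4 ^ Fintype.card P.U := hZ
  have htot : {z : P.U → Fin 4 | P.GoodZ m s k z}.ncard
      + {z : P.U → Fin 4 | ¬ P.GoodZ m s k z}.ncard = 4 ^ Fintype.card P.U := by
    have h5 := Set.ncard_add_ncard_compl {z : P.U → Fin 4 | P.GoodZ m s k z}
    have h6 : {z : P.U → Fin 4 | P.GoodZ m s k z}ᶜ = {z : P.U → Fin 4 | ¬ P.GoodZ m s k z} := rfl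
    rw [h6, Nat.card_eq_fintype_card] at h5
    rw [h5, Fintype.card_fun, Fintype.card_fin]
  refine hFIN W A Q P out (K ^ 2) k lam {z | P.GoodZ m s k z} hL ?_ ?_ ?_ c3 ?_
  · intro z hz T x
    exact hMC W A Q P out z C m s k hL hne hC1 hK.symm hm.symm hV.symm hk.symm hF hz T x
  · rw [← hk]; omega
  · omega
  · omega

end Pool.Agent.T2H61.OT
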