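import Pool.Agent.T2H61.OT.Stm

/-!
# Project OT, package ESC
-/

namespace Pool.Agent.T2H61.OT

open Finset

theorem pESC (hAD1 : S_AD1) : S_ESC := by
  intro W A Q P z Λ hΛ L
  have _ := hAD1
  have hfin : ∀ x : ℤ, {t | P.N ≤ t ∧ P.pos z t = x}.Finite := by
    intro x
    by_contra hinf
    obtain ⟨F, hF, hcard⟩ := (show {t | P.N ≤ t ∧ P.pos z t = x}.Infinite from
      hinf).exists_subset_card_eq (Λ + 1)
    have hsub : F ⊆ (Finset.Ico P.N (F.sup id + 1)).filter (fun s => P.pos z s = x) := by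
      intro s hs
      have h1 := hF (Finset.mem_coe.2 hs)
      have h2 : s ≤ F.sup id := Finset.le_sup (f := id) hs
      rw [Finset.mem_filter, Finset.mem_Ico]
      exact ⟨⟨h1.1, by omega⟩, h1.2⟩
    have h3 := Finset.card_le_card hsub
    have h4 := hΛ (F.sup id + 1) x
    unfold Par.vis at h4
    omega
  have hfin2 : {t | |P.pos z t| ≤ L}.Finite := by
    apply Set.Finite.subset ((Set.finite_Iio P.N).union
      (Set.Finite.biUnion (Set.finite_Icc (-L) L) (fun x _ => hfin x)))
    intro t ht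
    have ht' : |P.pos z t| ≤ L := ht
    by_cases h : t < P.N
    · exact Or.inl h
    · right
      rw [Set.mem_iUnion₂]
      exact ⟨P.pos z t, abs_le.1 ht', not_lt.1 h, rfl⟩
  obtain ⟨T0, hT0⟩ := hfin2.bddAbove
  refine ⟨T0 + 1, fun T hT => ?_⟩
  by_contra hcon
  have := hT0 (show |P.pos z T| ≤ L from not_lt.1 hcon)
  omega

end Pool.Agent.T2H61.OT
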